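import Pool.Agent.Helper13.ML.All0
import Pool.Agent.Helper32.ML.BTL
import Pool.Agent.Helper44.ML.W2

/-!
# Project ML, absolute form: everything

**The final theorem.**  Let `k` be a number field, `K0` the function field of a curve `Y` over `k`,
`n ≥ 1`, `ℓ` a prime which divides `n`, such that `k` contains the `ℓ`-th roots of unity, and
`y ^ n = h` a geometrically irreducible cover of `Y` which is not rational, without rational totally
ramified point.  Then almost all twists `y ^ n = c h`, and all curves above them, have no Galois
section.
-/

set_option autoImplicit false

namespace Pool.Agent.ML

theorem finA : StmtFinA := finA_of2 btl w2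

end Pool.Agent.ML
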