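import Pool.Agent.Helper13.ML.G1a

/-!
# Project ML, block G1: the relations
-/

set_option autoImplicit false
set_option linter.unusedSectionVars false

namespace Pool.Agent.ML

open Polynomial NumberField IsDedekindDomain
open Pool.Agent.HG
open scoped Pointwise IntermediateField

/-- inverting an exponent prime to `ℓ` -/
theorem root_pow_inv {k : Type} [Field k] {ℓ : ℕ} (hp : ℓ.Prime) (x : rootsOfUnity ℓ k) {r : ℕ}
    (hr : ¬ ℓ ∣ r) : (x ^ r) ^ ((r : ZMod ℓ)⁻¹).val = x := by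
  have : Fact ℓ.Prime := ⟨hp⟩
  have hr0 : (r : ZMod ℓ) ≠ 0 := by
    rwa [Ne, ZMod.natCast_eq_zero_iff]
  have h1 : ((r * ((r : ZMod ℓ)⁻¹).val : ℕ) : ZMod ℓ) = ((1 : ℕ) : ZMod ℓ) := by
    rw [Nat.cast_mul, ZMod.natCast_zmod_val, mul_inv_cancel₀ hr0, Nat.cast_one]
  have h2 := (ZMod.natCast_eq_natCast_iff _ _ _).1 h1
  rw [← pow_mul, ← pow_mod_orderOf]
  have h3 : orderOf x ∣ ℓ := orderOf_dvd_of_pow_eq_one (root_pow x)
  have h4 : r * ((r : ZMod ℓ)⁻¹).val % orderOf x = 1 % orderOf x := h2.of_dvd h3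
  rw [h4, pow_mod_orderOf, pow_one]

section che

variable {k L : Type} [Field k] [NumberField k] [Field L] [NumberField L] [Algebra k L]
  [IsGalois k L] {f : k[X]} (X : Ctx k L f) {ℓ : ℕ}

open scoped Classical in
/-- the class of `e` times an `ℓ`-th power which is a unit -/
noncomputable def chE (ℓ : ℕ) (v : Pr k) (m : ℕ) (e : L) : rootsOfUnity ℓ k :=
  if h : ∃ w : L, w ≠ 0 ∧ (X.F v ^ m) w = w ∧ (X.P v).valuation L (e * w ^ ℓ) = 1 then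
    chl X ℓ v m (e * h.choose ^ ℓ) else 1

theorem chE_eq (hp : ℓ.Prime) (hmu : ∃ ζ : k, IsPrimitiveRoot ζ ℓ) {v : Pr k} {m : ℕ}
    (hl : (X.P v).valuation L (ℓ : L) = 1) (hq : ℓ ∣ nm v - 1) (hq1 : 1 ≤ nm v) {e w : L}
    (he : (X.F v ^ m) e = e) (hw : w ≠ 0) (hF : (X.F v ^ m) w = w)
    (hv : (X.P v).valuation L (e * w ^ ℓ) = 1) : chE X ℓ v m e = chl X ℓ v m (e * w ^ ℓ) := by
  have hqm := dvd_pow_sub hq m
  have hqm1 : 1 ≤ nm v ^ m := Nat.pow_pos hq1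
  have hex : ∃ w : L, w ≠ 0 ∧ (X.F v ^ m) w = w ∧ (X.P v).valuation L (e * w ^ ℓ) = 1 :=
    ⟨w, hw, hF, hv⟩
  unfold chE
  rw [dif_pos hex]
  obtain ⟨hw', hF', hv'⟩ := hex.choose_spec
  set w' := hex.choose
  have hu0 : (X.P v).valuation L (w / w') = 1 := by
    have h3 : e * w ^ ℓ = (e * w' ^ ℓ) * (w / w') ^ ℓ := by
      rw [div_pow]
      field_simp
    rw [h3, map_mul, hv', one_mul, map_pow] at hv
    exact (pow_eq_one_iff_of_nonneg zero_le hp.ne_zero).1 hv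
  have hu : Un (X.P v) (nm v ^ m) (w / w') := X.un_of_fixed hu0 (by rw [map_div₀, hF, hF'])
  have he' : Un (X.P v) (nm v ^ m) (e * w' ^ ℓ) :=
    X.un_of_fixed hv' (by rw [map_mul, map_pow, he, hF'])
  have h3 : e * w ^ ℓ = (e * w' ^ ℓ) * (w / w') ^ ℓ := by
    rw [div_pow]
    field_simp
  obtain ⟨h4, h5⟩ := sym_pow (k := k) hp hl hmu hqm hqm1 hu ℓ
  rw [chl_eq, chl_eq, h3, sym_mul hp hl hmu hqm hqm1 he' h4, h5, root_pow, mul_one]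

end che

section rel

variable {k L : Type} [Field k] [NumberField k] [Field L] [NumberField L] [Algebra k L]
  [IsGalois k L] {f : k[X]} {X : Ctx k L f} {n ℓ : ℕ} {c : k} {S : Finset (Pr k × Fin n)}
  {w : L → Fin n → ℕ} {D : L → L → L} {t : Pr k → L} {sg : Pr k → ℕ → L → L → rootsOfUnity ℓ k}
  (h : DatL X n ℓ c S w D t sg) (hp : ℓ.Prime) (hM : ℓ ∣ X.M) (hmu : ∃ ζ : k, IsPrimitiveRoot ζ ℓ)

open scoped Classical in
/-- the product of the symbols -/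
noncomputable def Aq (X : Ctx k L f) (ℓ : ℕ) (S : Finset (Pr k × Fin n)) (w : L → Fin n → ℕ)
    (t : Pr k → L) (v : Pr k) (ρ : L) : rootsOfUnity ℓ k :=
  ∏ q ∈ S.filter (fun q => minpoly k (t q.1) = minpoly k ρ),
    chl X ℓ v (X.len v ρ) (aeval ρ (X.B q.1 (t q.1))) ^ w (t q.1) q.2

include h

/-- the Thue factors are units fixed by a power of the Frobenius element -/
theorem DatL.un_fac {v : Pr k} {e : Fin n} (hv : (v, e) ∈ S) {ρ : L} (hρ : ρ ∈ X.Ω)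
    (hne : ρ ≠ t v) {m : ℕ} (hm' : X.len v ρ ∣ m) {q : Pr k} {e' : Fin n} (hq : (q, e') ∈ S)
    (hm : minpoly k (t q) = minpoly k ρ) :
    Un (X.P v) (nm v ^ m) (aeval ρ (X.B q (t q))) := by
  obtain ⟨p, hpp, hpM, hpv⟩ := h.gd hv
  exact X.un_of_fixed (h.val_fac hpp hpM hpv hρ hq (fun _ => hne) hm)
    (aeval_fixed _ (X.fix_of_dvd hm'))

include hp hM hmu

/-- the class of the product of the Thue numbers -/
theorem DatL.ch_Zl {v : Pr k} {e : Fin n} (hv : (v, e) ∈ S) {ρ : L} (hρ : ρ ∈ X.Ω)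
    (hne : ρ ≠ t v) {m : ℕ} (hm' : X.len v ρ ∣ m) :
    Un (X.P v) (nm v ^ m) (Zl X S w t ρ) ∧ chl X ℓ v m (Zl X S w t ρ) =
      Aq X ℓ S w t v ρ ^ (m / X.len v ρ) := by
  classical
  obtain ⟨p, hpp, hpM, hpv⟩ := h.gd hv
  have hl := l_unit X hp hM hpp hpM hpv
  obtain ⟨hq, hq1⟩ := nm_one X hp hM hmu hpp hpM hpv
  have hqm := dvd_pow_sub hq m
  have hqm1 : 1 ≤ nm v ^ m := Nat.pow_pos hq1
  have h1 : ∀ q ∈ S.filter (fun q => minpoly k (t q.1) = minpoly k ρ),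
      Un (X.P v) (nm v ^ m) (aeval ρ (X.B q.1 (t q.1)) ^ w (t q.1) q.2) := by
    intro q hq'
    obtain ⟨hq2, hq3⟩ := Finset.mem_filter.1 hq'
    exact (sym_pow (k := k) hp hl hmu hqm hqm1
      (h.un_fac hv hρ hne hm' (q := q.1) (e' := q.2) hq2 hq3) _).1
  refine ⟨Un.prod _ _ h1, ?_⟩
  rw [chl_eq, Zl, sym_prod hp hl hmu hqm hqm1 _ _ h1, Aq, ← Finset.prod_pow]
  refine Finset.prod_congr rfl fun q hqq => ?_
  obtain ⟨hq2, hq3⟩ := Finset.mem_filter.1 hqq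
  obtain ⟨m', rfl⟩ := hm'
  have h3 := h.un_fac hv hρ hne (dvd_refl (X.len v ρ)) (q := q.1) (e' := q.2) hq2 hq3
  have h4 := h.un_fac hv hρ hne (Dvd.intro m' rfl : X.len v ρ ∣ X.len v ρ * m') (q := q.1)
    (e' := q.2) hq2 hq3
  rw [(sym_pow (k := k) hp hl hmu hqm hqm1 h4 _).2, Nat.mul_div_cancel_left _ (X.len_pos v ρ),
    pow_mul, sym_lift hp hl hmu (dvd_pow_sub hq _) (Nat.pow_pos hq1) h3 m', ← pow_mul, ← pow_mul,
    mul_comm m']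
  rfl

open scoped Classical in
/-- **The relation.** -/
theorem DatL.rel (h2 : 2 ≤ f.natDegree) {v : Pr k} {e₀ : Fin n} (hv : (v, e₀) ∈ S) {ρ : L}
    (hρ : ρ ∈ (X.R v).erase (t v)) (hst : ρ ≠ st X ℓ v (t v)) {e d : L}
    (he : e ∈ k⟮ρ, st X ℓ v (t v)⟯) (hd : d ∈ k⟮ρ, st X ℓ v (t v)⟯)
    (hz : D ρ (st X ℓ v (t v)) * (Zl X S w t ρ)⁻¹ * Zl X S w t (st X ℓ v (t v)) = e * d ^ ℓ) :
    Aq X ℓ S w t v ρ ^ (Nat.lcm (X.len v ρ) (X.len v (st X ℓ v (t v))) / X.len v ρ) =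
      sg v (Nat.lcm (X.len v ρ) (X.len v (st X ℓ v (t v)))) ρ (st X ℓ v (t v)) *
      Aq X ℓ S w t v (st X ℓ v (t v)) ^
        (Nat.lcm (X.len v ρ) (X.len v (st X ℓ v (t v))) / X.len v (st X ℓ v (t v))) *
      (chE X ℓ v (Nat.lcm (X.len v ρ) (X.len v (st X ℓ v (t v)))) e)⁻¹ := by
  obtain ⟨p, hpp, hpM, hpv⟩ := h.gd hv
  have hl := l_unit X hp hM hpp hpM hpv
  obtain ⟨hq, hq1⟩ := nm_one X hp hM hmu hpp hpM hpv
  have hfix := h.t_fix v e₀ hv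
  have hstm := st_mem (ℓ := ℓ) X h2 hfix
  obtain ⟨hρt, hρR⟩ := Finset.mem_erase.1 hρ
  obtain ⟨hst', hsR⟩ := Finset.mem_erase.1 hstm
  have hρΩ := X.R_subset v hρR
  have hsΩ := X.R_subset v hsR
  set s := st X ℓ v (t v) with hs
  set m := Nat.lcm (X.len v ρ) (X.len v s) with hm
  have hqm := dvd_pow_sub hq m
  have hqm1 : 1 ≤ nm v ^ m := Nat.pow_pos hq1
  have hdρ : X.len v ρ ∣ m := Nat.dvd_lcm_left _ _
  have hds : X.len v s ∣ m := Nat.dvd_lcm_right _ _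
  have hm0 : 0 < m := Nat.pos_of_ne_zero (Nat.lcm_ne_zero (X.len_pos v ρ).ne' (X.len_pos v s).ne')
  have hFρ : (X.F v ^ m) ρ = ρ := X.fix_of_dvd hdρ
  have hFs : (X.F v ^ m) s = s := X.fix_of_dvd hds
  -- the factor of `D`
  obtain ⟨a, ha⟩ := h.even p v hpp hpM hpv e₀ hv ρ hρΩ s hsΩ hst hρt hst'
  rw [sub_zero] at ha
  have hFp : ∀ a : ℤ, (X.F v ^ m) ((p : L) ^ a) = (p : L) ^ a := fun a => by
    rw [map_zpow₀, map_natCast]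
  have hDF : (X.F v ^ m) (D ρ s * (p : L) ^ ((ℓ : ℤ) * a)) = D ρ s * (p : L) ^ ((ℓ : ℤ) * a) := by
    rw [map_mul, h.D_fixed hρΩ hsΩ hst hFρ hFs, hFp]
  have hDU := X.un_of_fixed ha hDF
  have hD : sym k ℓ (X.P v) (nm v ^ m) (D ρ s * (p : L) ^ ((ℓ : ℤ) * a)) = sg v m ρ s :=
    h.sign p v hpp hpM hpv e₀ hv ρ hρΩ s hsΩ hst hρt hst' m hm0 hFρ hFs a ha
  -- the Thue factors
  obtain ⟨hU1, hC1⟩ := h.ch_Zl hp hM hmu hv hρΩ hρt hdρ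
  obtain ⟨hU2, hC2⟩ := h.ch_Zl hp hM hmu hv hsΩ hst' hds
  -- the product
  have hp0 : (p : L) ≠ 0 := by exact_mod_cast hpp.ne_zero
  have hz0 : D ρ s * (Zl X S w t ρ)⁻¹ * Zl X S w t s ≠ 0 := h.z_ne hρΩ hsΩ hst
  have hd0 : d ≠ 0 := by
    rintro rfl
    rw [zero_pow hp.ne_zero, mul_zero] at hz
    exact hz0 hz
  have he1 : e * (d * (p : L) ^ a) ^ ℓ =
      (D ρ s * (p : L) ^ ((ℓ : ℤ) * a)) * (Zl X S w t ρ)⁻¹ * Zl X S w t s := by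
    have e1 : (p : L) ^ ((ℓ : ℤ) * a) = ((p : L) ^ a) ^ ℓ := by
      rw [← zpow_natCast, ← zpow_mul, mul_comm]
    rw [e1, mul_pow, ← mul_assoc, ← hz]
    ring
  have hUz := (hDU.mul hU1.inv).mul hU2
  have hE := chE_eq X hp hmu hl hq hq1 (m := m) (fixed_of_mem_adjoin he hFρ hFs)
    (mul_ne_zero hd0 (zpow_ne_zero a hp0)) (by
      rw [map_mul, fixed_of_mem_adjoin hd hFρ hFs, hFp]) (by rw [he1]; exact hUz.1)
  rw [he1, chl_eq, sym_mul hp hl hmu hqm hqm1 (hDU.mul hU1.inv) hU2,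
    sym_mul hp hl hmu hqm hqm1 hDU hU1.inv, sym_inv hp hl hmu hqm hqm1 hU1, hD] at hE
  rw [chl_eq] at hC1 hC2
  rw [← hC1, ← hC2, hE]
  generalize sg v m ρ s = x
  generalize sym k ℓ (X.P v) (nm v ^ m) (Zl X S w t ρ) = y
  generalize sym k ℓ (X.P v) (nm v ^ m) (Zl X S w t s) = z
  rw [eq_mul_inv_iff_mul_eq]
  calc y * (x * y⁻¹ * z) = (y * y⁻¹) * (x * z) := by
        rw [mul_comm x y⁻¹, mul_assoc y⁻¹, ← mul_assoc]
    _ = x * z := by rw [mul_inv_cancel, one_mul]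

end rel

section final

variable {k L : Type} [Field k] [NumberField k] [Field L] [NumberField L] [Algebra k L]
  [IsGalois k L] {f : k[X]} (X : Ctx k L f) {n : ℕ} (ℓ : ℕ)

open scoped Classical in
/-- the prescription which belongs to the classes `h` -/
noncomputable def ggL (hm : 0 < X.m) (w : L → Fin n → ℕ) {ι : Type}
    (SG : Pr k → ι → ℕ → L → L → rootsOfUnity ℓ k) (h : L → L → L)
    (v : Pr k × Fin n) (o : Σ _ : L × rootsOfUnity ℓ k, ι) (ρ : L) : rootsOfUnity ℓ k :=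
  (if ρ = st X ℓ v.1 o.1.1 then o.1.2 else
    (SG v.1 o.2 (Nat.lcm (X.len v.1 ρ) (X.len v.1 (st X ℓ v.1 o.1.1))) ρ (st X ℓ v.1 o.1.1) *
      o.1.2 ^ (Nat.lcm (X.len v.1 ρ) (X.len v.1 (st X ℓ v.1 o.1.1)) /
        X.len v.1 (st X ℓ v.1 o.1.1)) *
      (chE X ℓ v.1 (Nat.lcm (X.len v.1 ρ) (X.len v.1 (st X ℓ v.1 o.1.1)))
        (h ρ (st X ℓ v.1 o.1.1)))⁻¹) ^
      (((Nat.lcm (X.len v.1 ρ) (X.len v.1 (st X ℓ v.1 o.1.1)) / X.len v.1 ρ : ℕ) : ZMod ℓ)⁻¹).val) *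
  (if X.cmp hm o.1.1 = X.cmp hm ρ then
    (chl X ℓ v.1 (X.len v.1 ρ) (aeval ρ (X.B v.1 o.1.1)) ^ w o.1.1 v.2)⁻¹ else 1)

open scoped Classical in
theorem bad_ofL [NeZero ℓ] (hm : 0 < X.m) (hfin : {v : Pr k | ¬ Gd X.M v}.Finite) (ι : Type)
    (Vι : Pr k → L → Finset ι) (Al : Fin n → L → Prop) (w : L → Fin n → ℕ)
    (g : Pr k × Fin n → (Σ _ : L × rootsOfUnity ℓ k, ι) → L → rootsOfUnity ℓ k)
    (S : Finset (Pr k × Fin n)) (hS : ∀ v ∈ S, Gd X.M v.1)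
    (t : Pr k → L) (u : Pr k → rootsOfUnity ℓ k) (i : Pr k → ι)
    (hi : ∀ v ∈ S, i v.1 ∈ Vι v.1 (t v.1) ∧ Al v.2 (t v.1))
    (ht : ∀ v ∈ S, t v.1 ∈ X.Ω ∧ X.F v.1 (t v.1) = t v.1)
    (h : ∀ v ∈ S, ∀ ρ ∈ X.R v.1, ρ ≠ t v.1 →
      ∏ q ∈ S.filter (fun q => q ≠ v ∧ X.cmp hm (t q.1) = X.cmp hm ρ),
        chl X ℓ v.1 (X.len v.1 ρ) (aeval ρ (X.B q.1 (t q.1))) ^ w (t q.1) q.2 =
          g v ⟨(t v.1, u v.1), i v.1⟩ ρ) :
    Pool.Agent.Helper99.HG.Bad (cdL X n ℓ hm hfin ι Vι Al w g) S := by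
  have hpf : Pool.Agent.Helper99.HG.pf (cdL X n ℓ hm hfin ι Vι Al w g) S = S := by
    unfold Pool.Agent.Helper99.HG.pf
    refine Finset.filter_true_of_mem fun v hv => ?_
    intro h1
    exact (hfin.mem_toFinset.1 (Finset.mem_product.1 h1).1) (hS v hv)
  refine ⟨fun v => ⟨(t v.1, u v.1), i v.1⟩, ?_⟩
  rw [hpf]
  intro (v : Pr k × Fin n) hv
  refine ⟨?_, ?_⟩
  · refine Finset.mem_sigma.2 ⟨Finset.mem_product.2 ⟨?_, ?_⟩, (hi v hv).1⟩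
    · exact Finset.mem_filter.2 ⟨Finset.mem_filter.2 (ht v hv), (hi v hv).2⟩
    · exact (Set.Finite.mem_toFinset _).2 (Set.mem_univ _)
  intro j (ρ : L) hρ
  obtain ⟨hρt, hρ2⟩ := Finset.mem_erase.1 hρ
  have hρ3 : ρ ∈ X.R v.1 ∧ X.cmp hm ρ = j := by
    exact (@Finset.mem_filter L (fun ρ => X.cmp hm ρ = j) (fun a => instDecidableEqFin _ _ _)
      (X.R v.1) ρ).1 hρ2
  obtain ⟨hρR, hρj⟩ := hρ3
  subst hρj
  refine Eq.trans ?_ (h v hv ρ hρR hρt)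
  refine Finset.prod_congr ?_ fun _ _ => rfl
  refine Finset.ext fun (q : Pr k × Fin n) => ⟨fun h1 => ?_, fun h1 => ?_⟩
  · exact (@Finset.mem_filter _ _ (_) _ _).2 ((@Finset.mem_filter _ _ (_) _ _).1 h1)
  · exact (@Finset.mem_filter _ _ (_) _ _).2 ((@Finset.mem_filter _ _ (_) _ _).1 h1)

end final

theorem g1 : StmtG1 := by
  intro hsel k L _ _ _ _ _ _ f X n ℓ _ hp _ hmu hM h2 hm hfin ι Vι Al w SG
  classical
  -- the finite lists of classes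
  choose Fs hFs1 hFs2 using fun θ θ' : L => hsel ℓ hp k L k⟮θ, θ'⟯ X.M X.hM
  set FF : Finset L := insert 1 ((X.Ω ×ˢ X.Ω).biUnion fun x => Fs x.1 x.2) with hFF
  set hh : (X.Ω → X.Ω → FF) → L → L → L := fun h a b =>
    if hab : a ∈ X.Ω ∧ b ∈ X.Ω then (h ⟨a, hab.1⟩ ⟨b, hab.2⟩ : L) else 1 with hhh
  refine ⟨X.Ω → X.Ω → FF, inferInstance, fun h => ggL X ℓ hm w SG (hh h), ?_⟩
  intro c S D t i hdat hi
  -- the classes
  have he : ∀ θ θ' : L, ∃ e : L, e ∈ FF ∧ (θ ∈ X.Ω → θ' ∈ X.Ω → θ ≠ θ' → e ∈ k⟮θ, θ'⟯ ∧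
      ∃ d ∈ k⟮θ, θ'⟯, D θ θ' * (Zl X S w t θ)⁻¹ * Zl X S w t θ' = e * d ^ ℓ) := by
    intro θ θ'
    by_cases h1 : θ ∈ X.Ω ∧ θ' ∈ X.Ω ∧ θ ≠ θ'
    · obtain ⟨h1, h2, h3⟩ := h1
      obtain ⟨e, he, d, hd, hz⟩ := hFs2 θ θ' _ (hdat.z_mem h1 h2 h3) (hdat.z_ne h1 h2 h3)
        (hdat.vz_z h1 h2 h3)
      exact ⟨e, Finset.mem_insert_of_mem (Finset.mem_biUnion.2 ⟨(θ, θ'),
        Finset.mem_product.2 ⟨h1, h2⟩, he⟩), fun _ _ _ => ⟨(hFs1 θ θ' e he).1, d, hd, hz⟩⟩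
    · exact ⟨1, Finset.mem_insert_self _ _, fun h2 h3 h4 => absurd ⟨h2, h3, h4⟩ h1⟩
  choose e heF he using he
  have hhe : ∀ {a b : L}, a ∈ X.Ω → b ∈ X.Ω →
      hh (fun a b => ⟨e a b, heF a b⟩) a b = e a b := by
    intro a b ha hb
    rw [hhh]
    exact dif_pos ⟨ha, hb⟩
  -- the options
  set u : Pr k → rootsOfUnity ℓ k := fun v => Aq X ℓ S w t v (st X ℓ v (t v)) with hu
  refine ⟨fun a b => ⟨e a b, heF a b⟩, ?_⟩
  refine bad_ofL X ℓ hm hfin ι Vι Al w _ S (fun v hv => ((hdat.hS v.1 v.2).1 hv).1) t u i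
    (fun v hv => hi v.1 v.2 hv)
    (fun v hv => ⟨hdat.t_mem v.1 v.2 hv, hdat.t_fix v.1 v.2 hv⟩) ?_
  intro v hv ρ hρR hρt
  have hρΩ := X.R_subset v.1 hρR
  have htΩ := hdat.t_mem v.1 v.2 hv
  -- the product over `q ≠ v`
  have hprod : ∏ q ∈ S.filter (fun q => q ≠ v ∧ X.cmp hm (t q.1) = X.cmp hm ρ),
      chl X ℓ v.1 (X.len v.1 ρ) (aeval ρ (X.B q.1 (t q.1))) ^ w (t q.1) q.2 =
      Aq X ℓ S w t v.1 ρ *
      (if X.cmp hm (t v.1) = X.cmp hm ρ then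
        (chl X ℓ v.1 (X.len v.1 ρ) (aeval ρ (X.B v.1 (t v.1))) ^ w (t v.1) v.2)⁻¹ else 1) := by
    have h1 : S.filter (fun q => q ≠ v ∧ X.cmp hm (t q.1) = X.cmp hm ρ) =
        (S.filter (fun q => minpoly k (t q.1) = minpoly k ρ)).erase v := by
      ext q
      simp only [Finset.mem_filter, Finset.mem_erase]
      constructor
      · rintro ⟨h1, h2, h3⟩
        exact ⟨h2, h1, (X.cmp_eq hm (hdat.t_mem q.1 q.2 h1) hρΩ).1 h3⟩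
      · rintro ⟨h2, h1, h3⟩
        exact ⟨h1, h2, (X.cmp_eq hm (hdat.t_mem q.1 q.2 h1) hρΩ).2 h3⟩
    rw [h1, Aq]
    split_ifs with h2
    · have h3 : v ∈ S.filter (fun q => minpoly k (t q.1) = minpoly k ρ) :=
        Finset.mem_filter.2 ⟨hv, (X.cmp_eq hm htΩ hρΩ).1 h2⟩
      rw [← Finset.prod_erase_mul _ _ h3, mul_assoc, mul_inv_cancel, mul_one]
    · have h3 : v ∉ S.filter (fun q => minpoly k (t q.1) = minpoly k ρ) := fun h3 =>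
        h2 ((X.cmp_eq hm htΩ hρΩ).2 (Finset.mem_filter.1 h3).2)
      rw [Finset.erase_eq_of_notMem h3, mul_one]
  rw [hprod]
  unfold ggL
  congr 1
  split_ifs with h1
  · have h1' : ρ = st X ℓ v.1 (t v.1) := h1
    rw [h1']
  · have hst := st_mem (ℓ := ℓ) X h2 (hdat.t_fix v.1 v.2 hv)
    have hsΩ := X.R_subset v.1 (Finset.mem_erase.1 hst).2
    obtain ⟨he1, d, hd, hz⟩ := he ρ (st X ℓ v.1 (t v.1)) hρΩ hsΩ h1
    have h5 : hh (fun a b => ⟨e a b, heF a b⟩) ρ (st X ℓ v.1 (t v.1)) =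
        e ρ (st X ℓ v.1 (t v.1)) := hhe hρΩ hsΩ
    change _ = (_ * _ * (chE X ℓ v.1 _
      (hh (fun a b => ⟨e a b, heF a b⟩) ρ (st X ℓ v.1 (t v.1))))⁻¹) ^ _
    rw [h5]
    have h6 := hdat.rel hp hM hmu h2 (v := v.1) (e₀ := v.2) hv (Finset.mem_erase.2 ⟨hρt, hρR⟩)
      h1 he1 hd hz
    have h7 := not_dvd_quot X hp h2 (hdat.t_fix v.1 v.2 hv) (Finset.mem_erase.2 ⟨hρt, hρR⟩)
    refine (root_pow_inv hp (Aq X ℓ S w t v.1 ρ) h7).symm.trans ?_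
    rw [h6]

end Pool.Agent.ML
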