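import Pool.Agent.Helper13.ML.Fin5
import Pool.Agent.Helper13.ML.G1
import Pool.Agent.Helper45.LN.All2
import Pool.Agent.Helper9.M.FT
import Pool.Agent.Helper10.M.W1
import Pool.Agent.Helper79.M.W3
import Pool.Agent.Helper5.M.FB
import Pool.Agent.Helper17.ML.K4M
import Pool.Agent.Helper22.ML.W4
import Pool.Agent.Helper28.ML.HFT
import Pool.Agent.Helper28.ML.Z
import Pool.Agent.Helper29.ML.LM
import Pool.Agent.Helper37.ML.QW
import Pool.Agent.Helper45.ML.INT
import Pool.Agent.Helper57.ML.COC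
import Pool.Agent.Helper57.ML.G2
import Pool.Agent.Helper59.ML.NR
import Pool.Agent.Helper71.ML.Sel
import Pool.Agent.Helper79.ML.G3
import Pool.Agent.Helper90.ML.CLL
import Pool.Agent.Helper99.ML.FIN
import Pool.Agent.Helper99.ML.LFT
import Pool.Agent.Helper99.ML.MU
import Pool.Agent.Helper99.ML.PI
import Pool.Agent.Helper99.ML.QMD
import Pool.Agent.Helper99.MP.CountL
import Pool.Agent.Helper21.HG.Split
import Pool.Agent.Helper21.HG.Mert
import Pool.Agent.Helper88.HG.G4

/-!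
# Project ML: everything but `StmtBTL` and `StmtW2`
-/

set_option autoImplicit false

namespace Pool.Agent.ML

theorem finA_of2 (hBTL : StmtBTL) (hW2 : StmtW2) : StmtFinA := by
  have hLM : StmtLM := lm (Pool.Agent.L.stmtK2 Pool.Agent.L.stmtK1) Pool.Agent.LN.k3 k4M
    Pool.Agent.L.stmtAR
  have hFIN : StmtFIN := fin hLM M.fT hf Pool.Agent.LN.fr Pool.Agent.L.stmtAR
  have hINT : StmtINT := int hLM M.fT coc nR Pool.Agent.L.stmtAR
  have hQMD : StmtQMD := qMD (pI M.fT) w4 (qW M.fT (M.w1 M.fT)) hW2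
  exact finA_of Pool.Agent.LN.tr Pool.Agent.LN.fr nR M.fb hFIN z hINT lft (mU M.fT) hQMD M.w3 sel
    Pool.Agent.Helper21.HG.mert Pool.Agent.Helper21.HG.split Pool.Agent.Helper22.HG.der hBTL
    Pool.Agent.Helper88.HG.thue g4P g1 g2 g3
    Pool.Agent.Helper99.ML.countL Pool.Agent.LN.up Pool.Agent.LN.low Pool.Agent.LN.clo cLL
    Pool.Agent.LN2.up Pool.Agent.LN2.cls

end Pool.Agent.ML
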