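import Pool.Agent.Helper88.HG.G4

/-!
# Project ML: block G4 for polynomials of every positive degree
-/

set_option autoImplicit false

namespace Pool.Agent.ML

open Polynomial NumberField IsDedekindDomain
open Pool.Agent.HG Pool.Agent.Helper88.HG

/-- `HG.StmtG4` for polynomials of every positive degree -/
def StmtG4P : Prop :=
  StmtThue → ∀ (k L : Type) [Field k] [NumberField k] [Field L] [NumberField L] [Algebra k L]
    [IsGalois k L] (f : k[X]), f.Separable → (f.map (algebraMap k L)).Splits →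
    1 ≤ f.natDegree → ∀ MA : ℕ, MA ≠ 0 →
    ∃ X : Ctx k L f, MA ∣ X.M ∧ 0 < X.m ∧ {v : Pr k | ¬ Gd X.M v}.Finite

theorem g4P : StmtG4P := by
  classical
  intro hT k L _ _ _ _ _ _ f hsep hsplit hdeg MA hMA
  have hf : f ≠ 0 := hsep.ne_zero
  obtain ⟨MT, K, hMT, hK, hthue⟩ := hT k f hsep L hsplit
  obtain ⟨M₁, hM₁, hroots⟩ := exists_M_roots k L f
  obtain ⟨Ml, hMl, hlead⟩ := exists_M_unit (L := k) {f.leadingCoeff} (fun z hz => by
    rw [Finset.mem_singleton.1 hz]; exact leadingCoeff_ne_zero.2 hf)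
  have hdk : (discr k).natAbs ≠ 0 := by rw [Ne, Int.natAbs_eq_zero]; exact discr_ne_zero k
  have hdL : (discr L).natAbs ≠ 0 := by rw [Ne, Int.natAbs_eq_zero]; exact discr_ne_zero L
  obtain ⟨M, hM⟩ : ∃ M, M = MA * 2 * MT * M₁ * Ml * (discr k).natAbs * (discr L).natAbs :=
    ⟨_, rfl⟩
  have hM0 : M ≠ 0 := by
    rw [hM]
    exact mul_ne_zero (mul_ne_zero (mul_ne_zero (mul_ne_zero (mul_ne_zero
      (mul_ne_zero hMA two_ne_zero) hMT) hM₁) hMl) hdk) hdL
  have d1 : MA ∣ M := by rw [hM]; exact ⟨2 * MT * M₁ * Ml * (discr k).natAbs * (discr L).natAbs, by ring⟩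
  have d2 : 2 ∣ M := by rw [hM]; exact ⟨MA * MT * M₁ * Ml * (discr k).natAbs * (discr L).natAbs, by ring⟩
  have d3 : MT ∣ M := by rw [hM]; exact ⟨MA * 2 * M₁ * Ml * (discr k).natAbs * (discr L).natAbs, by ring⟩
  have d4 : M₁ ∣ M := by rw [hM]; exact ⟨MA * 2 * MT * Ml * (discr k).natAbs * (discr L).natAbs, by ring⟩
  have d5 : Ml ∣ M := by rw [hM]; exact ⟨MA * 2 * MT * M₁ * (discr k).natAbs * (discr L).natAbs, by ring⟩
  have d6 : (discr k).natAbs ∣ M := by
    rw [hM]; exact ⟨MA * 2 * MT * M₁ * Ml * (discr L).natAbs, by ring⟩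
  have d7 : (discr L).natAbs ∣ M := by
    rw [hM]; exact ⟨MA * 2 * MT * M₁ * Ml * (discr k).natAbs, by ring⟩
  clear hM
  have mono : ∀ {M' p : ℕ} {v : Pr k} {P : Pr L}, M' ∣ M → Over M p v P → Over M' p v P :=
    fun {M' p v P} hd h => ⟨h.prime, fun h' => h.not_dvd (h'.trans hd), h.mem, h.comap⟩
  choose P hP using fun v : Pr k => exists_over (L := L) v
  choose Fr hst hfr using fun v : Pr k => exists_frob (hP v)
  have hint : ∀ (p : ℕ) (v : Pr k) (P : Pr L), Over M p v P → ∀ θ ∈ f.rootSet L,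
      P.valuation L θ ≤ 1 := fun p v P h => (hroots M p v P d4 h).1
  have hB : ∀ (v : Pr k) (o : L), ∃ B : k[X], ∀ p : ℕ, Over M p v (P v) → o ∈ f.rootSet L →
      Fr v o = o → IsThue f M K p v (P v) o B := by
    intro v o
    by_cases hex : ∃ p, Over M p v (P v) ∧ o ∈ f.rootSet L ∧ Fr v o = o
    · obtain ⟨p, hp, ho, hFo⟩ := hex
      have h1 : (P v).valuation L (o ^ nm v - o) < 1 := by
        have h2 := hfr v o (hint p v (P v) hp o ho)
        rw [hFo] at h2
        have h3 : o ^ nm v - o = -(o - o ^ nm v) := by ring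
        rw [h3, Valuation.map_neg]
        exact h2
      obtain ⟨B, a, ha0, haK, hB1, hB2, hB3⟩ := hthue p v (P v) (mono d3 hp) o ho h1
      refine ⟨B, fun q hq _ _ => ?_⟩
      have hpq : p = q := prime_unique hp.prime hq.prime hp.mem hq.mem
      subst hpq
      exact {
        int := fun θ hθ hm => (hB1 θ hθ hm).1
        ne := fun θ hθ hm => (hB1 θ hθ hm).2.1
        small := fun θ hθ hm => (hB1 θ hθ hm).2.2.1
        norm := ⟨a, ha0, haK, fun θ hθ hm => (hB1 θ hθ hm).2.2.2⟩
        unit := fun p' v' P' h' => hB2 p' v' P' (mono d3 h')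
        above := fun a' ha' P' h' => hB3 a' ha' P' (mono d3 h') }
    · exact ⟨0, fun p hp ho hFo => absurd ⟨p, hp, ho, hFo⟩ hex⟩
  choose B hB using hB
  let X : Ctx k L f := {
    M := M
    K := K
    P := P
    F := Fr
    B := B
    sepf := hsep
    splits := hsplit
    hM := hM0
    two := d2
    hK := hK
    int := hint
    sep := fun p v P h => (hroots M p v P d4 h).2
    lead := fun p v hp hpM hpv => hlead p v hp (fun h => hpM (h.trans d5)) hpv _
      (Finset.mem_singleton_self _)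
    unif := fun p v hp hpM hpv z hz => exists_zpow k hp hpv (fun h => hpM (h.trans d6)) hz
    unifL := fun p P hp hpM hpP z hz => exists_zpow L hp hpP (fun h => hpM (h.trans d7)) hz
    comap := hP
    stab := hst
    frob := hfr
    thue := fun p v h o ho hFo => hB v o p h ho hFo }
  refine ⟨X, d1, ?_, finite_bad k hM0⟩
  obtain ⟨r, hr⟩ := Splits.exists_eval_eq_zero hsplit (by
    rw [degree_map]
    intro h
    have := natDegree_eq_of_degree_eq_some (n := 0) (by simpa using h)
    omega)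
  have hr' : r ∈ X.Ω := by
    rw [X.mem_Ω, mem_rootSet_of_ne hf, aeval_def, ← eval_map]
    exact hr
  show 0 < (X.Ω.image (minpoly k)).card
  exact Finset.card_pos.2 ⟨_, Finset.mem_image_of_mem _ hr'⟩

end Pool.Agent.ML
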