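import Pool.Agent.Helper13.ML.GB
import Pool.Agent.Helper13.ML.G4P
import Pool.Agent.Helper13.MP.Fin2
import Pool.Agent.Helper79.LN.LOC

/-!
# Project ML, relative form: the lower bound
-/

set_option autoImplicit false
set_option linter.unusedSectionVars false

namespace Pool.Agent.ML

open VC IntermediateField NumberField IsDedekindDomain Pool.Agent.SC
open Pool.Agent.L (Inert L0 MM SamePlace OverV tO tA)
open Pool.Agent.LN (Geo Act HasSec GoodCurve IsRam DecPt)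
open Pool.Agent.M (UR NN Moves OverPl inL0 lt_iff13 eq_iff13 eq_iffk13 exists_res13 exists_lift13)
open Pool.Agent.HG (Pr nm Ctx Gd)
open Pool.Agent.MP (kap kap_eq kap_pos kap_le Spl fx_of_spl)

/-- `x (log x) ^ a` at `Y / D` -/
theorem scale_low (D : ℕ) (hD : 0 < D) (a : ℝ) : ∃ c₁ : ℝ, 0 < c₁ ∧ ∀ Y : ℕ, 3 * D ≤ Y →
    3 ≤ Y / D ∧ c₁ * (Y * Real.log Y ^ a) ≤ ((Y / D : ℕ) : ℝ) * Real.log ((Y / D : ℕ) : ℝ) ^ a := by
  have hD' : (0 : ℝ) < D := by exact_mod_cast hD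
  have hD1 : (1 : ℝ) ≤ D := by exact_mod_cast hD
  obtain ⟨q, hq⟩ : ∃ q : ℝ, q = 1 + Real.log (2 * D) := ⟨_, rfl⟩
  have hq1 : 1 ≤ q := by
    rw [hq]
    have : 0 ≤ Real.log (2 * D) := Real.log_nonneg (by linarith)
    linarith
  have hq0 : 0 < q := by linarith
  obtain ⟨m, hm⟩ : ∃ m : ℝ, m = min 1 (q ^ (-a)) := ⟨_, rfl⟩
  have hm0 : 0 < m := by
    rw [hm]
    exact lt_min one_pos (Real.rpow_pos_of_pos hq0 _)
  refine ⟨m / (2 * D), by positivity, fun Y hY => ?_⟩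
  have hY3 : 3 ≤ Y / D := by
    rw [Nat.le_div_iff_mul_le hD]
    exact hY
  refine ⟨hY3, ?_⟩
  have hYD : (Y : ℝ) ≤ 2 * D * ((Y / D : ℕ) : ℝ) := by
    have h1 : Y < D * (Y / D) + D := by
      have := Nat.div_add_mod Y D
      have := Nat.mod_lt Y hD
      omega
    have h2 : D ≤ D * (Y / D) := by
      calc D = D * 1 := (mul_one D).symm
        _ ≤ D * (Y / D) := Nat.mul_le_mul_left D (by omega)
    have h3 : Y ≤ 2 * D * (Y / D) := by
      have : 2 * D * (Y / D) = D * (Y / D) + D * (Y / D) := by ring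
      omega
    exact_mod_cast h3
  have hy3 : (3 : ℝ) ≤ ((Y / D : ℕ) : ℝ) := by exact_mod_cast hY3
  obtain ⟨y, hy⟩ : ∃ y : ℝ, y = ((Y / D : ℕ) : ℝ) := ⟨_, rfl⟩
  rw [← hy] at hYD hy3 ⊢
  have hyY : y ≤ Y := by
    rw [hy]
    exact_mod_cast Nat.div_le_self Y D
  have hY0 : (0 : ℝ) < Y := by linarith
  have hlog3 : 1 ≤ Real.log y := by
    rw [← Real.log_exp 1]
    refine Real.log_le_log (Real.exp_pos 1) ?_
    exact Real.exp_one_lt_d9.le.trans (by linarith)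
  have hlogle : Real.log y ≤ Real.log Y := Real.log_le_log (by linarith) hyY
  have hlogY : Real.log Y ≤ q * Real.log y := by
    have h1 : Real.log Y ≤ Real.log (2 * D * y) := Real.log_le_log hY0 hYD
    rw [Real.log_mul (by positivity) (by linarith)] at h1
    have h2 : 0 ≤ Real.log (2 * D) := Real.log_nonneg (by linarith)
    rw [hq]
    nlinarith
  have hpow : m * Real.log Y ^ a ≤ Real.log y ^ a := by
    have hlY0 : 0 < Real.log Y := by linarith
    have hpos : 0 ≤ Real.log Y ^ a := Real.rpow_nonneg hlY0.le _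
    rcases le_total a 0 with ha | ha
    · calc m * Real.log Y ^ a ≤ 1 * Real.log Y ^ a := by
            refine mul_le_mul_of_nonneg_right ?_ hpos
            rw [hm]
            exact min_le_left _ _
        _ = Real.log Y ^ a := one_mul _
        _ ≤ Real.log y ^ a := Real.rpow_le_rpow_of_nonpos (by linarith) hlogle ha
    · have h1 : Real.log Y ^ a ≤ (q * Real.log y) ^ a := Real.rpow_le_rpow hlY0.le hlogY ha
      calc m * Real.log Y ^ a ≤ q ^ (-a) * Real.log Y ^ a := by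
            refine mul_le_mul_of_nonneg_right ?_ hpos
            rw [hm]
            exact min_le_right _ _
        _ ≤ q ^ (-a) * (q * Real.log y) ^ a :=
            mul_le_mul_of_nonneg_left h1 (Real.rpow_nonneg hq0.le _)
        _ = Real.log y ^ a := by
            rw [Real.mul_rpow hq0.le (by linarith), ← mul_assoc, ← Real.rpow_add hq0,
              neg_add_cancel, Real.rpow_zero, one_mul]
  have hpos : 0 ≤ Real.log Y ^ a := Real.rpow_nonneg (by linarith) _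
  calc m / (2 * D) * (Y * Real.log Y ^ a) ≤ m / (2 * D) * (2 * D * y * Real.log Y ^ a) := by
        refine mul_le_mul_of_nonneg_left ?_ (by positivity)
        exact mul_le_mul_of_nonneg_right hYD hpos
    _ = y * (m * Real.log Y ^ a) := by field_simp
    _ ≤ y * Real.log y ^ a := mul_le_mul_of_nonneg_left hpow (by linarith)

open scoped Classical in
/-- the lower bound for the twists which are soluble at the primes dividing them -/
theorem lowerR (hLFT : StmtLFT) (hW3 : M.StmtW3) (hMert : HG.StmtMert) (hThue : HG.StmtThue)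
    (hG4 : StmtG4P) (hDK : MP.StmtDK) (hPIT : MP.StmtPIT) (hLOWK : StmtLOWK) (hLOWC : StmtLOWC)
    {k K0 E U : Type} [Field k] [NumberField k]
    [Field K0] [Field E] [Field U] [Algebra k K0]
    [Algebra k E] [Algebra E U] [Algebra K0 U] [Algebra k U] [IsScalarTower k E U]
    [IsScalarTower k K0 U] {ℓ : ℕ} (hℓ : ℓ.Prime) {h : K0} {r : U} (G : Geo k K0 E U ℓ h r)
    {f : Polynomial k} {θ : Place E (L0 E K0 (U := U)) → E} (Gl' : GlE ℓ ℓ h r f θ)
    (hdeg : 2 ≤ f.natDegree) {c₁ : k} {Φ₁ : (E ≃ₐ[k] E) →* (U ≃+* U)} (hc₁ : c₁ ≠ 0)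
    (hA₁ : Act (K0 := K0) ℓ r c₁ Φ₁) (e : E ≃ₐ[k] AlgebraicClosure k)
    (γ : {b : Place E (L0 E K0 (U := U)) // BPl ℓ h b} ≃ GBr k E ℓ h)
    (hγ : ∀ (g : E ≃ₐ[k] E) (b b' : {b : Place E (L0 E K0 (U := U)) // BPl ℓ h b}),
      Moves (Φ₁ g) _ b.1 b'.1 ↔ (γ b).map g = γ b')
    {Sg : Set (Pr k)} (hSg : Sg.Finite) {W : Subgroup kˣ} (hW : W.FiniteIndex) {c₀ : kˣ}
    (hc₀ : ∀ v ∉ Sg, IsRam ℓ v (c₀ : k) → FrobFix k ℓ h v) :
    ∃ (δ : ℝ) (X₀ : ℕ), 0 < δ ∧ ∀ X : ℕ, X₀ ≤ X → ∃ T : Finset kˣ,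
      (∀ c ∈ T, ∀ c' ∈ T, (∃ d : k, (c : k) = c' * d ^ ℓ) → c = c') ∧
      (∀ c ∈ T, LN.cond ℓ (c : k) ≤ X ∧ c₀⁻¹ * c ∈ W ∧
        ∀ v ∉ Sg, IsRam ℓ v (c : k) → FrobFix k ℓ h v) ∧
      δ * (X * Real.log X ^ (((ℓ - 1 : ℕ) : ℝ) * kap f - 1)) ≤ T.card := by
  have hclE : IsAlgClosed E := G.clE
  have halg : Algebra.IsAlgebraic k E := G.algE
  have hcE : CharZero E := charZero_of_injective_algebraMap (algebraMap k E).injective
  have hNF : NumberField f.SplittingField := NumberField.of_module_finite k f.SplittingField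
  have hGal : IsGalois k f.SplittingField := IsGalois.of_separable_splitting_field Gl'.sep
  have hsplit : (f.map (algebraMap k f.SplittingField)).Splits := Polynomial.SplittingField.splits f
  let ι : f.SplittingField →ₐ[k] E := IsAlgClosed.lift
  obtain ⟨M₂, hM₂, hlft⟩ := hLFT k f.SplittingField E ι
  obtain ⟨X, hMX, hm, hfin⟩ := hG4 hThue k f.SplittingField f Gl'.sep hsplit (by omega) M₂ hM₂
  obtain ⟨B, hB⟩ := Pool.Agent.HG.exists_B5 k
  -- the roots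
  have hΩ : X.Ω.Nonempty := by
    by_contra hcon
    rw [Finset.not_nonempty_iff_eq_empty] at hcon
    obtain ⟨x, hx⟩ := IsAlgClosed.exists_aeval_eq_zero E f (by
      intro h0
      have := Polynomial.natDegree_eq_zero_iff_degree_le_zero.2 h0.le
      omega)
    obtain ⟨b, hb, _⟩ := Gl'.ex x hx
    obtain ⟨y, hy, _⟩ := exists_root Gl' ι hsplit hb
    have h1 := (X.mem_Ω y).2 hy
    rw [hcon] at h1
    exact Finset.notMem_empty y h1
  -- the primes modulo which there is a root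
  have hQF : ∀ v : Pr k, Gd X.M v → (X.Fx v).Nonempty → FrobFix k ℓ h v := by
    intro v hv ⟨x, hx⟩
    obtain ⟨hxΩ, hxF⟩ := Finset.mem_filter.1 hx
    obtain ⟨O, F, p, n, hD, _, hF⟩ := hlft f X hMX v hv
    obtain ⟨b, hb, hbx⟩ := exists_place Gl' ι ((X.mem_Ω x).1 hxΩ)
    have h1 : F (θ b) = θ b := by rw [hbx, hF, hxF]
    have h2 := (Gl'.act c₁ Φ₁ hc₁ hA₁ F b b hb hb).2 h1
    have h3 := (hγ F ⟨b, hb⟩ ⟨b, hb⟩).1 h2
    refine ⟨tO e O, tA e F, p, n, LN.decPt_t e hD, trE e (γ ⟨b, hb⟩), ?_⟩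
    rw [← trE_map, h3]
  obtain ⟨⟨C, hC⟩, _⟩ := hDK hW3 k f.SplittingField f X (by omega) B hB
  rw [kap_eq X] at hC
  obtain ⟨Bad, D, N, hBad, hD, hN, hST⟩ := hLOWC k ℓ hℓ.two_le W hW {v | FrobFix k ℓ h v} Sg hSg
    c₀ hc₀
  have hw : 1 ≤ ℓ - 1 := by
    have := hℓ.two_le
    omega
  obtain ⟨δ, hδ, hlow⟩ := hLOWK hPIT hMert k f.SplittingField (ℓ - 1) hw
    ({v : Pr k | ¬ Gd X.M v} ∪ Bad)
    {v | (X.Fx v).Nonempty} (kap f) C (hfin.union hBad) (kap_pos (by omega)) kap_le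
    (fun v hv hs => by
      rw [Set.mem_union, not_or] at hv
      exact fx_of_spl X hΩ (not_not.1 hv.1) hs) B hB (fun x hx => by convert hC x hx; exact Iff.rfl)
  have hN' : (0 : ℝ) < N := by exact_mod_cast hN
  obtain ⟨c₂, hc₂, hscale⟩ := scale_low D hD (((ℓ - 1 : ℕ) : ℝ) * kap f - 1)
  refine ⟨δ * c₂ / N, 3 * D, by positivity, fun Y hY => ?_⟩
  -- the bound for the sets
  obtain ⟨hY3, hYs⟩ := hscale Y hY
  obtain ⟨S, hS, hcard⟩ := hlow (Y / D) hY3
  obtain ⟨T, hT1, hT2, hT3⟩ := hST (Y / D) S fun s hs => by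
    refine ⟨(hS s hs).1, fun v hv => ?_⟩
    obtain ⟨h1, h2⟩ := (hS s hs).2 v hv
    rw [Set.mem_union, not_or] at h2
    exact ⟨hQF v (not_not.1 h2.1) h1, h2.2⟩
  refine ⟨T, hT1, fun c hc => ⟨(hT2 c hc).1.trans (Nat.mul_div_le Y D), (hT2 c hc).2⟩, ?_⟩
  have h5 : ∑ s ∈ S, ((ℓ - 1 : ℕ) : ℝ) ^ s.card ≤ N * T.card := by exact_mod_cast hT3
  calc δ * c₂ / N * (Y * Real.log Y ^ (((ℓ - 1 : ℕ) : ℝ) * kap f - 1))
      = δ * (c₂ * (Y * Real.log Y ^ (((ℓ - 1 : ℕ) : ℝ) * kap f - 1))) / N := by ring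
    _ ≤ δ * (((Y / D : ℕ) : ℝ) * Real.log ((Y / D : ℕ) : ℝ) ^
          (((ℓ - 1 : ℕ) : ℝ) * kap f - 1)) / N := by
        refine div_le_div_of_nonneg_right ?_ hN'.le
        exact mul_le_mul_of_nonneg_left hYs hδ.le
    _ = δ * ((Y / D : ℕ) : ℝ) * Real.log ((Y / D : ℕ) : ℝ) ^
          (((ℓ - 1 : ℕ) : ℝ) * kap f - 1) / N := by ring
    _ ≤ (N * T.card) / N := div_le_div_of_nonneg_right (hcard.trans h5) hN'.le
    _ = T.card := by field_simp

end Pool.Agent.ML
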