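import Pool.Agent.Helper13.ML.FinR1
import Pool.Agent.Helper13.ML.FinR2
import Pool.Agent.Helper97.LN.Fin

/-!
# Project ML, relative form: the final theorem from the blocks
-/

set_option autoImplicit false
set_option linter.unusedSectionVars false

namespace Pool.Agent.ML

open VC IntermediateField NumberField IsDedekindDomain Pool.Agent.SC
open Pool.Agent.L (Inert L0 MM SamePlace OverV)
open Pool.Agent.LN (Geo Act HasSec GoodCurve IsRam DecPt)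
open Pool.Agent.M (UR NN Moves OverPl inL0 lt_iff13 eq_iff13 eq_iffk13 exists_res13 exists_lift13)
open Pool.Agent.HG (Pr nm Ctx Gd)
open Pool.Agent.MP (kap)

theorem clsU_finite {k : Type} [Field k] [NumberField k] {n : ℕ} (hn : 2 ≤ n) (P : kˣ → Prop)
    (X : ℕ) : (clsU n P X).Finite := by
  refine (LN.twists_finite (k := k) n hn X).subset fun C hC => ?_
  obtain ⟨c, h1, h2, -⟩ := hC
  exact ⟨c, h1, h2, trivial⟩

theorem clsU_le {k : Type} [Field k] [NumberField k] {n : ℕ} (hn : 2 ≤ n) (P : kˣ → Prop) (X : ℕ)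
    (b : ℝ) (h : ∀ T : Finset k, (∀ c ∈ T, ∀ c' ∈ T, (∃ d : k, c = c' * d ^ n) → c = c') →
      (∀ c ∈ T, ∃ c' : kˣ, (c' : k) = c ∧ LN.cond n c ≤ X ∧ P c') → (T.card : ℝ) ≤ b) :
    (Nat.card (clsU n P X) : ℝ) ≤ b := by
  classical
  have hfin := clsU_finite hn P X
  have hch : ∀ C : LN.Cls k n, ∃ c : kˣ, C ∈ clsU n P X →
      (c : LN.Cls k n) = C ∧ LN.cond n (c : k) ≤ X ∧ P c := by
    intro C
    by_cases hC : C ∈ clsU n P X
    · obtain ⟨c, hc⟩ := hC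
      exact ⟨c, fun _ => hc⟩
    · exact ⟨1, fun h => absurd h hC⟩
  choose r hr using hch
  have hinj : ∀ C ∈ clsU n P X, ∀ C' ∈ clsU n P X,
      (∃ d : k, (r C : k) = (r C' : k) * d ^ n) → C = C' := by
    intro C hC C' hC' hd
    rw [← (hr C hC).1, ← (hr C' hC').1]
    exact (LN.cls_eq_iff (by omega)).2 hd
  have h1 := h (hfin.toFinset.image fun C => (r C : k)) (by
    intro c hc c' hc' hd
    obtain ⟨C, hC, rfl⟩ := Finset.mem_image.1 hc
    obtain ⟨C', hC', rfl⟩ := Finset.mem_image.1 hc'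
    rw [hinj C (hfin.mem_toFinset.1 hC) C' (hfin.mem_toFinset.1 hC') hd]) (by
    intro c hc
    obtain ⟨C, hC, rfl⟩ := Finset.mem_image.1 hc
    exact ⟨r C, rfl, (hr C (hfin.mem_toFinset.1 hC)).2⟩)
  rw [Finset.card_image_of_injOn] at h1
  · have h2 : Nat.card (clsU n P X) = hfin.toFinset.card := Nat.card_eq_card_finite_toFinset hfin
    rw [h2]
    exact h1
  · intro C hC C' hC' h
    exact hinj C (hfin.mem_toFinset.1 hC) C' (hfin.mem_toFinset.1 hC')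
      ⟨1, by rw [one_pow, mul_one]; exact h⟩

theorem le_clsU {k : Type} [Field k] [NumberField k] {n : ℕ} (hn : 2 ≤ n) (P : kˣ → Prop) (X : ℕ)
    (T : Finset kˣ) (h1 : ∀ c ∈ T, ∀ c' ∈ T, (∃ d : k, (c : k) = c' * d ^ n) → c = c')
    (h2 : ∀ c ∈ T, LN.cond n (c : k) ≤ X ∧ P c) : T.card ≤ Nat.card (clsU n P X) := by
  classical
  have hfin := clsU_finite hn P X
  have h3 : Nat.card (clsU n P X) = hfin.toFinset.card := Nat.card_eq_card_finite_toFinset hfin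
  rw [h3, ← Finset.card_image_of_injOn (f := fun c : kˣ => (c : LN.Cls k n)) (s := T)]
  · refine Finset.card_le_card fun C hC => ?_
    obtain ⟨c, hc, rfl⟩ := Finset.mem_image.1 hC
    exact hfin.mem_toFinset.2 ⟨c, rfl, h2 c hc⟩
  · intro c hc c' hc' h
    exact h1 c hc c' hc' ((LN.cls_eq_iff (by omega)).1 h)

/-- The final theorem from the blocks. -/
theorem finR_of (hTR : LN.StmtTR) (hLOC : LN.StmtLOC) (hNR : StmtNR) (hFB : M.StmtFB)
    (hFIN : StmtFIN) (hZ : StmtZ) (hINT : StmtINT) (hLFT : StmtLFT) (hMU : StmtMU)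
    (hQMD : StmtQMD) (hW3 : M.StmtW3) (hSel : StmtSel) (hMert : HG.StmtMert)
    (hSplit : HG.StmtSplit) (hBTL : StmtBTL)
    (hThue : HG.StmtThue) (hG4 : StmtG4P) (hG1 : StmtG1) (hG2 : StmtG2)
    (hCount : Pool.Agent.Helper99.ML.StmtCountL) (hCLL : StmtCLL) (hBIJ : StmtBIJ)
    (hDK : MP.StmtDK) (hG3R : StmtG3R) (hPIT : MP.StmtPIT) (hLOWK : StmtLOWK)
    (hLOWC : StmtLOWC) : StmtFinR := by
  intro k K0 _ _ _ _ ℓ h hℓ hmu hG hHL
  obtain ⟨Bad, hBad, hloc⟩ := hLOC k K0 ℓ h hℓ.two_le hG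
  have hloc' : ∀ c : k, c ≠ 0 → HasSec ℓ h c → ∀ v ∉ Bad, IsRam ℓ v c → FrobFix k ℓ h v := by
    intro c hc hs v hv hodd
    obtain ⟨O, F, p, f, hD, P, φ, h1, h2, h3, h4⟩ := hloc v hv c hc hodd hs
    refine ⟨O, F, p, f, hD, ⟨P, φ, h1, h2, h3⟩, ?_⟩
    have h5 : (F : AlgebraicClosure k →+* AlgebraicClosure k).comp φ = φ := RingHom.ext h4
    change (⟨P, (F : AlgebraicClosure k →+* AlgebraicClosure k).comp φ, _, _, _⟩ :
      GBr k (AlgebraicClosure k) ℓ h) = ⟨P, φ, _, _, _⟩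
    congr 1
  obtain ⟨E, U, _, _, _, _, _, _, _, _, r, G, hact⟩ := hTR k K0 ℓ h hℓ.two_le hG
  by_cases hex : ∃ (c₁ : k) (Φ₁ : (E ≃ₐ[k] E) →* (U ≃+* U)), c₁ ≠ 0 ∧ Act (K0 := K0) ℓ r c₁ Φ₁
  swap
  · -- no twist has a section
    refine ⟨Bad, 1, hBad, one_pos, hloc', fun Sg hSg hSub W hW c₀ hc₀ => ⟨1, one_pos,
      fun X hX => ?_⟩⟩
    have h0 : (Nat.card (clsU ℓ (fun c : kˣ => c₀⁻¹ * c ∈ W ∧ HasSec ℓ h (c : k)) X) : ℝ) ≤ 0 := by
      refine clsU_le hℓ.two_le _ X 0 fun T _ hT => ?_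
      have hT0 : T = ∅ := by
        rw [Finset.eq_empty_iff_forall_notMem]
        intro c hc
        obtain ⟨c', rfl, -, -, hs⟩ := hT c hc
        obtain ⟨Φ, hΦ⟩ := hact _ c'.ne_zero hs
        exact hex ⟨_, Φ, c'.ne_zero, hΦ⟩
      rw [hT0, Finset.card_empty, Nat.cast_zero]
    refine h0.trans ?_
    have hlog : 0 ≤ Real.log X := Real.log_natCast_nonneg X
    positivity
  obtain ⟨c₁, Φ₁, hc₁, hA₁⟩ := hex
  have hclE : IsAlgClosed E := G.clE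
  have halg : Algebra.IsAlgebraic k E := G.algE
  have hcl : IsAlgClosure k E := ⟨hclE, halg⟩
  let e : E ≃ₐ[k] AlgebraicClosure k := IsAlgClosure.equiv k E (AlgebraicClosure k)
  obtain ⟨f, θ, Gl'⟩ := exists_glE hNR hFB hℓ.pos hℓ dvd_rfl hmu G (noTot_of_HL hℓ hHL) hc₁ hA₁
  obtain ⟨β, hβ, hβ'⟩ := hBIJ k K0 E U ℓ h r hℓ.two_le G c₁ Φ₁ hc₁ hA₁
  obtain ⟨γ, hγ⟩ := exists_gbr hℓ β hβ hβ'
  have hroots := fun (L : Type) [Field L] [NumberField L] [Algebra k L] [IsGalois k L]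
    (hs : (f.map (algebraMap k L)).Splits) =>
    hl_roots (L := L) Gl' hc₁ hA₁ (IsAlgClosed.lift : L →ₐ[k] E) hs γ hγ (hl_E e hHL)
  have hNF : NumberField f.SplittingField := NumberField.of_module_finite k f.SplittingField
  have hGal : IsGalois k f.SplittingField := IsGalois.of_separable_splitting_field Gl'.sep
  have hdeg : 2 ≤ f.natDegree :=
    (hroots f.SplittingField (Polynomial.SplittingField.splits f)).2
  obtain ⟨η, C, hη, hC, hup⟩ := upperR hFIN hZ hINT hLFT hMU hQMD hW3 hSel hMert hSplit hBTL hThue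
    hG4 hG1 hG2 hCount hCLL hDK hG3R hℓ hmu G Gl' hdeg (fun L _ _ _ _ hs => (hroots L hs).1)
  refine ⟨Bad, η, hBad, hη, hloc', fun Sg hSg hSub W hW c₀ hc₀ => ?_⟩
  obtain ⟨δ, X₀, hδ, hlow⟩ := lowerR hLFT hW3 hMert hThue hG4 hDK hPIT hLOWK hLOWC hℓ G Gl' hdeg
    hc₁ hA₁ e γ hγ hSg hW hc₀
  obtain ⟨a, ha⟩ : ∃ a : ℝ, a = ((ℓ - 1 : ℕ) : ℝ) * kap f - 1 := ⟨_, rfl⟩
  rw [← ha] at hup hlow
  have hlX0 : 0 ≤ Real.log ((X₀ : ℕ) : ℝ) := Real.log_natCast_nonneg X₀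
  refine ⟨C / δ + Real.log X₀ ^ η, by positivity, fun X hX => ?_⟩
  have hlog : 0 < Real.log X := Real.log_pos (by
    have h1 : (3 : ℝ) ≤ X := by exact_mod_cast hX
    linarith)
  have hlη : 0 < Real.log X ^ η := Real.rpow_pos_of_pos hlog η
  obtain ⟨NL, hNL⟩ : ∃ n : ℝ, n = Nat.card (clsU ℓ (fun c : kˣ => c₀⁻¹ * c ∈ W ∧
            ∀ v ∉ Sg, IsRam ℓ v (c : k) → FrobFix k ℓ h v) X) := ⟨_, rfl⟩
  have hNL0 : 0 ≤ NL := by rw [hNL]; exact Nat.cast_nonneg _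
  rw [← hNL]
  rw [le_div_iff₀ hlη, add_mul]
  rcases le_or_gt X₀ X with hXX | hXX
  · -- large `X`
    obtain ⟨T, hT1, hT2, hT3⟩ := hlow X hXX
    have h1 := le_clsU hℓ.two_le (fun c : kˣ => c₀⁻¹ * c ∈ W ∧
      ∀ v ∉ Sg, IsRam ℓ v (c : k) → FrobFix k ℓ h v) X T hT1 hT2
    have h2 : (T.card : ℝ) ≤ NL := by
      rw [hNL]
      exact_mod_cast h1
    have h3 : (Nat.card (clsU ℓ (fun c : kˣ => c₀⁻¹ * c ∈ W ∧ HasSec ℓ h (c : k)) X) : ℝ) ≤
        C * (X * Real.log X ^ a) / Real.log X ^ η := by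
      refine clsU_le hℓ.two_le _ X _ fun T hT1 hT2 => ?_
      refine hup X hX T hT1 fun c hc => ?_
      obtain ⟨c', rfl, h4, -, h5⟩ := hT2 c hc
      exact ⟨c'.ne_zero, h4, hact _ c'.ne_zero h5⟩
    rw [le_div_iff₀ hlη] at h3
    have h4 : C * (X * Real.log X ^ a) ≤ C / δ * NL := by
      calc C * (X * Real.log X ^ a) = C / δ * (δ * (X * Real.log X ^ a)) := by field_simp
        _ ≤ C / δ * NL := mul_le_mul_of_nonneg_left (hT3.trans h2) (by positivity)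
    have h5 : 0 ≤ Real.log X₀ ^ η * NL := by positivity
    linarith
  · -- small `X`
    have h1 : (Nat.card (clsU ℓ (fun c : kˣ => c₀⁻¹ * c ∈ W ∧ HasSec ℓ h (c : k)) X) : ℝ) ≤
        NL := by
      rw [hNL]
      have h2 : clsU ℓ (fun c : kˣ => c₀⁻¹ * c ∈ W ∧ HasSec ℓ h (c : k)) X ⊆
          clsU ℓ (fun c : kˣ => c₀⁻¹ * c ∈ W ∧
            ∀ v ∉ Sg, IsRam ℓ v (c : k) → FrobFix k ℓ h v) X := by
        rintro _ ⟨c, rfl, h3, h4, h5⟩
        exact ⟨c, rfl, h3, h4, fun v hv => hloc' _ c.ne_zero h5 v fun h6 => hv (hSub h6)⟩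
      exact_mod_cast Nat.card_mono (clsU_finite hℓ.two_le _ X) h2
    have h3 : Real.log X ^ η ≤ Real.log X₀ ^ η := by
      refine Real.rpow_le_rpow hlog.le ?_ hη.le
      refine Real.log_le_log (by
        have h1 : (3 : ℝ) ≤ X := by exact_mod_cast hX
        linarith) ?_
      exact_mod_cast hXX.le
    have h4 : (Nat.card (clsU ℓ (fun c : kˣ => c₀⁻¹ * c ∈ W ∧ HasSec ℓ h (c : k)) X) : ℝ) *
        Real.log X ^ η ≤ Real.log X₀ ^ η * NL := by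
      rw [mul_comm]
      exact mul_le_mul h3 h1 (Nat.cast_nonneg _) (Real.rpow_nonneg hlX0 η)
    have h5 : 0 ≤ C / δ * NL := by positivity
    linarith

end Pool.Agent.ML
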