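import Pool.Agent.Helper13.HG2.Defs
import Pool.Agent.Helper99.MP.DefsL
import Mathlib.RingTheory.RootsOfUnity.PrimitiveRoots

/-!
# Project ML (MP_e66f84_ag): cyclic covers of degree `n`, the counting side

`k` number field, `n ≥ 2`, `ℓ` a prime divisor of `n`, `k` contains the `ℓ`-th roots of unity.  The
roots of `f` are the branch points `b` with `ℓ ∤ ord_b h`.  The primes of the counting problem are the
pairs `(v, e)`, `e = v(c)` modulo `n`, `ℓ ∤ e`; `Al e θ`: the root `θ` is possible for the label `e`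
(`gcd(n, ord_θ h) ∣ e`); `w θ e`: the valuation modulo `ℓ` of the numbers `D θ θ'` at a prime with
label `e` and root `θ` (`w * ord_θ h = -e` modulo `ℓ`).  Block statements.
-/

set_option autoImplicit false

namespace Pool.Agent.ML

open Polynomial NumberField IsDedekindDomain
open Pool.Agent.HG (Pr nm Ctx Gd Over StmtMert StmtSplit StmtDer)
open Pool.Agent.Helper99.HG (CD pf Nm Bad)
open Pool.Agent.MP (SysR TAR)
open Pool.Agent.Helper99.ML (BTb WJb TBRb)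
open scoped IntermediateField

noncomputable section

/-- the valuation of `z` at `P` (unramified over the prime number `p`) is `e` modulo `N` -/
def Vz {L : Type} [Field L] [NumberField L] (P : Pr L) (p N : ℕ) (e : ℤ) (z : L) : Prop :=
  ∃ a : ℤ, P.valuation L (z * (p : L) ^ ((N : ℤ) * a - e)) = 1

/-- the valuation of `c` at `v` is `e` modulo `n` -/
def Lab {k : Type} [Field k] [NumberField k] (n : ℕ) (v : Pr k) (e : ℕ) (c : k) : Prop :=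
  ∃ d : k, v.valuation k c = WithZero.exp (-(e : ℤ)) * v.valuation k d ^ n

open scoped Classical in
/-- the `ℓ`-th power residue symbol in the field with `q` elements -/
def sym (k : Type) {L : Type} [Field k] [Field L] [NumberField L] [Algebra k L] (ℓ : ℕ) (P : Pr L)
    (q : ℕ) (z : L) : rootsOfUnity ℓ k :=
  if h : ∃ ζ : rootsOfUnity ℓ k,
    P.valuation L (z ^ ((q - 1) / ℓ) - algebraMap k L ((ζ : kˣ) : k)) < 1 then h.choose else 1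

/-- the symbol in the field with `(nm v) ^ m` elements -/
def chl {k L : Type} [Field k] [NumberField k] [Field L] [NumberField L] [Algebra k L]
    [IsGalois k L] {f : k[X]} (X : Ctx k L f) (ℓ : ℕ) (v : Pr k) (m : ℕ) (z : L) :
    rootsOfUnity ℓ k :=
  sym k ℓ (X.P v) (nm v ^ m) z

/-- The sets of labels in which every prime has one label. -/
def OkL {k : Type} [Field k] [NumberField k] {n : ℕ} (S : Finset (Pr k × Fin n)) : Prop :=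
  Set.InjOn Prod.fst (S : Set (Pr k × Fin n))

open scoped Classical in
/-- The counting problem. -/
def cdL {k L : Type} [Field k] [NumberField k] [Field L] [NumberField L] [Algebra k L]
    [IsGalois k L] {f : k[X]} (X : Ctx k L f) (n ℓ : ℕ) [NeZero ℓ] (hm : 0 < X.m)
    (hfin : {v : Pr k | ¬ Gd X.M v}.Finite) (ι : Type) (Vι : Pr k → L → Finset ι)
    (Al : Fin n → L → Prop) (w : L → Fin n → ℕ)
    (g : Pr k × Fin n → (Σ _ : L × rootsOfUnity ℓ k, ι) → L → rootsOfUnity ℓ k) :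
    CD X.m (rootsOfUnity ℓ k) where
  P := Pr k × Fin n
  nm := fun p => nm p.1
  Ex := hfin.toFinset ×ˢ Finset.univ
  O := Σ _ : L × rootsOfUnity ℓ k, ι
  ι := L
  V := fun p => (((X.Fx p.1).filter fun θ => Al p.2 θ) ×ˢ
    (Set.toFinite (Set.univ : Set (rootsOfUnity ℓ k))).toFinset).sigma fun o => Vι p.1 o.1
  cmp := fun o => X.cmp hm o.1.1
  I := fun p o j => ((X.R p.1).filter fun ρ => X.cmp hm ρ = j).erase o.1.1
  χ := fun p ρ q o => chl X ℓ p.1 (X.len p.1 ρ) (aeval ρ (X.B q.1 o.1.1)) ^ w o.1.1 q.2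
  g := g

/-- BLOCK SEL: finiteness of the Selmer group modulo `ℓ`-th powers. -/
def StmtSel : Prop :=
  ∀ ℓ : ℕ, ℓ.Prime → ∀ (k L : Type) [Field k] [NumberField k] [Field L] [NumberField L]
    [Algebra k L] (E : IntermediateField k L) (M : ℕ), M ≠ 0 →
    ∃ F : Finset L, (∀ e ∈ F, e ∈ E ∧ e ≠ 0) ∧ ∀ z ∈ E, z ≠ 0 →
      (∀ (p : ℕ) (P : Pr L), p.Prime → ¬ p ∣ M → (p : 𝓞 L) ∈ P.asIdeal → Vz P p ℓ 0 z) →
      ∃ e ∈ F, ∃ d ∈ E, z = e * d ^ ℓ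

/-- BLOCK BTL: Brun-Titchmarsh in a number field, with prescribed `ℓ`-th power residue symbols. -/
def StmtBTL : Prop :=
  ∀ ℓ : ℕ, ℓ.Prime → ∀ (L : Type) [Field L] [NumberField L] (K : ℝ), 1 ≤ K → ∀ ε : ℝ, 0 < ε →
    ∃ (C : ℝ) (A h₀ : ℕ), 0 < C ∧ ∀ h : ℕ, h₀ ≤ h → ∀ MM : Finset (Pr L),
      (∀ q ∈ MM, ℓ ∣ nm q - 1) → (∏ q ∈ MM, nm q) ^ A ≤ h →
      ∀ η : ∀ q : Pr L, 𝓞 L ⧸ q.asIdeal, ∀ T : Finset (𝓞 L),
        (∀ x ∈ T, (∀ φ : L →+* ℂ, ‖φ x‖ ≤ K * (h : ℝ) ^ ((1 : ℝ) / Module.finrank ℚ L)) ∧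
          (∃ a r : ℕ, r.Prime ∧ h ≤ r ^ 2 ∧ a ≠ 0 ∧ (a : ℝ) ≤ K ∧
            Ideal.absNorm (Ideal.span {x}) = a * r) ∧
          ∀ q ∈ MM, x ∉ q.asIdeal ∧ Ideal.Quotient.mk q.asIdeal x ^ ((nm q - 1) / ℓ) = η q) →
        (T.card : ℝ) ≤ C * (1 / ℓ) ^ MM.card * (h / Real.log h ^ (1 - ε))

/-- The data of one number `c`: numbers `D θ θ'` for all pairs of roots, for every prime `v` with a
label a root `t v` fixed by the Frobenius element, the valuations modulo `ℓ` of the `D θ θ'`, and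
their symbols, given by the signs `sg`. -/
structure DatL {k L : Type} [Field k] [NumberField k] [Field L] [NumberField L] [Algebra k L]
    [IsGalois k L] {f : k[X]} (X : Ctx k L f) (n ℓ : ℕ) (c : k) (S : Finset (Pr k × Fin n))
    (w : L → Fin n → ℕ) (D : L → L → L) (t : Pr k → L)
    (sg : Pr k → ℕ → L → L → rootsOfUnity ℓ k) : Prop where
  hc : c ≠ 0
  hS : ∀ v e, (v, e) ∈ S ↔ Gd X.M v ∧ ¬ ℓ ∣ (e : ℕ) ∧ Lab n v (e : ℕ) c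
  ne : ∀ θ ∈ X.Ω, ∀ θ' ∈ X.Ω, θ ≠ θ' → D θ θ' ≠ 0
  equiv : ∀ σ : L ≃ₐ[k] L, ∀ θ ∈ X.Ω, ∀ θ' ∈ X.Ω, θ ≠ θ' → σ (D θ θ') = D (σ θ) (σ θ')
  t_mem : ∀ v e, (v, e) ∈ S → t v ∈ X.Ω
  t_fix : ∀ v e, (v, e) ∈ S → X.F v (t v) = t v
  good : ∀ (p : ℕ) (v : Pr k), p.Prime → ¬ p ∣ X.M → (p : 𝓞 k) ∈ v.asIdeal →
    (∀ e, (v, e) ∉ S) → ∀ θ ∈ X.Ω, ∀ θ' ∈ X.Ω, θ ≠ θ' → Vz (X.P v) p ℓ 0 (D θ θ')
  even : ∀ (p : ℕ) (v : Pr k), p.Prime → ¬ p ∣ X.M → (p : 𝓞 k) ∈ v.asIdeal → ∀ e, (v, e) ∈ S →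
    ∀ θ ∈ X.Ω, ∀ θ' ∈ X.Ω, θ ≠ θ' → θ ≠ t v → θ' ≠ t v → Vz (X.P v) p ℓ 0 (D θ θ')
  odd : ∀ (p : ℕ) (v : Pr k), p.Prime → ¬ p ∣ X.M → (p : 𝓞 k) ∈ v.asIdeal → ∀ e, (v, e) ∈ S →
    ∀ θ ∈ X.Ω, θ ≠ t v → Vz (X.P v) p ℓ (w (t v) e : ℤ) (D (t v) θ) ∧
      Vz (X.P v) p ℓ (-(w (t v) e : ℤ)) (D θ (t v))
  sign : ∀ (p : ℕ) (v : Pr k), p.Prime → ¬ p ∣ X.M → (p : 𝓞 k) ∈ v.asIdeal → ∀ e, (v, e) ∈ S →
    ∀ θ ∈ X.Ω, ∀ θ' ∈ X.Ω, θ ≠ θ' → θ ≠ t v → θ' ≠ t v → ∀ m : ℕ, 0 < m →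
    (X.F v ^ m) θ = θ → (X.F v ^ m) θ' = θ' → ∀ a : ℤ,
    (X.P v).valuation L (D θ θ' * (p : L) ^ ((ℓ : ℤ) * a)) = 1 →
    chl X ℓ v m (D θ θ' * (p : L) ^ ((ℓ : ℤ) * a)) = sg v m θ θ'

/-- BLOCK G1: the relations. -/
def StmtG1 : Prop :=
  StmtSel → ∀ (k L : Type) [Field k] [NumberField k] [Field L] [NumberField L] [Algebra k L]
    [IsGalois k L] (f : k[X]) (X : Ctx k L f) (n ℓ : ℕ) [NeZero ℓ], ℓ.Prime → ℓ ∣ n →
    (∃ ζ : k, IsPrimitiveRoot ζ ℓ) → ℓ ∣ X.M → 2 ≤ f.natDegree →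
    ∀ (hm : 0 < X.m) (hfin : {v : Pr k | ¬ Gd X.M v}.Finite) (ι : Type)
      (Vι : Pr k → L → Finset ι) (Al : Fin n → L → Prop) (w : L → Fin n → ℕ)
      (SG : Pr k → ι → ℕ → L → L → rootsOfUnity ℓ k),
    ∃ (H : Type) (_ : Finite H)
      (g : H → Pr k × Fin n → (Σ _ : L × rootsOfUnity ℓ k, ι) → L → rootsOfUnity ℓ k),
      ∀ (c : k) (S : Finset (Pr k × Fin n)) (D : L → L → L) (t : Pr k → L) (i : Pr k → ι),
      DatL X n ℓ c S w D t (fun v => SG v (i v)) →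
      (∀ v e, (v, e) ∈ S → i v ∈ Vι v (t v) ∧ Al e (t v)) →
      ∃ h : H, Bad (cdL X n ℓ hm hfin ι Vι Al w (g h)) S

/-- BLOCK G2: Brun-Titchmarsh for the counting problem. -/
def StmtG2 : Prop :=
  StmtBTL → StmtMert → ∀ (k L : Type) [Field k] [NumberField k] [Field L] [NumberField L]
    [Algebra k L] [IsGalois k L] (f : k[X]) (X : Ctx k L f) (n ℓ : ℕ) [NeZero ℓ], ℓ.Prime →
    (∃ ζ : k, IsPrimitiveRoot ζ ℓ) → ℓ ∣ X.M →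
    ∀ (hm : 0 < X.m) (hfin : {v : Pr k | ¬ Gd X.M v}.Finite) (ι : Type)
      (Vι : Pr k → L → Finset ι) (Al : Fin n → L → Prop) (w : L → Fin n → ℕ)
      (g : Pr k × Fin n → (Σ _ : L × rootsOfUnity ℓ k, ι) → L → rootsOfUnity ℓ k),
    (∀ e θ, Al e θ → ¬ ℓ ∣ w θ e) → BTb (cdL X n ℓ hm hfin ι Vι Al w g) (1 / ℓ) OkL

open scoped Classical in
/-- BLOCK G3: the weights, with multiplicities.  `Om`: the totally ramified points. -/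
def StmtG3 : Prop :=
  StmtMert → StmtSplit → StmtDer → ∀ (k L : Type) [Field k] [NumberField k] [Field L]
    [NumberField L] [Algebra k L] [IsGalois k L] (f : k[X]) (n ℓ : ℕ) [NeZero ℓ], ℓ.Prime →
    ℓ ∣ n → 2 ≤ n → (∃ ζ : k, IsPrimitiveRoot ζ ℓ) → ∀ (Al : Fin n → L → Prop) (Om : L → Prop),
    (∀ σ : L ≃ₐ[k] L, ∀ θ, Om θ → Om (σ θ)) → (∀ a : k, Om (algebraMap k L a) → eval a f ≠ 0) →
    (∃ e : Fin n, ¬ ℓ ∣ (e : ℕ) ∧ ∀ θ, Al e θ → Om θ) →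
    ∀ K : ℕ, ∃ ε : ℝ, 0 < ε ∧ ∀ (X : Ctx k L f) (hm : 0 < X.m)
      (hfin : {v : Pr k | ¬ Gd X.M v}.Finite) (ι : Type) (Vι : Pr k → L → Finset ι)
      (w : L → Fin n → ℕ)
      (g : Pr k × Fin n → (Σ _ : L × rootsOfUnity ℓ k, ι) → L → rootsOfUnity ℓ k),
      (∀ v t, (Vι v t).card ≤ K) →
      ∀ Q : Set (Pr k), (∀ v ∉ Q, Gd X.M v → ∀ t, (Vι v t).card ≤ 1) →
      ∀ B : ℕ → Finset (Pr k), (∀ x v, v ∈ B x ↔ nm v ≤ x) → ∀ δ C : ℝ, δ ≤ ε →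
      (∀ x : ℕ, 2 ≤ x → |∑ v ∈ (B x).filter (· ∈ Q), (1 : ℝ) / nm v -
        δ * Real.log (Real.log x)| ≤ C) →
      SysR (Pr k × Fin n) (fun p => nm p.1) {p | ¬ ℓ ∣ (p.2 : ℕ)} ((n - n / ℓ : ℕ) : ℝ) ∧
      (∃ K' : ℕ, ∀ p, ((cdL X n ℓ hm hfin ι Vι Al w g).V p).card ≤ K') ∧
      ∀ J : Finset (Fin X.m),
        TAR (cdL X n ℓ hm hfin ι Vι Al w g) {p : Pr k × Fin n | ¬ ℓ ∣ (p.2 : ℕ)} J ∨
        TBRb (cdL X n ℓ hm hfin ι Vι Al w g) (1 / ℓ) {p : Pr k × Fin n | ¬ ℓ ∣ (p.2 : ℕ)}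
          ((n - n / ℓ : ℕ) : ℝ) J

open scoped Classical in
/-- BLOCK CLL: the number of classes with the same labels is bounded. -/
def StmtCLL : Prop :=
  ∀ (k : Type) [Field k] [NumberField k] (n : ℕ), 2 ≤ n →
    ∃ F : ℕ, ∀ (T : Finset k) (S : k → Finset (Pr k × Fin n)),
      (∀ c ∈ T, ∀ c' ∈ T, (∃ d : k, c = c' * d ^ n) → c = c') →
      (∀ c ∈ T, c ≠ 0 ∧ ∀ v e, (v, e) ∈ S c ↔ (e : ℕ) ≠ 0 ∧ Lab n v (e : ℕ) c) →
      T.card ≤ F * (T.image S).card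

end

end Pool.Agent.ML
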