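import Pool.Agent.Helper13.ML.All
import Pool.Agent.Helper13.ML.FinR3
import Pool.Agent.Helper59.ML.BIJ
import Pool.Agent.Helper79.ML.G3R
import Pool.Agent.Helper79.MP.DK
import Pool.Agent.Helper90.ML.LowK
import Pool.Agent.Helper90.ML.LowC
import Pool.Agent.Helper28.MP.PIT

/-!
# Project ML, relative form: everything

**The final theorem.**  Let `k` be a number field which contains the `ℓ`-th roots of unity, `ℓ`
prime, and `y ^ ℓ = h` a cyclic cover of a curve over `k` with hypothesis `HL`.  Then almost all of
the twists `y ^ ℓ = c h` for which Frobenius elements at the primes `v` with `ℓ ∤ v(c)` fix branch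
points (the locally soluble twists), in every coset of a subgroup of finite index of `k*`, have no
Galois section.
-/

set_option autoImplicit false

namespace Pool.Agent.ML

theorem finR : StmtFinR := by
  have hLM : StmtLM := lm (Pool.Agent.L.stmtK2 Pool.Agent.L.stmtK1) Pool.Agent.LN.k3 k4M
    Pool.Agent.L.stmtAR
  have hFIN : StmtFIN := fin hLM M.fT hf Pool.Agent.LN.fr Pool.Agent.L.stmtAR
  have hINT : StmtINT := int hLM M.fT coc nR Pool.Agent.L.stmtAR
  have hQMD : StmtQMD := qMD (pI M.fT) w4 (qW M.fT (M.w1 M.fT)) w2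
  exact finR_of Pool.Agent.LN.tr Pool.Agent.LN.loc nR M.fb hFIN z hINT lft (mU M.fT) hQMD M.w3 sel
    Pool.Agent.Helper21.HG.mert Pool.Agent.Helper21.HG.split btl
    Pool.Agent.Helper88.HG.thue g4P g1 g2 Pool.Agent.Helper99.ML.countL cLL bIJ MP.dk g3R MP.pit
    lowK lowc

end Pool.Agent.ML
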