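import Pool.Agent.Helper13.ML.DefsC
import Pool.Agent.Helper13.HG.Pla
import Mathlib.RingTheory.Polynomial.Cyclotomic.Basic

/-!
# Power residue symbols at the chosen primes
-/

set_option autoImplicit false
set_option linter.unusedSectionVars false

namespace Pool.Agent.ML

open Polynomial NumberField IsDedekindDomain
open Pool.Agent.HG
open scoped Pointwise IntermediateField

section em

variable {k L : Type} [Field k] [Field L] [Algebra k L] {ℓ : ℕ}

/-- the root of unity in `L` -/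
def em (k L : Type) [Field k] [Field L] [Algebra k L] {ℓ : ℕ} (ζ : rootsOfUnity ℓ k) : L :=
  algebraMap k L ((ζ : kˣ) : k)

theorem em_mul (ζ ζ' : rootsOfUnity ℓ k) : em k L (ζ * ζ') = em k L ζ * em k L ζ' := by
  simp [em]

theorem em_one : em k L (1 : rootsOfUnity ℓ k) = 1 := by
  simp [em]

theorem em_pow (ζ : rootsOfUnity ℓ k) (m : ℕ) : em k L (ζ ^ m) = em k L ζ ^ m := by
  simp [em]

theorem root_pow (ζ : rootsOfUnity ℓ k) : ζ ^ ℓ = 1 := by
  ext
  have h := (mem_rootsOfUnity ℓ (ζ : kˣ)).1 ζ.2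
  simpa using congrArg (fun u : kˣ => (u : k)) h

theorem em_pow_eq (ζ : rootsOfUnity ℓ k) : em k L ζ ^ ℓ = 1 := by
  rw [← em_pow, root_pow, em_one]

theorem em_inj {ζ ζ' : rootsOfUnity ℓ k} (h : em k L ζ = em k L ζ') : ζ = ζ' :=
  Subtype.ext (Units.ext ((algebraMap k L).injective h))

end em

section sym

variable {k L : Type} [Field k] [NumberField k] [Field L] [NumberField L] [Algebra k L]
  {ℓ : ℕ} {P : Pr L}

theorem val_em (hl : ℓ ≠ 0) (ζ : rootsOfUnity ℓ k) : P.valuation L (em k L ζ) = 1 := by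
  have h := congrArg (P.valuation L) (em_pow_eq (L := L) ζ)
  rw [map_pow, map_one] at h
  exact (pow_eq_one_iff_of_nonneg zero_le hl).1 h

variable (hp : ℓ.Prime) (hl : P.valuation L (ℓ : L) = 1)

include hp hl

/-- different roots of unity are not congruent -/
theorem em_cg {ζ ζ' : rootsOfUnity ℓ k} (h : Cg P (em k L ζ) (em k L ζ')) : ζ = ζ' := by
  -- reduce to `ω = ζ / ζ'` congruent to `1`
  by_contra hne
  set ω : rootsOfUnity ℓ k := ζ * ζ'⁻¹ with hω
  have hω1 : ω ≠ 1 := fun h1 => hne (mul_inv_eq_one.1 h1)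
  have hc : Cg P (em k L ω) 1 := by
    have h1 := h.mul (Cg.refl (val_em (P := P) hp.ne_zero ζ'⁻¹).le)
    rw [← em_mul, ← em_mul, mul_inv_cancel, em_one] at h1
    exact h1
  -- the geometric sum
  have hsum : ∑ i ∈ Finset.range ℓ, em k L ω ^ i = 0 := by
    have h1 : (∑ i ∈ Finset.range ℓ, em k L ω ^ i) * (em k L ω - 1) = 0 := by
      rw [geom_sum_mul, em_pow_eq, sub_self]
    rcases mul_eq_zero.1 h1 with h2 | h2
    · exact h2
    · exfalso
      apply hω1
      apply em_inj (L := L)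
      rw [em_one]
      exact sub_eq_zero.1 h2
  have h3 : P.valuation L (∑ i ∈ Finset.range ℓ, (em k L ω ^ i - 1)) < 1 := by
    refine Valuation.map_sum_lt _ one_ne_zero fun i _ => ?_
    have := (hc.pow i).2.2
    rwa [one_pow] at this
  rw [Finset.sum_sub_distrib, hsum, zero_sub, Valuation.map_neg] at h3
  simp only [Finset.sum_const, Finset.card_range, nsmul_eq_mul, mul_one] at h3
  rw [hl] at h3
  exact lt_irrefl _ h3

variable (hmu : ∃ ζ : k, IsPrimitiveRoot ζ ℓ)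

include hmu

omit hl in
/-- an `ℓ`-th root of unity modulo `P` -/
theorem exists_em {y : L} (h : Cg P (y ^ ℓ) 1) : ∃ ζ : rootsOfUnity ℓ k, Cg P y (em k L ζ) := by
  classical
  have hne : NeZero ℓ := ⟨hp.ne_zero⟩
  obtain ⟨ζ₀, hζ₀⟩ := hmu
  have hζL : IsPrimitiveRoot (algebraMap k L ζ₀) ℓ :=
    hζ₀.map_of_injective (algebraMap k L).injective
  have hy : P.valuation L y = 1 := by
    have := h.unit (map_one _)
    rw [map_pow] at this
    exact (pow_eq_one_iff_of_nonneg zero_le hp.ne_zero).1 this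
  have h1 := congrArg (fun f => P.valuation L (eval y f)) (X_pow_sub_one_eq_prod hp.pos hζL)
  simp only [eval_sub, eval_pow, eval_X, eval_one, eval_prod, eval_C, map_prod] at h1
  have h2 : ∃ z ∈ nthRootsFinset ℓ (1 : L), P.valuation L (y - z) < 1 := by
    by_contra hcon
    push Not at hcon
    have h3 := h.2.2
    rw [h1] at h3
    refine absurd h3 (not_lt.2 ?_)
    exact Finset.one_le_prod' hcon
  obtain ⟨z, hz, hlt⟩ := h2
  rw [mem_nthRootsFinset hp.pos] at hz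
  obtain ⟨i, -, hi⟩ := hζL.eq_pow_of_pow_eq_one hz
  have hmem : IsUnit ζ₀ := hζ₀.isUnit hp.ne_zero
  let u : rootsOfUnity ℓ k := ⟨hmem.unit ^ i, by
    rw [mem_rootsOfUnity]
    ext
    push_cast
    rw [IsUnit.unit_spec, ← pow_mul, mul_comm, pow_mul, hζ₀.pow_eq_one, one_pow]⟩
  have hu : em k L u = z := by
    rw [← hi]
    change algebraMap k L (((hmem.unit ^ i : kˣ)) : k) = _
    rw [Units.val_pow_eq_pow_val, IsUnit.unit_spec, map_pow]
  refine ⟨u, hy.le, (val_em hp.ne_zero u).le, ?_⟩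
  rw [hu]
  exact hlt

omit hl in
theorem sym_spec {q : ℕ} (hq : ℓ ∣ q - 1) (hq1 : 1 ≤ q) {z : L} (h : Un P q z) :
    Cg P (z ^ ((q - 1) / ℓ)) (em k L (sym k ℓ P q z)) := by
  have h1 : Cg P ((z ^ ((q - 1) / ℓ)) ^ ℓ) 1 := by
    rw [← pow_mul, Nat.div_mul_cancel hq]
    exact h.pow_sub_one hq1
  obtain ⟨ζ, hζ⟩ := exists_em (k := k) hp hmu h1
  have hex : ∃ ζ : rootsOfUnity ℓ k,
      P.valuation L (z ^ ((q - 1) / ℓ) - algebraMap k L ((ζ : kˣ) : k)) < 1 := ⟨ζ, hζ.2.2⟩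
  unfold sym
  rw [dif_pos hex]
  exact ⟨hζ.1, (val_em hp.ne_zero _).le, hex.choose_spec⟩

omit hmu in
theorem sym_eq {q : ℕ} {z : L} {ζ : rootsOfUnity ℓ k} (h : Cg P (z ^ ((q - 1) / ℓ)) (em k L ζ)) :
    sym k ℓ P q z = ζ := by
  have hex : ∃ ζ : rootsOfUnity ℓ k,
      P.valuation L (z ^ ((q - 1) / ℓ) - algebraMap k L ((ζ : kˣ) : k)) < 1 := ⟨ζ, h.2.2⟩
  unfold sym
  rw [dif_pos hex]
  refine em_cg hp hl ?_
  have h1 : Cg P (z ^ ((q - 1) / ℓ)) (em k L hex.choose) :=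
    ⟨h.1, (val_em hp.ne_zero _).le, hex.choose_spec⟩
  exact h1.symm.trans h

variable {q : ℕ} (hq : ℓ ∣ q - 1) (hq1 : 1 ≤ q)

include hq hq1

theorem sym_mul {z z' : L} (h : Un P q z) (h' : Un P q z') :
    sym k ℓ P q (z * z') = sym k ℓ P q z * sym k ℓ P q z' := by
  refine sym_eq hp hl ?_
  rw [mul_pow, em_mul]
  exact (sym_spec hp hmu hq hq1 h).mul (sym_spec hp hmu hq hq1 h')

omit hmu hq hq1 in
theorem sym_one : sym k ℓ P q (1 : L) = 1 := by
  refine sym_eq hp hl ?_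
  rw [one_pow, em_one]
  exact Cg.refl (map_one _).le

theorem sym_prod {ι : Type} (s : Finset ι) (z : ι → L) (h : ∀ i ∈ s, Un P q (z i)) :
    sym k ℓ P q (∏ i ∈ s, z i) = ∏ i ∈ s, sym k ℓ P q (z i) := by
  classical
  induction s using Finset.induction_on with
  | empty => rw [Finset.prod_empty, Finset.prod_empty, sym_one hp hl]
  | insert i s hi ih =>
    have h3 : ∀ j ∈ s, Un P q (z j) := fun j hj => h j (Finset.mem_insert_of_mem hj)
    rw [Finset.prod_insert hi, Finset.prod_insert hi,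
      sym_mul hp hl hmu hq hq1 (h i (Finset.mem_insert_self _ _)) (Un.prod s z h3), ih h3]

theorem sym_pow {z : L} (h : Un P q z) (m : ℕ) :
    Un P q (z ^ m) ∧ sym k ℓ P q (z ^ m) = sym k ℓ P q z ^ m := by
  induction m with
  | zero => rw [pow_zero, pow_zero, sym_one hp hl]; exact ⟨Un.one, rfl⟩
  | succ m ih => rw [pow_succ, pow_succ, sym_mul hp hl hmu hq hq1 ih.1 h, ih.2]; exact ⟨ih.1.mul h, rfl⟩

theorem sym_inv {z : L} (h : Un P q z) : sym k ℓ P q z⁻¹ = (sym k ℓ P q z)⁻¹ := by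
  have h0 : z ≠ 0 := by
    rintro rfl
    have := h.1
    rw [map_zero] at this
    exact zero_ne_one this
  have h1 := sym_mul hp hl hmu hq hq1 h h.inv
  rw [mul_inv_cancel₀ h0, sym_one hp hl] at h1
  exact eq_inv_of_mul_eq_one_right h1.symm

theorem sym_congr {z z' : L} (h : Un P q z) (hc : Cg P z' z) :
    sym k ℓ P q z' = sym k ℓ P q z :=
  sym_eq hp hl ((hc.pow _).trans (sym_spec hp hmu hq hq1 h))

/-- The symbol in an extension of degree `m`. -/
theorem sym_lift {z : L} (h : Un P q z) (m : ℕ) :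
    sym k ℓ P (q ^ m) z = sym k ℓ P q z ^ m := by
  have hs := sym_spec (k := k) hp hmu hq hq1 h
  refine sym_eq hp hl ?_
  induction m with
  | zero =>
    simp only [pow_zero, Nat.sub_self, Nat.zero_div]
    rw [em_one]
    exact Cg.refl (map_one _).le
  | succ m ih =>
    obtain ⟨t, ht⟩ := hq
    have hqt : q = ℓ * t + 1 := by omega
    have hqm : ∃ s, q ^ m = ℓ * s + 1 := by
      have h1 : ℓ ∣ q ^ m - 1 := by
        have h2 : q - 1 ∣ q ^ m - 1 := by
          have := Nat.sub_dvd_pow_sub_pow q 1 m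
          rwa [one_pow] at this
        exact (Dvd.intro _ ht.symm).trans h2
      obtain ⟨s, hs'⟩ := h1
      have h3 : 0 < q ^ m := Nat.pow_pos (by omega)
      exact ⟨s, by omega⟩
    obtain ⟨s, hs'⟩ := hqm
    have hl0 : 0 < ℓ := hp.pos
    have e : (q ^ (m + 1) - 1) / ℓ = ((q ^ m - 1) / ℓ) * q + (q - 1) / ℓ := by
      have e1 : q ^ (m + 1) - 1 = ℓ * (s * q + t) := by
        rw [pow_succ, hs', hqt]
        have : (ℓ * s + 1) * (ℓ * t + 1) = ℓ * (s * (ℓ * t + 1) + t) + 1 := by ring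
        omega
      have e2 : (q ^ m - 1) / ℓ = s := by
        rw [hs', Nat.add_sub_cancel, Nat.mul_div_cancel_left _ hl0]
      have e3 : (q - 1) / ℓ = t := by
        rw [ht, Nat.mul_div_cancel_left _ hl0]
      rw [e1, e2, e3, Nat.mul_div_cancel_left _ hl0]
    rw [e, pow_add, pow_mul, pow_succ (sym k ℓ P q z), em_mul]
    refine Cg.mul ?_ hs
    refine (ih.pow q).trans ?_
    have h3 : em k L (sym k ℓ P q z ^ m) ^ q = em k L (sym k ℓ P q z ^ m) := by
      rw [hqt, pow_succ, pow_mul, em_pow_eq, one_pow, one_mul]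
    rw [h3]
    exact Cg.refl (val_em hp.ne_zero _).le

end sym

section ctx

variable {k L : Type} [Field k] [NumberField k] [Field L] [NumberField L] [Algebra k L]
  [IsGalois k L] {f : k[X]} (X : Ctx k L f) {ℓ : ℕ}

/-- `ℓ` is a unit at the good primes -/
theorem l_unit (hp : ℓ.Prime) (hM : ℓ ∣ X.M) {p : ℕ} {v : Pr k} (hpp : p.Prime) (hpM : ¬ p ∣ X.M)
    (hv : (p : 𝓞 k) ∈ v.asIdeal) : (X.P v).valuation L (ℓ : L) = 1 := by
  have h1 : (ℓ : L) = (((ℓ : 𝓞 L)) : L) := (map_natCast (algebraMap (𝓞 L) L) ℓ).symm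
  rw [h1, val_int_one]
  intro h
  have h2 := eq_of_mem_mem hpp hp (X.mem_P hv) h
  exact hpM (h2 ▸ hM)

/-- the norm of a good prime is `1` modulo `ℓ` -/
theorem nm_one (hp : ℓ.Prime) (hM : ℓ ∣ X.M) (hmu : ∃ ζ : k, IsPrimitiveRoot ζ ℓ) {p : ℕ}
    {v : Pr k} (hpp : p.Prime) (hpM : ¬ p ∣ X.M) (hv : (p : 𝓞 k) ∈ v.asIdeal) :
    ℓ ∣ nm v - 1 ∧ 1 ≤ nm v := by
  have hl := l_unit X hp hM hpp hpM hv
  have hnm : 1 ≤ nm v := by
    have h1 : nm v ≠ 0 := fun h0 => v.ne_bot (Ideal.absNorm_eq_zero_iff.1 h0)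
    omega
  refine ⟨?_, hnm⟩
  obtain ⟨ζ₀, hζ₀⟩ := hmu
  have hmem : IsUnit ζ₀ := hζ₀.isUnit hp.ne_zero
  let u : rootsOfUnity ℓ k := ⟨hmem.unit, by
    rw [mem_rootsOfUnity]
    ext
    push_cast
    rw [IsUnit.unit_spec, hζ₀.pow_eq_one]⟩
  have hu : em k L u = algebraMap k L ζ₀ := by
    change algebraMap k L ((hmem.unit : kˣ) : k) = _
    rw [IsUnit.unit_spec]
  have h1 : Cg (X.P v) (em k L u) (em k L (u ^ nm v)) := by
    refine ⟨(val_em hp.ne_zero _).le, (val_em hp.ne_zero _).le, ?_⟩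
    have h2 := X.frob v (em k L u) (val_em hp.ne_zero _).le
    have h3 : X.F v (em k L u) = em k L u := by rw [hu, AlgEquiv.commutes]
    rw [h3, ← em_pow] at h2
    exact h2
  have h2 := em_cg hp hl h1
  have h3 : ζ₀ ^ nm v = ζ₀ := by
    have h4 := congrArg (fun z : rootsOfUnity ℓ k => ((z : kˣ) : k)) h2
    simp only [Subgroup.coe_pow, Units.val_pow_eq_pow_val] at h4
    have h5 : ((u : kˣ) : k) = ζ₀ := IsUnit.unit_spec _
    rw [h5] at h4
    exact h4.symm
  have h4 : ζ₀ ^ (nm v - 1) = 1 := by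
    have h5 : ζ₀ ≠ 0 := hmem.ne_zero
    apply mul_right_cancel₀ h5
    rw [← pow_succ, Nat.sub_add_cancel hnm, h3, one_mul]
  exact hζ₀.dvd_of_pow_eq_one _ h4

theorem dvd_pow_sub {q : ℕ} (hq : ℓ ∣ q - 1) (m : ℕ) : ℓ ∣ q ^ m - 1 := by
  have := Nat.sub_dvd_pow_sub_pow q 1 m
  rw [one_pow] at this
  exact hq.trans this

theorem chl_eq (v : Pr k) (m : ℕ) (z : L) : chl X ℓ v m z = sym k ℓ (X.P v) (nm v ^ m) z := rfl

open scoped Classical in
theorem erase_nonempty (h2 : 2 ≤ f.natDegree) {v : Pr k} {o : L} (ho : X.F v o = o) :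
    ((X.R v).erase o).Nonempty := by
  obtain ⟨θ, hθ, hne⟩ := Finset.exists_mem_ne (s := X.Ω) (by rw [X.card_Ω]; omega) o
  refine ⟨X.rep v θ, Finset.mem_erase.2 ⟨?_, Finset.mem_image_of_mem _ hθ⟩⟩
  intro h
  obtain ⟨i, hi⟩ := X.rep_mem v θ
  apply hne
  have h1 := Ctx.zpow_fixed ho (-i)
  rw [h] at hi
  rw [hi] at h1
  rw [zpow_neg] at h1
  have h2 : (X.F v ^ i)⁻¹ ((X.F v ^ i) θ) = θ := by
    rw [← AlgEquiv.mul_apply, inv_mul_cancel]
    rfl
  rw [h2] at h1
  rw [h1, hi]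

open scoped Classical in
/-- the representative of an orbit other than `{o}` which has the least power of `ℓ` in its length -/
noncomputable def st (ℓ : ℕ) (v : Pr k) (o : L) : L :=
  if h : ((X.R v).erase o).Nonempty then
    (Finset.exists_min_image _ (fun ρ => padicValNat ℓ (X.len v ρ)) h).choose else 0

open scoped Classical in
theorem st_mem (h2 : 2 ≤ f.natDegree) {v : Pr k} {o : L} (ho : X.F v o = o) :
    st X ℓ v o ∈ (X.R v).erase o := by
  unfold st
  rw [dif_pos (erase_nonempty X h2 ho)]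
  exact (Finset.exists_min_image ((X.R v).erase o) (fun ρ => padicValNat ℓ (X.len v ρ))
    (erase_nonempty X h2 ho)).choose_spec.1

open scoped Classical in
theorem st_le (h2 : 2 ≤ f.natDegree) {v : Pr k} {o : L} (ho : X.F v o = o) {ρ : L}
    (hρ : ρ ∈ (X.R v).erase o) :
    padicValNat ℓ (X.len v (st X ℓ v o)) ≤ padicValNat ℓ (X.len v ρ) := by
  unfold st
  rw [dif_pos (erase_nonempty X h2 ho)]
  exact (Finset.exists_min_image ((X.R v).erase o) (fun ρ => padicValNat ℓ (X.len v ρ))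
    (erase_nonempty X h2 ho)).choose_spec.2 ρ hρ

open scoped Classical in
/-- the quotient of the degrees is prime to `ℓ` -/
theorem not_dvd_quot (hp : ℓ.Prime) (h2 : 2 ≤ f.natDegree) {v : Pr k} {o : L} (ho : X.F v o = o)
    {ρ : L} (hρ : ρ ∈ (X.R v).erase o) :
    ¬ ℓ ∣ Nat.lcm (X.len v ρ) (X.len v (st X ℓ v o)) / X.len v ρ := by
  have h1 := st_le (ℓ := ℓ) X h2 ho hρ
  have ha := X.len_pos v ρ
  have hb := X.len_pos v (st X ℓ v o)
  generalize X.len v ρ = a at *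
  generalize X.len v (st X ℓ v o) = b at *
  intro h
  obtain ⟨t, ht⟩ := Nat.dvd_lcm_left a b
  rw [ht, Nat.mul_div_cancel_left _ ha] at h
  obtain ⟨s, hs⟩ := h
  have h2 : b ∣ s * a := by
    have h3 : b ∣ ℓ * (s * a) := by
      have := Nat.dvd_lcm_right a b
      rw [ht, hs] at this
      have e : a * (ℓ * s) = ℓ * (s * a) := by ring
      rwa [e] at this
    have : Fact ℓ.Prime := ⟨hp⟩
    have hs0 : s ≠ 0 := by
      rintro rfl
      rw [mul_zero] at hs
      subst hs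
      rw [mul_zero] at ht
      exact (Nat.lcm_ne_zero ha.ne' hb.ne') ht
    obtain ⟨b', hb'⟩ := @pow_padicValNat_dvd ℓ b
    have hb0 : b' ≠ 0 := by
      rintro rfl
      rw [mul_zero] at hb'
      exact hb.ne' hb'
    have hodd : ¬ ℓ ∣ b' := by
      intro ⟨c, hc⟩
      have h5 : ℓ ^ (padicValNat ℓ b + 1) ∣ b := ⟨c, by rw [pow_succ, mul_assoc, ← hc, ← hb']⟩
      exact pow_succ_padicValNat_not_dvd hb.ne' h5
    have hcop : Nat.Coprime (ℓ ^ padicValNat ℓ b) b' :=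
      Nat.Coprime.pow_left _ ((Nat.Prime.coprime_iff_not_dvd hp).2 hodd)
    rw [hb']
    refine Nat.Coprime.mul_dvd_of_dvd_of_dvd hcop ?_ ?_
    · exact ((pow_dvd_pow ℓ h1).trans pow_padicValNat_dvd).trans (Dvd.intro_left _ rfl)
    · have h6 : b' ∣ ℓ * (s * a) := (Dvd.intro_left _ hb'.symm).trans h3
      exact (Nat.Coprime.dvd_mul_left (((Nat.Prime.coprime_iff_not_dvd hp).2 hodd).symm)).1 h6
  have h7 : Nat.lcm a b ∣ s * a := Nat.lcm_dvd (Dvd.intro_left _ rfl) h2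
  have hs0 : 0 < s * a := by
    rcases Nat.eq_zero_or_pos (s * a) with h8 | h8
    · exfalso
      have e : a * t = ℓ * (s * a) := by rw [hs]; ring
      rw [e, h8] at ht
      exact (Nat.lcm_ne_zero ha.ne' hb.ne') ht
    · exact h8
  have h9 := Nat.le_of_dvd hs0 h7
  have e : a * t = ℓ * (s * a) := by rw [hs]; ring
  have h10 := hp.two_le
  nlinarith

end ctx

end Pool.Agent.ML
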