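import Pool.Agent.Helper13.ML.G1a
import Pool.Agent.Helper13.M.Fin1
import Pool.Agent.Helper59.ML.Act
import Pool.Agent.Helper97.LN.CLS

/-!
# Project ML: from the data over the algebraic closure to the data of the counting problem
-/

set_option autoImplicit false
set_option linter.unusedSectionVars false

namespace Pool.Agent.ML

open VC IntermediateField NumberField IsDedekindDomain Pool.Agent.SC
open Pool.Agent.L (Inert L0 MM SamePlace OverV)
open Pool.Agent.LN (Geo Act HasSec GoodCurve IsRam DecPt)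
open Pool.Agent.M (UR NN Moves OverPl inL0 lt_iff13 eq_iff13 eq_iffk13 exists_res13 exists_lift13
  mem_range13 inert_triv13)
open Pool.Agent.HG (Pr nm Ctx Gd Cg Un)

/-- the decomposition data of project LN and of project L -/
theorem toLD {k E : Type} [Field k] [NumberField k] [Field E] [Algebra k E] {v : Pr k}
    {O : ValuationSubring E} {F : E ≃ₐ[k] E} {p f : ℕ} (h : DecPt v O F p f) :
    Pool.Agent.L.DecPt v O F p f where
  above := h.above
  norm := h.norm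
  frob := h.frob
  odd := by
    intro c hc
    by_cases hd : ∃ d : E, d ^ 2 = algebraMap k E c
    · obtain ⟨d, hd⟩ := hd
      obtain ⟨τ, hτ, hne⟩ := h.ram 2 c two_pos hc d hd
      refine ⟨τ, hτ, fun d' hd' => ?_⟩
      have h1 : τ d = -d := by
        have h2 : (τ d) ^ 2 = d ^ 2 := by rw [← map_pow, hd, AlgEquiv.commutes]
        rcases sq_eq_sq_iff_eq_or_eq_neg.1 h2 with h3 | h3
        · exact absurd h3 hne
        · exact h3
      rcases sq_eq_sq_iff_eq_or_eq_neg.1 (hd'.trans hd.symm) with h3 | h3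
      · rw [h3, h1]
      · rw [h3, map_neg, h1]
    · refine ⟨1, ⟨fun z => Iff.rfl, fun z hz => ?_⟩, fun d hd' => absurd ⟨d, hd'⟩ hd⟩
      have h1 : (1 : E ≃ₐ[k] E).toRingEquiv z - z = 0 := sub_self z
      rw [h1, map_zero]
      exact zero_lt_one
  tame := h.tame

section val

variable {k E L : Type} [Field k] [NumberField k] [Field E] [Algebra k E] [Field L] [NumberField L]
  [Algebra k L]

/-- a root of unity congruent to `1` -/
theorem eq_one_of_cong {ℓ : ℕ} {O : ValuationSubring E} (hl : O.valuation (ℓ : E) = 1) {ω : E}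
    (hω : ω ^ ℓ = 1) (h0 : ℓ ≠ 0) (h : O.valuation (ω - 1) < 1) : ω = 1 := by
  by_contra hne
  have h1 : O.valuation ω = 1 := by
    have h2 := congrArg O.valuation hω
    rw [map_pow, map_one] at h2
    exact (pow_eq_one_iff_of_nonneg zero_le h0).1 h2
  have hsum : ∑ i ∈ Finset.range ℓ, ω ^ i = 0 := by
    have h2 : (∑ i ∈ Finset.range ℓ, ω ^ i) * (ω - 1) = 0 := by
      rw [geom_sum_mul, hω, sub_self]
    rcases mul_eq_zero.1 h2 with h3 | h3
    · exact h3
    · exact absurd (sub_eq_zero.1 h3) hne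
  have hpow : ∀ i : ℕ, O.valuation (ω ^ i - 1) < 1 := by
    intro i
    induction i with
    | zero =>
      rw [pow_zero, sub_self, map_zero]
      exact zero_lt_one
    | succ i ih =>
      have e : ω ^ (i + 1) - 1 = ω ^ i * (ω - 1) + (ω ^ i - 1) := by ring
      rw [e]
      refine Valuation.map_add_lt _ ?_ ih
      rw [map_mul, map_pow, h1, one_pow, one_mul]
      exact h
  have h3 : O.valuation (∑ i ∈ Finset.range ℓ, (ω ^ i - 1)) < 1 :=
    Valuation.map_sum_lt _ one_ne_zero fun i _ => hpow i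
  rw [Finset.sum_sub_distrib, hsum, zero_sub, Valuation.map_neg] at h3
  simp only [Finset.sum_const, Finset.card_range, nsmul_eq_mul, mul_one] at h3
  rw [hl] at h3
  exact lt_irrefl _ h3

/-- inertia fixes the `ℓ`-th roots of units which it fixes -/
theorem inert_root {ℓ : ℕ} (h0 : ℓ ≠ 0) {O : ValuationSubring E} {τ : E ≃ₐ[k] E}
    (hτ : Inert O τ.toRingEquiv) (hl : O.valuation (ℓ : E) = 1) {d : E}
    (hd : O.valuation (d ^ ℓ) = 1) (h : τ (d ^ ℓ) = d ^ ℓ) : τ d = d := by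
  have hd1 : O.valuation d = 1 := by
    rw [map_pow] at hd
    exact (pow_eq_one_iff_of_nonneg zero_le h0).1 hd
  have hdne : d ≠ 0 := by
    rintro rfl
    rw [map_zero] at hd1
    exact zero_ne_one hd1
  rw [map_pow] at h
  have h1 : (τ d / d) ^ ℓ = 1 := by rw [div_pow, h, div_self (pow_ne_zero _ hdne)]
  have h2 : O.valuation (τ d / d - 1) < 1 := by
    have e : τ d / d - 1 = (τ d - d) / d := by field_simp
    rw [e, map_div₀, hd1, div_one]
    exact hτ.res d ((O.valuation_le_one_iff d).1 hd1.le)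
  have h3 := eq_one_of_cong hl h1 h0 h2
  rwa [div_eq_one_iff_eq hdne] at h3

end val

section main

variable {k E L : Type} [Field k] [NumberField k] [Field E] [IsAlgClosed E] [Algebra k E]
  [Algebra.IsAlgebraic k E] [Field L] [NumberField L] [Algebra k L] [IsGalois k L]
  {f : Polynomial k} (X : Ctx k L f) (ι : L →ₐ[k] E) {ℓ : ℕ} (hℓ : ℓ.Prime) (hlM : ℓ ∣ X.M)

variable {v : Pr k} {p : ℕ} (hp : p.Prime) (hpM : ¬ p ∣ X.M) (hpv : (p : 𝓞 k) ∈ v.asIdeal)
  {O : ValuationSubring E} {F : E ≃ₐ[k] E} {p' n : ℕ} (hD : DecPt v O F p' n)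
  (hO : ∀ z : L, ι z ∈ O ↔ (X.P v).valuation L z ≤ 1)

include hp hpM hpv hℓ hlM in
omit [IsAlgClosed E] [Algebra.IsAlgebraic k E] in
theorem l_unitE (hO : ∀ z : L, ι z ∈ O ↔ (X.P v).valuation L z ≤ 1) :
    O.valuation (ℓ : E) = 1 := by
  have h1 := (eq_iff13 hO (ℓ : L)).2 (l_unit X hℓ hlM hp hpM hpv)
  rwa [map_natCast] at h1

include hp hpM hpv in
/-- `v(p) = 1` -/
theorem val_p : v.valuation k (p : k) = WithZero.exp (-1 : ℤ) := by
  have hp0 : (p : k) ≠ 0 := by exact_mod_cast hp.ne_zero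
  obtain ⟨π, hπ⟩ := v.valuation_exists_uniformizer k
  have hπ0 : π ≠ 0 := by
    rintro rfl
    rw [map_zero] at hπ
    exact WithZero.exp_ne_zero hπ.symm
  obtain ⟨a, ha⟩ := X.unif p v hp hpM hpv π hπ0
  have hvp : v.valuation k (p : k) ≠ 0 := (Valuation.ne_zero_iff _).2 hp0
  rw [map_mul, map_zpow₀, hπ] at ha
  have h1 := congrArg WithZero.log ha
  rw [WithZero.log_mul WithZero.exp_ne_zero (zpow_ne_zero _ hvp), WithZero.log_exp,
    WithZero.log_zpow, WithZero.log_one, smul_eq_mul] at h1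
  have h2 : a * (v.valuation k (p : k)).log = 1 := by linarith
  have hlt : v.valuation k (p : k) < 1 := by
    have e : (p : k) = (((p : 𝓞 k)) : k) := (map_natCast (algebraMap (𝓞 k) k) p).symm
    rw [e, Pool.Agent.HG.val_int_lt]
    exact hpv
  have h3 : (v.valuation k (p : k)).log < 0 := by
    rw [← WithZero.log_one]
    exact WithZero.log_lt_log hvp one_ne_zero |>.2 hlt
  have h4 : (v.valuation k (p : k)).log = -1 := by
    rcases Int.eq_one_or_neg_one_of_mul_eq_one' h2 with ⟨h5, h6⟩ | ⟨h5, h6⟩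
    · omega
    · exact h6
  rw [← WithZero.exp_log hvp, h4]

include hp hpM hpv in
/-- the power of `p` from the label -/
theorem unif_of_lab {N : ℕ} {e : ℕ} {c : k} (hc : c ≠ 0) (h : Lab N v e c) :
    ∃ a : ℤ, v.valuation k (c * (p : k) ^ a) = 1 ∧ (N : ℤ) ∣ a + e := by
  obtain ⟨a, ha⟩ := X.unif p v hp hpM hpv c hc
  refine ⟨a, ha, ?_⟩
  obtain ⟨d, hd⟩ := h
  have hvc : v.valuation k c ≠ 0 := (Valuation.ne_zero_iff _).2 hc
  rw [map_mul, map_zpow₀, val_p X hp hpM hpv] at ha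
  have h1 := congrArg WithZero.log ha
  rw [WithZero.log_mul hvc (zpow_ne_zero _ WithZero.exp_ne_zero), WithZero.log_zpow,
    WithZero.log_exp, WithZero.log_one, smul_eq_mul] at h1
  rcases Nat.eq_zero_or_pos N with hN | hN
  · subst hN
    rw [pow_zero, mul_one] at hd
    rw [hd, WithZero.log_exp] at h1
    exact ⟨0, by push_cast; linarith⟩
  have hd0 : v.valuation k d ≠ 0 := by
    intro h2
    rw [h2, zero_pow hN.ne', mul_zero] at hd
    exact hvc hd
  rw [hd, WithZero.log_mul WithZero.exp_ne_zero (pow_ne_zero _ hd0), WithZero.log_exp,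
    WithZero.log_pow, nsmul_eq_mul] at h1
  exact ⟨(v.valuation k d).log, by linarith⟩

/-- the label exists -/
theorem exists_lab (v : Pr k) {N : ℕ} (hN : 0 < N) {c : k} (hc : c ≠ 0) :
    ∃ e : Fin N, Lab N v (e : ℕ) c := by
  have hvc : v.valuation k c ≠ 0 := (Valuation.ne_zero_iff _).2 hc
  obtain ⟨π, hπ⟩ := v.valuation_exists_uniformizer k
  obtain ⟨m, hm⟩ : ∃ m : ℤ, m = (v.valuation k c).log := ⟨_, rfl⟩
  have h0 : 0 ≤ (-m) % N := Int.emod_nonneg _ (by omega)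
  have h1 : (-m) % N < N := Int.emod_lt_of_pos _ (by omega)
  refine ⟨⟨((-m) % N).toNat, by omega⟩, π ^ ((-m) / N), ?_⟩
  rw [map_zpow₀, hπ, ← zpow_natCast, ← zpow_mul, ← WithZero.exp_zsmul, ← WithZero.exp_add,
    ← WithZero.exp_log hvc, ← hm]
  congr 1
  have h2 : (((((-m) % N).toNat : ℕ)) : ℤ) = (-m) % N := Int.toNat_of_nonneg h0
  simp only [smul_eq_mul]
  rw [h2]
  have h3 := Int.emod_add_mul_ediv (-m) N
  linarith

/-- ramification and the label -/
theorem isRam_iff_lab {v : Pr k} {N : ℕ} (hN : 0 < N) {c : k} (hc : c ≠ 0) {e : ℕ}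
    (h : Lab N v e c) {d : ℕ} (hd : d ∣ N) : IsRam d v c ↔ ¬ d ∣ e := by
  have hd0 : 0 < d := Nat.pos_of_dvd_of_pos hd hN
  have hvc : v.valuation k c ≠ 0 := (Valuation.ne_zero_iff _).2 hc
  obtain ⟨y, hy⟩ := h
  have hy0 : v.valuation k y ≠ 0 := by
    intro h2
    rw [h2, zero_pow hN.ne', mul_zero] at hy
    exact hvc hy
  rw [Pool.Agent.LN.isRam_iff hd0 v hc, hy, WithZero.log_mul WithZero.exp_ne_zero
    (pow_ne_zero _ hy0), WithZero.log_exp, WithZero.log_pow, nsmul_eq_mul, not_iff_not]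
  have h1 : (d : ℤ) ∣ N * (v.valuation k y).log := (Int.natCast_dvd_natCast.2 hd).mul_right _
  rw [dvd_add_left h1, dvd_neg, Int.natCast_dvd_natCast]

include hp hpM hpv hℓ hlM hO in
omit [IsAlgClosed E] [Algebra.IsAlgebraic k E] in
/-- inertia and the `ℓ`-th roots of the elements of `L` -/
theorem tau_L (hgen : ∀ σ : L ≃ₐ[k] L, (∀ x ∈ X.Ω, σ x = x) → σ = 1)
    {τ : E ≃ₐ[k] E} (hτ : Inert O τ.toRingEquiv) {s ζ : E} (hs : s ^ ℓ = (p : E))
    (hζ : τ s = ζ * s) {δ : E} {y : L} (hy : ι y = δ ^ ℓ) {a : ℤ}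
    (ha : (X.P v).valuation L (y * (p : L) ^ a) = 1) : τ δ * ζ ^ a = δ := by
  have hl := l_unitE X ι hℓ hlM hp hpM hpv hO
  have hcE : CharZero E := charZero_of_injective_algebraMap (algebraMap k E).injective
  have hp0 : (p : E) ≠ 0 := by exact_mod_cast hp.ne_zero
  have hs0 : s ≠ 0 := by
    rintro rfl
    rw [zero_pow hℓ.ne_zero] at hs
    exact hp0 hs.symm
  have h3 : (δ * s ^ a) ^ ℓ = ι (y * (p : L) ^ a) := by
    rw [map_mul, map_zpow₀, map_natCast, hy, mul_pow, ← hs, ← zpow_natCast (s ^ a),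
      ← zpow_mul, ← zpow_natCast s, ← zpow_mul, mul_comm a]
  have h4 := inert_root hℓ.ne_zero hτ hl (d := δ * s ^ a) (by rw [h3, eq_iff13 hO]; exact ha)
    (by rw [h3]; exact inert_triv13 X ι hgen hp hpM hpv hO hτ _)
  rw [map_mul, map_zpow₀, hζ, mul_zpow, ← mul_assoc] at h4
  exact mul_right_cancel₀ (zpow_ne_zero a hs0) h4

include hp hpM hpv hℓ hlM hO hD in
omit [IsAlgClosed E] [Algebra.IsAlgebraic k E] in
/-- inertia and the `ℓ`-th roots of the elements of `k` -/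
theorem tau_k (hgen : ∀ σ : L ≃ₐ[k] L, (∀ x ∈ X.Ω, σ x = x) → σ = 1)
    {τ : E ≃ₐ[k] E} (hτ : Inert O τ.toRingEquiv) {s ζ : E} (hs : s ^ ℓ = (p : E))
    (hζ : τ s = ζ * s) {d : E} {c : k} (hd : d ^ ℓ = algebraMap k E c) {a : ℤ}
    (ha : v.valuation k (c * (p : k) ^ a) = 1) : τ d * ζ ^ a = d := by
  refine tau_L X ι hℓ hlM hp hpM hpv hO hgen hτ hs hζ (y := algebraMap k L c) ?_ (a := a) ?_
  · rw [hd, AlgHom.commutes]
  · have h1 : algebraMap k L c * (p : L) ^ a = algebraMap k L (c * (p : k) ^ a) := by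
      rw [map_mul, map_zpow₀, map_natCast]
    rw [h1, ← eq_iff13 hO, AlgHom.commutes, eq_iffk13 hD.above]
    exact ha

include hp hpM hpv hℓ in
omit [Algebra.IsAlgebraic k E] in
/-- the test element -/
theorem exists_tau (hD : DecPt v O F p' n) : ∃ (τ : E ≃ₐ[k] E) (s ζ : E),
    Inert O τ.toRingEquiv ∧ s ^ ℓ = (p : E) ∧ τ s = ζ * s ∧ IsPrimitiveRoot ζ ℓ := by
  have hcE : CharZero E := charZero_of_injective_algebraMap (algebraMap k E).injective
  have hp0 : (p : k) ≠ 0 := by exact_mod_cast hp.ne_zero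
  have hpE : (p : E) ≠ 0 := by exact_mod_cast hp.ne_zero
  have hram : IsRam ℓ v (p : k) := by
    rw [Pool.Agent.LN.isRam_iff hℓ.pos v hp0, val_p X hp hpM hpv, WithZero.log_exp]
    intro h1
    have h2 : (ℓ : ℤ) ∣ 1 := by rwa [dvd_neg] at h1
    have h3 : ℓ ∣ 1 := by exact_mod_cast h2
    exact hℓ.one_lt.ne' (Nat.dvd_one.1 h3)
  obtain ⟨s, hs⟩ := IsAlgClosed.exists_pow_nat_eq (p : E) hℓ.pos
  have hs0 : s ≠ 0 := by
    rintro rfl
    rw [zero_pow hℓ.ne_zero] at hs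
    exact hpE hs.symm
  obtain ⟨τ, hτ, hne⟩ := hD.ram ℓ (p : k) hℓ.pos hram s (by rw [hs, map_natCast])
  refine ⟨τ, s, τ s / s, hτ, hs, by field_simp, ?_⟩
  have h1 : (τ s / s) ^ ℓ = 1 := by
    rw [div_pow, ← map_pow, hs, map_natCast, div_self hpE]
  have h2 : τ s / s ≠ 1 := by
    intro h3
    rw [div_eq_one_iff_eq hs0] at h3
    exact hne h3
  have h3 := orderOf_eq_prime (x := τ s / s) (p := ℓ) (hp := ⟨hℓ⟩) h1 h2
  rw [← h3]
  exact IsPrimitiveRoot.orderOf _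

include hp hpM hpv hD hO hℓ hlM in
omit [IsAlgClosed E] [Algebra.IsAlgebraic k E] in
/-- Euler's criterion and the action of the Frobenius element on the `ℓ`-th roots -/
theorem signL (hmu : ∃ ζ : k, IsPrimitiveRoot ζ ℓ) {N : ℕ} (hN : 0 < N) {δ : E} {y : L}
    (hy : ι y = δ ^ ℓ) {a : ℤ}
    (ha : (X.P v).valuation L (y * (p : L) ^ ((ℓ : ℤ) * a)) = 1) {ε : rootsOfUnity ℓ k}
    (hF : (F ^ N) δ = algebraMap k E ((ε : kˣ) : k) * δ) :
    chl X ℓ v N (y * (p : L) ^ ((ℓ : ℤ) * a)) = ε := by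
  have hnm := nm_one X hℓ hlM hmu hp hpM hpv
  have hqd : ℓ ∣ nm v ^ N - 1 := dvd_pow_sub hnm.1 N
  have hq1 : 1 ≤ nm v ^ N := Nat.one_le_pow _ _ hnm.2
  have hpk : ι (p : L) = (p : E) := map_natCast _ _
  have h3 : (δ * (p : E) ^ a) ^ ℓ = ι (y * (p : L) ^ ((ℓ : ℤ) * a)) := by
    rw [map_mul, map_zpow₀, hpk, hy, mul_pow, ← zpow_natCast ((p : E) ^ a), ← zpow_mul,
      mul_comm a]
  have hu2 : O.valuation ((δ * (p : E) ^ a) ^ ℓ) = 1 := by
    rw [h3, eq_iff13 hO]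
    exact ha
  have hu : O.valuation (δ * (p : E) ^ a) = 1 := by
    rw [map_pow] at hu2
    exact (pow_eq_one_iff_of_nonneg zero_le hℓ.ne_zero).1 hu2
  have hFN := Pool.Agent.L.frob_pow29 hD.frob hN
  have h4 : O.valuation ((F ^ N) (δ * (p : E) ^ a) - (δ * (p : E) ^ a) ^ p' ^ (n * N)) < 1 :=
    hFN.frob _ ((O.valuation_le_one_iff _).1 hu.le)
  have e1 : p' ^ (n * N) = nm v ^ N := by rw [hD.norm, pow_mul]
  obtain ⟨w, hw⟩ : ∃ w, w = δ * (p : E) ^ a := ⟨_, rfl⟩
  have e2 : (F ^ N) w = algebraMap k E ((ε : kˣ) : k) * w := by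
    rw [hw, map_mul, hF, map_zpow₀, map_natCast]
    ring
  rw [← hw, e2, e1] at h4
  rw [← hw] at hu h3
  have e3 : w ^ nm v ^ N = w * (w ^ ℓ) ^ ((nm v ^ N - 1) / ℓ) := by
    rw [← pow_mul, Nat.mul_div_cancel' hqd, ← pow_succ']
    congr 1
    omega
  have e4 : algebraMap k E ((ε : kˣ) : k) * w - w ^ nm v ^ N =
      w * (algebraMap k E ((ε : kˣ) : k) - (w ^ ℓ) ^ ((nm v ^ N - 1) / ℓ)) := by rw [e3]; ring
  rw [e4, map_mul, hu, one_mul, h3, ← map_pow] at h4
  have e5 : algebraMap k E ((ε : kˣ) : k) = ι (em k L ε) := (AlgHom.commutes ι _).symm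
  rw [e5, ← map_sub, lt_iff13 hO, Valuation.map_sub_swap] at h4
  refine sym_eq hℓ (l_unit X hℓ hlM hp hpM hpv) ⟨?_, (val_em hℓ.ne_zero _).le, h4⟩
  rw [map_pow, ha, one_pow]

end main

end Pool.Agent.ML
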