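import Pool.Agent.Helper13.ML.Dat

/-!
# Project ML: the data of the counting problem
-/

set_option autoImplicit false
set_option linter.unusedSectionVars false

namespace Pool.Agent.ML

open VC IntermediateField NumberField IsDedekindDomain Pool.Agent.SC
open Pool.Agent.L (Inert L0 MM SamePlace OverV)
open Pool.Agent.LN (Geo Act HasSec GoodCurve IsRam DecPt)
open Pool.Agent.M (UR NN Moves OverPl inL0 lt_iff13 eq_iff13 eq_iffk13 exists_res13 exists_lift13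
  mem_range13 inert_triv13)
open Pool.Agent.HG (Pr nm Ctx Gd Cg Un)

/-- The roots of `f` in `L` are the branch points. -/
structure Gl {k K0 E U L : Type} [Field k] [NumberField k] [Field K0] [Field E] [Field U]
    [Algebra k K0] [Algebra k E] [Algebra E U] [Algebra K0 U] [Algebra k U] [Field L]
    [NumberField L] [Algebra k L] [IsGalois k L] {f : Polynomial k} (ℓ : ℕ) (h : K0)
    (Φ₁ : (E ≃ₐ[k] E) →* (U ≃+* U)) (X : Ctx k L f) (ι : L →ₐ[k] E)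
    (θ : Place E (L0 E K0 (U := U)) → L) (bt : L → Place E (L0 E K0 (U := U))) : Prop where
  mem : ∀ b, BPl ℓ h b → θ b ∈ X.Ω
  bt_mem : ∀ x ∈ X.Ω, BPl ℓ h (bt x)
  bt_θ : ∀ b, BPl ℓ h b → bt (θ b) = b
  θ_bt : ∀ x ∈ X.Ω, θ (bt x) = x
  act : ∀ (g : E ≃ₐ[k] E) b b', BPl ℓ h b → BPl ℓ h b' →
    (Moves (Φ₁ g) _ b b' ↔ g (ι (θ b)) = ι (θ b'))
  gen : ∀ σ : L ≃ₐ[k] L, (∀ x ∈ X.Ω, σ x = x) → σ = 1

/-- the root `θ` is possible for the label `e` -/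
def AlL {k K0 E U L : Type} [Field k] [Field K0] [Field E] [Field U] [Algebra k K0]
    [Algebra k E] [Algebra E U] [Algebra K0 U] [Algebra k U] (n ℓ : ℕ) (h : K0)
    (bt : L → Place E (L0 E K0 (U := U))) (e : Fin n) (θ : L) : Prop :=
  ¬ ℓ ∣ (e : ℕ) ∧ ∀ d : ℕ, d ∣ n → (d : ℤ) ∣ ord (bt θ).ring (inL0 h) → d ∣ (e : ℕ)

section vz

variable {k E L : Type} [Field k] [NumberField k] [Field E] [IsAlgClosed E] [Algebra k E]
  [Algebra.IsAlgebraic k E] [Field L] [NumberField L] [Algebra k L] [IsGalois k L]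
  {f : Polynomial k} (X : Ctx k L f) (ι : L →ₐ[k] E) {ℓ : ℕ} (hℓ : ℓ.Prime) (hlM : ℓ ∣ X.M)
  {v : Pr k} {p : ℕ} (hp : p.Prime) (hpM : ¬ p ∣ X.M) (hpv : (p : 𝓞 k) ∈ v.asIdeal)
  {O : ValuationSubring E} (hO : ∀ z : L, ι z ∈ O ↔ (X.P v).valuation L z ≤ 1)

include hp hpM hpv hℓ hlM hO in
omit [IsAlgClosed E] [Algebra.IsAlgebraic k E] in
/-- the valuation modulo `ℓ` from the action of inertia -/
theorem vz_of (hgen : ∀ σ : L ≃ₐ[k] L, (∀ x ∈ X.Ω, σ x = x) → σ = 1)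
    {τ : E ≃ₐ[k] E} (hτ : Inert O τ.toRingEquiv) {s ζ : E} (hs : s ^ ℓ = (p : E))
    (hζ : τ s = ζ * s) (hprim : IsPrimitiveRoot ζ ℓ) {δ : E} (hδ : δ ≠ 0) {y : L}
    (hy : ι y = δ ^ ℓ) {i : ℤ} (hi : τ δ = ζ ^ i * δ) : Vz (X.P v) p ℓ i y := by
  have hy0 : y ≠ 0 := by
    rintro rfl
    rw [map_zero] at hy
    exact pow_ne_zero _ hδ hy.symm
  have hζ0 : ζ ≠ 0 := hprim.ne_zero hℓ.ne_zero
  obtain ⟨a, ha⟩ := X.unifL p (X.P v) hp hpM (X.mem_P hpv) y hy0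
  have h1 := tau_L X ι hℓ hlM hp hpM hpv hO hgen hτ hs hζ hy ha
  have h2 : ζ ^ (i + a) = 1 := by
    have h3 : ζ ^ (i + a) * δ = 1 * δ := by
      rw [zpow_add₀ hζ0, one_mul]
      calc ζ ^ i * ζ ^ a * δ = ζ ^ i * δ * ζ ^ a := by ring
        _ = δ := by rw [← hi, h1]
    exact mul_right_cancel₀ hδ h3
  obtain ⟨a', ha'⟩ := (hprim.zpow_eq_one_iff_dvd _).1 h2
  refine ⟨a', ?_⟩
  have e : (ℓ : ℤ) * a' - i = a := by linarith
  rw [e]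
  exact ha

end vz

/-- **The data of the counting problem.** -/
theorem exists_datL {k K0 E U L : Type} [Field k] [NumberField k] [Field K0] [Field E] [Field U]
    [Algebra k K0] [Algebra k E] [Algebra E U] [Algebra K0 U] [Algebra k U] [IsAlgClosed E]
    [Algebra.IsAlgebraic k E] [Field L]
    [NumberField L] [Algebra k L] [IsGalois k L] {f : Polynomial k} {n ℓ : ℕ} {h : K0}
    {Φ₁ : (E ≃ₐ[k] E) →* (U ≃+* U)} {X : Ctx k L f} {ι : L →ₐ[k] E}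
    {θ : Place E (L0 E K0 (U := U)) → L} {bt : L → Place E (L0 E K0 (U := U))}
    (hn : 0 < n) (hℓ : ℓ.Prime) (hln : ℓ ∣ n) (hmu : ∃ ζ : k, IsPrimitiveRoot ζ ℓ) (hlM : ℓ ∣ X.M)
    (G : Gl ℓ h Φ₁ X ι θ bt) {m : ℕ}
    {zz : Place E (L0 E K0 (U := U)) → Place E (L0 E K0 (U := U)) → U} {Bad : Set (Pr k)}
    (hBad : ∀ v ∈ Bad, ¬ Gd X.M v) {c : k} (hc : c ≠ 0)
    {δ : Place E (L0 E K0 (U := U)) → Place E (L0 E K0 (U := U)) → E}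
    (hδ : IntDat n ℓ h m Φ₁ zz Bad c δ) {O : Pr k → ValuationSubring E} {F : Pr k → (E ≃ₐ[k] E)}
    {p' f' : Pr k → ℕ} (hdec : ∀ v, Gd X.M v → DecPt v (O v) (F v) (p' v) (f' v) ∧
      (∀ z : L, ι z ∈ O v ↔ (X.P v).valuation L z ≤ 1) ∧ ∀ z : L, F v (ι z) = ι (X.F v z))
    {S : Finset (Pr k × Fin n)}
    (hS : ∀ v e, (v, e) ∈ S ↔ Gd X.M v ∧ ¬ ℓ ∣ (e : ℕ) ∧ Lab n v (e : ℕ) c)
    {w : L → Fin n → ℕ}
    (hw : ∀ x ∈ X.Ω, ∀ e : Fin n, ¬ ℓ ∣ (e : ℕ) →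
      (ℓ : ℤ) ∣ w x e * ord (bt x).ring (inL0 h) + (e : ℕ))
    [Nonempty (Place E (NN E K0 ℓ (U := U)))] :
    ∃ (D : L → L → L) (t : Pr k → L) (P : Pr k → Place E (NN E K0 ℓ (U := U))),
      DatL X n ℓ c S w D t (fun v N x x' => sgn ℓ (Φ₁ (F v) ^ N) (P v) (zz (bt x) (bt x'))) ∧
      ∀ v e, (v, e) ∈ S → AlL (k := k) n ℓ h bt e (t v) ∧ OverPl (bt (t v)) (P v) ∧
        ∃ Q : Place E (NN E K0 (ℓ ^ m) (U := U)),
          OverPl (P v) Q ∧ Moves (Φ₁ (F v)) _ Q Q := by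
  classical
  -- the numbers `D`
  have hDex : ∀ x x' : L, ∃ y : L, x ∈ X.Ω → x' ∈ X.Ω → x ≠ x' →
      ι y = δ (bt x) (bt x') ^ ℓ := by
    intro x x'
    by_cases hx : x ∈ X.Ω ∧ x' ∈ X.Ω ∧ x ≠ x'
    · obtain ⟨hx, hx', hne⟩ := hx
      have hb := G.bt_mem x hx
      have hb' := G.bt_mem x' hx'
      have hbb : bt x ≠ bt x' := fun h1 => hne (by rw [← G.θ_bt x hx, h1, G.θ_bt x' hx'])
      obtain ⟨y, hy⟩ := mem_range13 ι (y := δ (bt x) (bt x') ^ ℓ) fun g hg =>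
        hδ.eqv g _ _ _ _ hb hb' hbb ((G.act g _ _ hb hb).2 (hg _)) ((G.act g _ _ hb' hb').2 (hg _))
      exact ⟨y, fun _ _ _ => hy⟩
    · exact ⟨0, fun h1 h2 h3 => absurd ⟨h1, h2, h3⟩ hx⟩
  choose D hDy using hDex
  have hbne : ∀ {x x' : L}, x ∈ X.Ω → x' ∈ X.Ω → x ≠ x' → bt x ≠ bt x' :=
    fun hx hx' hne h1 => hne (by rw [← G.θ_bt _ hx, h1, G.θ_bt _ hx'])
  have hδ0 : ∀ {x x' : L}, x ∈ X.Ω → x' ∈ X.Ω → x ≠ x' → δ (bt x) (bt x') ≠ 0 :=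
    fun hx hx' hne => hδ.ne _ _ (G.bt_mem _ hx) (G.bt_mem _ hx') (hbne hx hx' hne)
  -- the local data
  have hloc : ∀ v : Pr k, ∃ (t : L) (P : Place E (NN E K0 ℓ (U := U))), ∀ e, (v, e) ∈ S →
      t ∈ X.Ω ∧ X.F v t = t ∧ OverPl (bt t) P ∧
      (∃ Q : Place E (NN E K0 (ℓ ^ m) (U := U)), OverPl P Q ∧ Moves (Φ₁ (F v)) _ Q Q) ∧
      (∀ d : ℕ, d ∣ n → (d : ℤ) ∣ ord (bt t).ring (inL0 h) → ¬ IsRam d v c) ∧
      (∀ τ : E ≃ₐ[k] E, Inert (O v) τ.toRingEquiv → ∀ d : E, d ^ ℓ = algebraMap k E c → τ d ≠ d →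
        ∃ ω : E, ω ^ ℓ = 1 ∧ ω ^ ord (bt t).ring (inL0 h) * τ d = d ∧
          ∀ b b', BPl ℓ h b → BPl ℓ h b' → b ≠ b' →
            (b = bt t → τ (δ b b') = ω * δ b b') ∧ (b' = bt t → ω * τ (δ b b') = δ b b') ∧
            (b ≠ bt t → b' ≠ bt t → τ (δ b b') = δ b b')) ∧
      ∀ b b', BPl ℓ h b → BPl ℓ h b' → b ≠ b' → b ≠ bt t → b' ≠ bt t → ∀ N : ℕ,
        Moves (Φ₁ (F v) ^ N) _ b b → Moves (Φ₁ (F v) ^ N) _ b' b' →
        (F v ^ N) (δ b b') =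
          algebraMap k E ((sgn (k := k) ℓ (Φ₁ (F v) ^ N) P (zz b b') : kˣ) : k) * δ b b' := by
    intro v
    by_cases hv : ∃ e, (v, e) ∈ S
    · obtain ⟨e, hv⟩ := hv
      obtain ⟨hg, hne, hlab⟩ := (hS v e).1 hv
      have hram : IsRam ℓ v c := (isRam_iff_lab hn hc hlab hln).2 hne
      obtain ⟨h1, h2, h3⟩ := hdec v hg
      obtain ⟨b₀, P, Q, hb, hP, hQ, hm, hmQ, hgr, hτ, hs⟩ :=
        hδ.odd v (fun h4 => hBad v h4 hg) hram (O v) (F v) (p' v) (f' v) h1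
      refine ⟨θ b₀, P, fun e' _ => ?_⟩
      have e : bt (θ b₀) = b₀ := G.bt_θ b₀ hb
      rw [e]
      refine ⟨G.mem b₀ hb, ?_, hP, ⟨Q, hQ, hmQ⟩, hgr, hτ, hs⟩
      have h5 := (G.act (F v) b₀ b₀ hb hb).1 hm
      rw [h3] at h5
      exact ι.injective h5
    · exact ⟨0, Classical.arbitrary _, fun e h1 => absurd ⟨e, h1⟩ hv⟩
  choose t P hl using hloc
  refine ⟨D, t, P, ?_, fun v e hv => ?_⟩
  swap
  · obtain ⟨hg, hne, hlab⟩ := (hS v e).1 hv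
    refine ⟨⟨hne, fun d hd hdo => ?_⟩, (hl v e hv).2.2.1, (hl v e hv).2.2.2.1⟩
    have h1 := (hl v e hv).2.2.2.2.1 d hd hdo
    rw [isRam_iff_lab hn hc hlab hd, not_not] at h1
    exact h1
  -- the action of the test element
  have hodd : ∀ {p : ℕ} {v : Pr k}, p.Prime → ¬ p ∣ X.M → (p : 𝓞 k) ∈ v.asIdeal → ∀ e,
      (v, e) ∈ S → ∃ (τ : E ≃ₐ[k] E) (s ζ : E), Inert (O v) τ.toRingEquiv ∧ s ^ ℓ = (p : E) ∧
        τ s = ζ * s ∧ IsPrimitiveRoot ζ ℓ ∧ ∀ b b', BPl ℓ h b → BPl ℓ h b' → b ≠ b' →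
          (b = bt (t v) → τ (δ b b') = ζ ^ (w (t v) e : ℤ) * δ b b') ∧
          (b' = bt (t v) → τ (δ b b') = ζ ^ (-(w (t v) e : ℤ)) * δ b b') ∧
          (b ≠ bt (t v) → b' ≠ bt (t v) → τ (δ b b') = δ b b') := by
    intro p v hp hpM hpv e hv
    obtain ⟨hg, hne, hlab⟩ := (hS v e).1 hv
    obtain ⟨h1, h2, h3⟩ := hdec v hg
    obtain ⟨τ, s, ζ, hτ, hs, hζ, hprim⟩ := exists_tau X hℓ hp hpM hpv h1
    refine ⟨τ, s, ζ, hτ, hs, hζ, hprim, ?_⟩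
    have hζ0 : ζ ≠ 0 := hprim.ne_zero hℓ.ne_zero
    obtain ⟨d, hd⟩ := IsAlgClosed.exists_pow_nat_eq (algebraMap k E c) hℓ.pos
    have hd0 : d ≠ 0 := by
      rintro rfl
      rw [zero_pow hℓ.ne_zero] at hd
      exact (map_ne_zero _).2 hc hd.symm
    obtain ⟨a, ha, hna⟩ := unif_of_lab X hp hpM hpv hc hlab
    have hla : (ℓ : ℤ) ∣ a + (e : ℕ) := (Int.natCast_dvd_natCast.2 hln).trans hna
    have htk := tau_k X ι hℓ hlM hp hpM hpv h1 h2 G.gen hτ hs hζ hd ha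
    have hτd : τ d ≠ d := by
      intro h4
      rw [h4] at htk
      have h5 : ζ ^ a = 1 := by
        apply mul_left_cancel₀ hd0
        rw [htk, mul_one]
      have h6 := (hprim.zpow_eq_one_iff_dvd _).1 h5
      apply hne
      have h7 : (ℓ : ℤ) ∣ ((e : ℕ) : ℤ) := (dvd_add_right h6).1 hla
      exact_mod_cast h7
    obtain ⟨ω, hω, hωd, hωb⟩ := (hl v e hv).2.2.2.2.2.1 τ hτ d hd hτd
    have hτd0 : τ d ≠ 0 := (map_ne_zero _).2 hd0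
    obtain ⟨o, ho⟩ : ∃ o : ℤ, o = ord (bt (t v)).ring (inL0 h) := ⟨_, rfl⟩
    rw [← ho] at hωd
    have hoz : ω ^ o = ζ ^ a := by
      apply mul_right_cancel₀ hτd0
      rw [hωd, mul_comm, htk]
    have hNe : NeZero ℓ := ⟨hℓ.ne_zero⟩
    obtain ⟨i, -, hi⟩ := hprim.eq_pow_of_pow_eq_one hω
    have hBt : ¬ (ℓ : ℤ) ∣ o := by
      rw [ho]
      exact G.bt_mem _ (hl v e hv).1
    have hwo := hw _ (hl v e hv).1 e hne
    rw [← ho] at hwo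
    have hiw : (ℓ : ℤ) ∣ (i : ℤ) - w (t v) e := by
      have h4 : ζ ^ ((i : ℤ) * o - a) = 1 := by
        rw [zpow_sub₀ hζ0, zpow_mul, zpow_natCast, hi, hoz, div_self (zpow_ne_zero _ hζ0)]
      have h5 := (hprim.zpow_eq_one_iff_dvd _).1 h4
      have h6 : (ℓ : ℤ) ∣ ((i : ℤ) - w (t v) e) * o := by
        have e1 : ((i : ℤ) - w (t v) e) * o = ((i : ℤ) * o - a) + (a + (e : ℕ)) -
          (w (t v) e * o + (e : ℕ)) := by ring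
        rw [e1]
        exact dvd_sub (dvd_add h5 hla) hwo
      rcases (Nat.prime_iff_prime_int.1 hℓ).dvd_or_dvd h6 with h7 | h7
      · exact h7
      · exact absurd h7 hBt
    have hωw : ω = ζ ^ (w (t v) e : ℤ) := by
      have h4 : ζ ^ ((i : ℤ) - w (t v) e) = 1 := (hprim.zpow_eq_one_iff_dvd _).2 hiw
      rw [zpow_sub₀ hζ0, div_eq_one_iff_eq (zpow_ne_zero _ hζ0), zpow_natCast ζ i, hi] at h4
      exact h4
    have hω0 : ω ≠ 0 := by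
      rw [hωw]
      exact zpow_ne_zero _ hζ0
    intro b b' hb hb' hbb
    obtain ⟨g1, g2, g3⟩ := hωb b b' hb hb' hbb
    refine ⟨fun h4 => ?_, fun h4 => ?_, g3⟩
    · rw [g1 h4, hωw]
    · rw [zpow_neg, ← hωw]
      have h5 := g2 h4
      calc τ (δ b b') = ω⁻¹ * (ω * τ (δ b b')) := by rw [← mul_assoc, inv_mul_cancel₀ hω0, one_mul]
        _ = ω⁻¹ * δ b b' := by rw [h5]
  refine ⟨hc, hS, ?_, ?_, fun v e hv => (hl v e hv).1, fun v e hv => (hl v e hv).2.1, ?_, ?_, ?_,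
    ?_⟩
  · intro x hx x' hx' hne h0
    have h1 := hDy x x' hx hx' hne
    rw [h0, map_zero] at h1
    exact pow_ne_zero _ (hδ0 hx hx' hne) h1.symm
  · intro σ x hx x' hx' hne
    obtain ⟨g, hg⟩ := exists_lift13 ι σ
    have hx1 := X.conj_mem hx σ
    have hx1' := X.conj_mem hx' σ
    refine ι.injective (?_ : ι (σ (D x x')) = ι (D (σ x) (σ x')))
    rw [hDy _ _ hx1 hx1' (fun h' => hne (σ.injective h')), ← hg, hDy x x' hx hx' hne]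
    refine hδ.eqv g _ _ _ _ (G.bt_mem x hx) (G.bt_mem x' hx') (hbne hx hx' hne) ?_ ?_
    · rw [G.act g _ _ (G.bt_mem x hx) (G.bt_mem _ hx1), G.θ_bt x hx, G.θ_bt _ hx1]
      exact hg x
    · rw [G.act g _ _ (G.bt_mem x' hx') (G.bt_mem _ hx1'), G.θ_bt x' hx', G.θ_bt _ hx1']
      exact hg x'
  · intro p v hp hpM hpv hv x hx x' hx' hne
    have hg : Gd X.M v := ⟨p, hp, hpM, hpv⟩
    obtain ⟨h1, h2, h3⟩ := hdec v hg
    obtain ⟨τ, s, ζ, hτ, hs, hζ, hprim⟩ := exists_tau X hℓ hp hpM hpv h1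
    obtain ⟨e, hlab⟩ := exists_lab v hn hc
    have hle : ℓ ∣ (e : ℕ) := by
      by_contra hcon
      exact hv e ((hS v e).2 ⟨hg, hcon, hlab⟩)
    obtain ⟨a, ha, hna⟩ := unif_of_lab X hp hpM hpv hc hlab
    have hla : (ℓ : ℤ) ∣ a := by
      have h4 : (ℓ : ℤ) ∣ a + (e : ℕ) := (Int.natCast_dvd_natCast.2 hln).trans hna
      exact (dvd_add_left (by exact_mod_cast hle)).1 h4
    have hza : ζ ^ a = 1 := (hprim.zpow_eq_one_iff_dvd _).2 hla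
    refine vz_of X ι hℓ hlM hp hpM hpv h2 G.gen hτ hs hζ hprim (hδ0 hx hx' hne)
      (hDy x x' hx hx' hne) ?_
    rw [zpow_zero, one_mul]
    refine hδ.even v (fun h4 => hBad v h4 hg) (O v) (F v) (p' v) (f' v) h1 τ hτ ?_ _ _
      (G.bt_mem x hx) (G.bt_mem x' hx') (hbne hx hx' hne)
    intro d hd
    have htk := tau_k X ι hℓ hlM hp hpM hpv h1 h2 G.gen hτ hs hζ hd ha
    rwa [hza, mul_one] at htk
  · intro p v hp hpM hpv e hv x hx x' hx' hne hxt hxt'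
    have hg : Gd X.M v := ⟨p, hp, hpM, hpv⟩
    obtain ⟨h1, h2, h3⟩ := hdec v hg
    obtain ⟨τ, s, ζ, hτ, hs, hζ, hprim, hb⟩ := hodd hp hpM hpv e hv
    refine vz_of X ι hℓ hlM hp hpM hpv h2 G.gen hτ hs hζ hprim (hδ0 hx hx' hne)
      (hDy x x' hx hx' hne) ?_
    rw [zpow_zero, one_mul]
    exact (hb _ _ (G.bt_mem x hx) (G.bt_mem x' hx') (hbne hx hx' hne)).2.2
      (hbne hx (hl v e hv).1 hxt) (hbne hx' (hl v e hv).1 hxt')
  · intro p v hp hpM hpv e hv x hx hxt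
    have hg : Gd X.M v := ⟨p, hp, hpM, hpv⟩
    obtain ⟨h1, h2, h3⟩ := hdec v hg
    obtain ⟨τ, s, ζ, hτ, hs, hζ, hprim, hb⟩ := hodd hp hpM hpv e hv
    have ht := (hl v e hv).1
    constructor
    · refine vz_of X ι hℓ hlM hp hpM hpv h2 G.gen hτ hs hζ hprim (hδ0 ht hx hxt.symm)
        (hDy _ x ht hx hxt.symm) ?_
      exact (hb _ _ (G.bt_mem _ ht) (G.bt_mem x hx) (hbne ht hx hxt.symm)).1 rfl
    · refine vz_of X ι hℓ hlM hp hpM hpv h2 G.gen hτ hs hζ hprim (hδ0 hx ht hxt)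
        (hDy x _ hx ht hxt) ?_
      exact (hb _ _ (G.bt_mem x hx) (G.bt_mem _ ht) (hbne hx ht hxt)).2.1 rfl
  · intro p v hp hpM hpv e hv x hx x' hx' hne hxt hxt' N hN hFx hFx' a ha
    have hg : Gd X.M v := ⟨p, hp, hpM, hpv⟩
    obtain ⟨h1, h2, h3⟩ := hdec v hg
    refine signL X ι hℓ hlM hp hpM hpv h1 h2 hmu hN (hDy x x' hx hx' hne) ha ?_
    have hpow : ∀ (N : ℕ) (z : L), (F v ^ N) (ι z) = ι ((X.F v ^ N) z) := by
      intro N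
      induction N with
      | zero => intro z; rfl
      | succ N ih =>
        intro z
        rw [pow_succ, AlgEquiv.mul_apply, h3, ih, pow_succ, AlgEquiv.mul_apply]
    refine (hl v e hv).2.2.2.2.2.2 _ _ (G.bt_mem x hx) (G.bt_mem x' hx') (hbne hx hx' hne)
      (hbne hx (hl v e hv).1 hxt) (hbne hx' (hl v e hv).1 hxt') N ?_ ?_
    · rw [← map_pow, G.act _ _ _ (G.bt_mem x hx) (G.bt_mem x hx), G.θ_bt x hx, hpow, hFx]
    · rw [← map_pow, G.act _ _ _ (G.bt_mem x' hx') (G.bt_mem x' hx'), G.θ_bt x' hx', hpow, hFx']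

/-- the weights modulo `ℓ` -/
theorem exists_w {L : Type} {n ℓ : ℕ} (hℓ : ℓ.Prime) (o : L → ℤ) :
    ∃ w : L → Fin n → ℕ, (∀ x, ¬ (ℓ : ℤ) ∣ o x → ∀ e : Fin n, ¬ ℓ ∣ (e : ℕ) →
      (ℓ : ℤ) ∣ w x e * o x + (e : ℕ)) ∧ ∀ x (e : Fin n), ¬ ℓ ∣ w x e := by
  have h : ∀ (x : L) (e : Fin n), ∃ w : ℕ, (¬ (ℓ : ℤ) ∣ o x → ¬ ℓ ∣ (e : ℕ) →
      (ℓ : ℤ) ∣ w * o x + (e : ℕ)) ∧ ¬ ℓ ∣ w := by
    intro x e
    by_cases hx : (ℓ : ℤ) ∣ o x ∨ ℓ ∣ (e : ℕ)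
    · refine ⟨1, fun h h' => absurd hx (by tauto), fun h => hℓ.one_lt.ne' (Nat.dvd_one.1 h)⟩
    · rw [not_or] at hx
      obtain ⟨hx, he⟩ := hx
      have hcop : IsCoprime (ℓ : ℤ) (o x) :=
        (Nat.prime_iff_prime_int.1 hℓ).coprime_iff_not_dvd.2 hx
      obtain ⟨a, b, hab⟩ := hcop
      have hl0 : (0 : ℤ) < ℓ := by exact_mod_cast hℓ.pos
      obtain ⟨w, hw⟩ : ∃ w : ℤ, w = (-(e : ℕ) * b) % ℓ := ⟨_, rfl⟩
      have hw0 : 0 ≤ w := by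
        rw [hw]
        exact Int.emod_nonneg _ hl0.ne'
      have h1 : ((w.toNat : ℕ) : ℤ) = w := Int.toNat_of_nonneg hw0
      have h2 : (ℓ : ℤ) ∣ w * o x + (e : ℕ) := by
        have h3 := Int.emod_add_mul_ediv (-(e : ℕ) * b) ℓ
        rw [← hw] at h3
        refine ⟨a * (e : ℕ) - ((-(e : ℕ) * b) / ℓ) * o x, ?_⟩
        have h4 : w = -(e : ℕ) * b - ℓ * ((-(e : ℕ) * b) / ℓ) := by linarith
        rw [h4]
        linear_combination (-((e : ℕ) : ℤ)) * hab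
      refine ⟨w.toNat, fun _ _ => by rw [h1]; exact h2, fun hlw => he ?_⟩
      have h3 : (ℓ : ℤ) ∣ w := by
        rw [← h1]
        exact_mod_cast hlw
      have h4 : (ℓ : ℤ) ∣ ((e : ℕ) : ℤ) := (dvd_add_right (h3.mul_right _)).1 h2
      exact_mod_cast h4
  choose w hw using h
  exact ⟨w, fun x hx e he => (hw x e).1 hx he, fun x e => (hw x e).2⟩

end Pool.Agent.ML
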