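import Pool.Agent.Helper13.ML.Dat2
import Pool.Agent.Helper13.M.Fin3
import Pool.Agent.Helper97.LN3.Fin

/-!
# Project ML: preparations for the assembly
-/

set_option autoImplicit false
set_option linter.unusedSectionVars false

namespace Pool.Agent.ML

open VC IntermediateField NumberField IsDedekindDomain Pool.Agent.SC
open Pool.Agent.L (Inert L0 MM SamePlace OverV)
open Pool.Agent.LN (Geo Act HasSec GoodCurve IsRam DecPt)
open Pool.Agent.M (UR NN Moves OverPl inL0 lt_iff13 eq_iff13 eq_iffk13 exists_res13 exists_lift13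
  mem_range13 inert_triv13 phi_mem59 phi_inv59 phi_inv59' map_UR99 exists_below13 frob_below13
  exists_M13)
open Pool.Agent.HG (Pr nm Ctx Gd)

/-- The roots of `f` in `E` are the branch points. -/
structure GlE {k K0 E U : Type} [Field k] [Field K0] [Field E] [Field U] [Algebra k K0]
    [Algebra k E] [Algebra E U] [Algebra K0 U] [Algebra k U] (n ℓ : ℕ) (h : K0) (r : U)
    (f : Polynomial k) (θ : Place E (L0 E K0 (U := U)) → E) : Prop where
  sep : f.Separable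
  noroot : ∀ b, BPl ℓ h b → Tot n h b → ∀ a : k, θ b ≠ algebraMap k E a
  root : ∀ b, BPl ℓ h b → Polynomial.aeval (θ b) f = 0
  ex : ∀ x : E, Polynomial.aeval x f = 0 → ∃ b, BPl ℓ h b ∧ θ b = x
  inj : ∀ b b', BPl ℓ h b → BPl ℓ h b' → θ b = θ b' → b = b'
  act : ∀ (c : k) (Φ : (E ≃ₐ[k] E) →* (U ≃+* U)), c ≠ 0 → Act (K0 := K0) n r c Φ →
    ∀ (g : E ≃ₐ[k] E) b b', BPl ℓ h b → BPl ℓ h b' → (Moves (Φ g) _ b b' ↔ g (θ b) = θ b')
  ord : ∀ (g : E ≃ₐ[k] E) b b', BPl ℓ h b → BPl ℓ h b' → g (θ b) = θ b' →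
    ord b.ring (inL0 h) = ord b'.ring (inL0 h)

theorem exists_glE (hNR : StmtNR) (hFB : M.StmtFB) {k K0 E U : Type} [Field k] [NumberField k]
    [Field K0] [Field E] [Field U] [Algebra k K0]
    [Algebra k E] [Algebra E U] [Algebra K0 U] [Algebra k U] [IsScalarTower k E U]
    [IsScalarTower k K0 U] {n ℓ : ℕ} (hn : 0 < n) (hℓ : ℓ.Prime) (hln : ℓ ∣ n) (hmu : HasMu k ℓ)
    {h : K0} {r : U} (G : Geo k K0 E U n h r) (hN : ¬ RatTot k n h)
    {c₀ : k} {Φ₀ : (E ≃ₐ[k] E) →* (U ≃+* U)} (hc₀ : c₀ ≠ 0) (hA₀ : Act (K0 := K0) n r c₀ Φ₀) :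
    ∃ (f : Polynomial k) (θ : Place E (L0 E K0 (U := U)) → E), GlE n ℓ h r f θ := by
  classical
  have hclE : IsAlgClosed E := G.clE
  have halg : Algebra.IsAlgebraic k E := G.algE
  obtain ⟨hfin, hperm⟩ := hNR k K0 E U n ℓ h r hn hℓ hln hmu G
  obtain ⟨hp1, hp2, hp3, hp4, hfix⟩ := hperm c₀ Φ₀ hc₀ hA₀
  let B := {b : Place E (L0 E K0 (U := U)) // BPl ℓ h b}
  have hBf : Finite B := hfin.to_subtype
  choose act hact hact' using hp1
  have hBPl : ∀ (g : E ≃ₐ[k] E) (b : Place E (L0 E K0 (U := U))), BPl ℓ h b → BPl ℓ h (act g b) := by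
    intro g b hb
    unfold BPl at hb ⊢
    rw [← hp2 g b _ (hact g b)]
    exact hb
  -- the action
  have hL0 : ∀ (g : E ≃ₐ[k] E) (x : U), x ∈ L0 E K0 (U := U) → Φ₀ g x ∈ L0 E K0 (U := U) :=
    fun g x hx => phi_mem59 (toL hA₀) g hx
  have hone : ∀ b, act 1 b = b := by
    intro b
    refine (hact' 1 b b ?_).symm
    intro x hx hx'
    have h1 : Φ₀ 1 x = x := by rw [map_one]; rfl
    simp only [h1]
  have hmul : ∀ g g' b, act (g * g') b = act g (act g' b) := by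
    intro g g' b
    refine (hact' (g * g') b _ ?_).symm
    intro x hx hx'
    have h1 : Φ₀ (g * g') x = Φ₀ g (Φ₀ g' x) := by rw [map_mul]; rfl
    have h2 := hact g' b x hx (hL0 g' x hx)
    have h3 := hact g (act g' b) (Φ₀ g' x) (hL0 g' x hx) (hL0 g _ (hL0 g' x hx))
    rw [h2, h3]
    simp only [h1]
  let _ : MulAction (E ≃ₐ[k] E) B :=
    { smul := fun g b => ⟨act g b.1, hBPl g b.1 b.2⟩
      one_smul := fun b => Subtype.ext (hone b.1)
      mul_smul := fun g g' b => Subtype.ext (hmul g g' b.1) }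
  have hsm : ∀ (g : E ≃ₐ[k] E) (b : B), ((g • b : B) : Place E (L0 E K0 (U := U))) = act g b.1 :=
    fun g b => rfl
  obtain ⟨f, θ0, hsep, hdeg, hinj, hroot, hθ⟩ := hFB k E B fun b => by
    obtain ⟨L, hL, hLb⟩ := hp4 b.1
    exact ⟨L, hL, fun g hg => Subtype.ext (hact' g b.1 b.1 (hLb g hg)).symm⟩
  have hf0 : f ≠ 0 := hsep.ne_zero
  let θ : Place E (L0 E K0 (U := U)) → E := fun b => if hb : BPl ℓ h b then θ0 ⟨b, hb⟩ else 0
  have hθe : ∀ b (hb : BPl ℓ h b), θ b = θ0 ⟨b, hb⟩ := fun b hb => dif_pos hb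
  have hact0 : ∀ (g : E ≃ₐ[k] E) b b', BPl ℓ h b → BPl ℓ h b' →
      (Moves (Φ₀ g) _ b b' ↔ g (θ b) = θ b') := by
    intro g b b' hb hb'
    rw [hθe b hb, hθe b' hb', hθ]
    constructor
    · intro h1
      have h2 := hact' g b b' h1
      congr 1
      exact Subtype.ext h2.symm
    · intro h1
      have h2 : act g b = b' := congrArg Subtype.val (hinj h1)
      rw [← h2]
      exact hact g b
  refine ⟨f, θ, hsep, ?_, ?_, ?_, ?_, ?_, ?_⟩
  · intro b hb hT a ha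
    obtain ⟨σ, hσ⟩ := hfix hN b hT
    apply hσ
    rw [hact0 σ b b hb hb, ha, AlgEquiv.commutes]
  · intro b hb
    rw [hθe b hb]
    exact (hroot _).2 ⟨_, rfl⟩
  · intro x hx
    obtain ⟨b, hb⟩ := (hroot x).1 hx
    exact ⟨b.1, b.2, by rw [hθe b.1 b.2]; exact hb⟩
  · intro b b' hb hb' hbb
    rw [hθe b hb, hθe b' hb'] at hbb
    exact congrArg Subtype.val (hinj hbb)
  · intro c Φ hc hA g b b' hb hb'
    rw [← hp3 c Φ hc hA g b b']
    exact hact0 g b b' hb hb'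
  · intro g b b' hb hb' hbb
    exact hp2 g b b' ((hact0 g b b' hb hb').2 hbb)

/-- `ℓ`-th roots for all pairs -/
theorem exists_zz (hZ : StmtZ) {k K0 E U : Type} [Field k] [NumberField k]
    [Field K0] [Field E] [Field U] [Algebra k K0]
    [Algebra k E] [Algebra E U] [Algebra K0 U] [Algebra k U] [IsScalarTower k E U]
    [IsScalarTower k K0 U] {n ℓ : ℕ} (hn : 0 < n) (hℓ : ℓ.Prime) (hln : ℓ ∣ n) (hmu : HasMu k ℓ)
    {h : K0} {r : U} (G : Geo k K0 E U n h r) :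
    ∃ zz : Place E (L0 E K0 (U := U)) → Place E (L0 E K0 (U := U)) → U,
      ∀ b b', BPl ℓ h b → BPl ℓ h b' → b ≠ b' → IsZ ℓ b b' (zz b b') := by
  classical
  have h1 : ∀ b b' : Place E (L0 E K0 (U := U)), ∃ z : U, BPl ℓ h b → BPl ℓ h b' → b ≠ b' →
      IsZ ℓ b b' z := by
    intro b b'
    by_cases hb : BPl ℓ h b ∧ BPl ℓ h b' ∧ b ≠ b'
    · obtain ⟨z, hz⟩ := hZ k K0 E U n ℓ h r hn hℓ hln hmu G b b' hb.1 hb.2.1 hb.2.2
      exact ⟨z, fun _ _ _ => hz⟩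
    · exact ⟨0, fun h1 h2 h3 => absurd ⟨h1, h2, h3⟩ hb⟩
  choose zz hzz using h1
  exact ⟨zz, hzz⟩

section glL

variable {k K0 E U : Type} [Field k] [NumberField k] [Field K0] [Field E] [IsAlgClosed E]
  [Field U] [Algebra k K0] [Algebra k E] [Algebra E U] [Algebra K0 U] [Algebra k U]
  {L : Type} [Field L] [NumberField L] [Algebra k L] [IsGalois k L]
  {n ℓ : ℕ} {h : K0} {r : U} {f : Polynomial k} {θ : Place E (L0 E K0 (U := U)) → E}
  (Gl' : GlE n ℓ h r f θ) (ι : L →ₐ[k] E) (hs : (f.map (algebraMap k L)).Splits)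

include Gl' hs in
/-- the branch points and the roots in `L` -/
theorem exists_root {b : Place E (L0 E K0 (U := U))} (hb : BPl ℓ h b) :
    ∃ x ∈ f.rootSet L, ι x = θ b := by
  have h1 : θ b ∈ f.rootSet E := by
    rw [Polynomial.mem_rootSet]
    exact ⟨Gl'.sep.ne_zero, Gl'.root b hb⟩
  rw [← Polynomial.Splits.image_rootSet hs ι] at h1
  exact h1

include Gl' in
theorem exists_place {x : L} (hx : x ∈ f.rootSet L) : ∃ b, BPl ℓ h b ∧ θ b = ι x := by
  refine Gl'.ex (ι x) ?_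
  rw [Polynomial.mem_rootSet] at hx
  rw [Polynomial.aeval_algHom_apply, hx.2, map_zero]

/-- the branch points and the roots in the splitting field -/
theorem exists_gl [NumberField f.SplittingField] [IsGalois k f.SplittingField]
    (Gl' : GlE n ℓ h r f θ) (ι : f.SplittingField →ₐ[k] E) (b₀ : Place E (L0 E K0 (U := U))) :
    ∃ (θL : Place E (L0 E K0 (U := U)) → f.SplittingField)
      (bt : f.SplittingField → Place E (L0 E K0 (U := U))),
      (∀ x ∈ f.rootSet f.SplittingField, BPl ℓ h (bt x) ∧ θ (bt x) = ι x) ∧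
      (∀ b, BPl ℓ h b → bt (θL b) = b ∧ θL b ∈ f.rootSet f.SplittingField ∧ ι (θL b) = θ b) ∧
      ∀ (X : Ctx k f.SplittingField f) (c : k) (Φ : (E ≃ₐ[k] E) →* (U ≃+* U)), c ≠ 0 →
        Act (K0 := K0) n r c Φ → Gl ℓ h Φ X ι θL bt := by
  classical
  have hsplit : (f.map (algebraMap k f.SplittingField)).Splits := Polynomial.SplittingField.splits f
  have h1 : ∀ b : Place E (L0 E K0 (U := U)), ∃ x : f.SplittingField, BPl ℓ h b →
      x ∈ f.rootSet f.SplittingField ∧ ι x = θ b := by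
    intro b
    by_cases hb : BPl ℓ h b
    · obtain ⟨x, hx, hx'⟩ := exists_root Gl' ι hsplit hb
      exact ⟨x, fun _ => ⟨hx, hx'⟩⟩
    · exact ⟨0, fun h => absurd h hb⟩
  choose θL hθL using h1
  have h2 : ∀ x : f.SplittingField, ∃ b : Place E (L0 E K0 (U := U)),
      x ∈ f.rootSet f.SplittingField → BPl ℓ h b ∧ θ b = ι x := by
    intro x
    by_cases hx : x ∈ f.rootSet f.SplittingField
    · obtain ⟨b, hb⟩ := exists_place Gl' ι hx
      exact ⟨b, fun _ => hb⟩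
    · exact ⟨b₀, fun h => absurd h hx⟩
  choose bt hbt using h2
  have hbt' : ∀ b, BPl ℓ h b → bt (θL b) = b := by
    intro b hb
    have h3 := hθL b hb
    have h4 := hbt _ h3.1
    exact Gl'.inj _ _ h4.1 hb (h4.2.trans h3.2)
  refine ⟨θL, bt, hbt, fun b hb => ⟨hbt' b hb, hθL b hb⟩, fun X c Φ hc hA => ⟨?_, ?_, hbt', ?_, ?_, ?_⟩⟩
  · intro b hb
    rw [X.mem_Ω]
    exact (hθL b hb).1
  · intro x hx
    rw [X.mem_Ω] at hx
    exact (hbt x hx).1
  · intro x hx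
    rw [X.mem_Ω] at hx
    have h3 := hbt x hx
    have h4 := hθL _ h3.1
    exact ι.injective (h4.2.trans h3.2)
  · intro g b b' hb hb'
    rw [Gl'.act c Φ hc hA g b b' hb hb', (hθL b hb).2, (hθL b' hb').2]
  · intro σ hσ
    have h3 : Algebra.adjoin k (f.rootSet f.SplittingField) = ⊤ :=
      Polynomial.SplittingField.adjoin_rootSet f
    have h4 : (σ : f.SplittingField →ₐ[k] f.SplittingField) = AlgHom.id k f.SplittingField := by
      refine AlgHom.ext_of_adjoin_eq_top h3 fun x hx => ?_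
      exact hσ x ((X.mem_Ω x).2 hx)
    ext x
    exact DFunLike.congr_fun h4 x

omit [NumberField k] [IsAlgClosed E] [Algebra k K0] [Algebra k E] [Algebra k U] [Field k] in
theorem exists_pl [IsAlgClosed E] [CharZero E] (ℓ : ℕ) {b : Place E (L0 E K0 (U := U))} :
    Nonempty (Place E (NN E K0 ℓ (U := U))) := by
  obtain ⟨W, hW⟩ := _root_.SC.exists_place_over (K := E) (M := L0 E K0 (U := U)) (N := U) b
  obtain ⟨x, hx⟩ : ∃ x : L0 E K0 (U := U), x ∉ b.ring := by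
    by_contra hcon
    push Not at hcon
    exact b.ne_top (eq_top_iff.mpr fun x _ => hcon x)
  exact ⟨resPlace W.ring W.algebraMap_mem _ ⟨x, M.L0_le99 x.2, fun h => hx ((hW x).1 h)⟩⟩

end glL

section act

variable {k K0 E U : Type} [Field k] [NumberField k] [Field K0] [Field E] [Field U] [Algebra k K0]
  [Algebra k E] [Algebra E U] [Algebra K0 U] [Algebra k U] [IsScalarTower k E U]
  [IsScalarTower k K0 U] {n : ℕ} {h : K0} {r : U} (G : Geo k K0 E U n h r) {c : k}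
  {Φ : (E ≃ₐ[k] E) →* (U ≃+* U)} (hA : Act (K0 := K0) n r c Φ)

include G hA in
theorem ur_act (g : E ≃ₐ[k] E) {N : ℕ} {w : U} (hw : UR E K0 N w) : UR E K0 N (Φ g w) := by
  have hcl := G.clE
  exact map_UR99 G.ff (Φ g) (Φ g⁻¹) g (hA.const g) (hA.fixK g) (fun e => hA.const g⁻¹ e)
    (hA.fixK g⁻¹) (phi_inv59 Φ g) (phi_inv59' Φ g) hw

include G hA in
/-- `QM` for conjugates -/
theorem qm_conj {ℓ m : ℕ} {σ : E ≃ₐ[k] E} (h : QM E K0 ℓ m (Φ σ)) (g : E ≃ₐ[k] E) :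
    QM E K0 ℓ m (Φ (g * σ * g⁻¹)) := by
  obtain ⟨a, ha, hc, w, hw, hne⟩ := h
  have e1 : ∀ e : E, Φ g⁻¹ (algebraMap E U e) = algebraMap E U (g⁻¹ e) := fun e => hA.const g⁻¹ e
  have e2 : ∀ e : E, g (g⁻¹ e) = e := fun e => g.apply_symm_apply e
  have e3 : ∀ x : U, Φ (g * σ * g⁻¹) x = Φ g (Φ σ (Φ g⁻¹ x)) := by
    intro x
    rw [map_mul, map_mul]
    rfl
  let a' : U ≃ₐ[E] U := AlgEquiv.ofRingEquiv (f := (Φ g⁻¹).trans (a.toRingEquiv.trans (Φ g))) (by
    intro e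
    change Φ g (a (Φ g⁻¹ (algebraMap E U e))) = algebraMap E U e
    rw [e1, a.commutes, hA.const, e2])
  have ha' : ∀ x : U, a' x = Φ g (a (Φ g⁻¹ x)) := fun x => rfl
  refine ⟨a', ?_, ?_, Φ g w, ur_act G hA g hw, ?_⟩
  · intro x hx
    rw [ha', ha _ (phi_mem59 (toL hA) g⁻¹ hx), phi_inv59]
  · intro x hx
    rw [ha', ha', e3, e3, phi_inv59', phi_inv59', hc _ (ur_act G hA g⁻¹ hx)]
  · intro h1
    rw [ha', phi_inv59'] at h1
    exact hne ((Φ g).injective h1)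

include G hA in
/-- `QM` for powers -/
theorem qm_zpow {ℓ m : ℕ} {σ : E ≃ₐ[k] E} (h : QM E K0 ℓ m (Φ σ)) (N : ℤ) :
    QM E K0 ℓ m (Φ (σ ^ N)) := by
  obtain ⟨a, ha, hc, w, hw, hne⟩ := h
  refine ⟨a, ha, ?_, w, hw, hne⟩
  let S : Subgroup (E ≃ₐ[k] E) :=
    { carrier := {g | ∀ w : U, UR E K0 (ℓ ^ m) w → a (Φ g w) = Φ g (a w)}
      one_mem' := by
        intro w _
        rw [map_one]
        rfl
      mul_mem' := by
        intro g g' hg hg' w hw
        have e : ∀ x, Φ (g * g') x = Φ g (Φ g' x) := by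
          intro x
          rw [map_mul]
          rfl
        rw [e, e, hg _ (ur_act G hA g' hw), hg' _ hw]
      inv_mem' := by
        intro g hg w hw
        have h1 := hg _ (ur_act G hA g⁻¹ hw)
        rw [phi_inv59] at h1
        rw [h1, phi_inv59'] }
  have h1 : σ ∈ S := hc
  exact S.zpow_mem h1 N

end act

open scoped Classical in
/-- the set of primes where `QM` may hold -/
theorem exists_Q (hW3 : M.StmtW3) {k K0 E U : Type} [Field k] [NumberField k] [Field K0] [Field E]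
    [Field U] [Algebra k K0]
    [Algebra k E] [Algebra E U] [Algebra K0 U] [Algebra k U] [IsScalarTower k E U]
    [IsScalarTower k K0 U] {n : ℕ} {h : K0} {r : U} (G : Geo k K0 E U n h r) {c : k}
    {Φ : (E ≃ₐ[k] E) →* (U ≃+* U)} (hA : Act (K0 := K0) n r c Φ) {ℓ m : ℕ}
    (L : IntermediateField k E) (hLf : FiniteDimensional k L) (hLg : IsGalois k L) {ε : ℝ}
    (hε : (Nat.card {τ : L ≃ₐ[k] L // ∃ σ : E ≃ₐ[k] E, (∀ x : L, σ x = τ x) ∧
      QM E K0 ℓ m (Φ σ)} : ℝ) ≤ ε * Nat.card (L ≃ₐ[k] L))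
    (B : ℕ → Finset (Pr k)) (hB : ∀ x v, v ∈ B x ↔ nm v ≤ x) :
    ∃ (δ C : ℝ) (Bad Q : Set (Pr k)), δ ≤ ε ∧ Bad.Finite ∧
      (∀ v ∉ Bad, ∀ (O : ValuationSubring E) (F : E ≃ₐ[k] E) (p f : ℕ), DecPt v O F p f →
        v ∉ Q → ¬ QM E K0 ℓ m (Φ F)) ∧
      ∀ x : ℕ, 2 ≤ x → |∑ v ∈ (B x).filter (· ∈ Q), (1 : ℝ) / nm v -
        δ * Real.log (Real.log x)| ≤ C := by
  have hclE : IsAlgClosed E := G.clE
  have halg : Algebra.IsAlgebraic k E := G.algE
  have hNF : NumberField L := NumberField.of_module_finite k L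
  let C : Set (L ≃ₐ[k] L) := {τ | ∃ σ : E ≃ₐ[k] E, (∀ x : L, σ x = τ x) ∧ QM E K0 ℓ m (Φ σ)}
  obtain ⟨C₀, Bad, Q, hBad, hQ, hsum⟩ := hW3 k L C (by
    rintro τ ⟨σ, hσ, hQM⟩ τ' hττ
    have h1 : τ' ∈ Subgroup.zpowers τ := by
      rw [← hττ]
      exact Subgroup.mem_zpowers τ'
    obtain ⟨N, rfl⟩ := Subgroup.mem_zpowers_iff.1 h1
    refine ⟨σ ^ N, ?_, qm_zpow G hA hQM N⟩
    -- the lift of a power
    have hnat : ∀ (σ' : E ≃ₐ[k] E) (τ' : L ≃ₐ[k] L), (∀ x : L, σ' x = τ' x) → ∀ (j : ℕ) (x : L),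
        (σ' ^ j) x = (τ' ^ j) x := by
      intro σ' τ' h2 j
      induction j with
      | zero => intro x; rfl
      | succ j ih =>
        intro x
        rw [pow_succ, AlgEquiv.mul_apply, h2, ih, pow_succ, AlgEquiv.mul_apply]
    have hinv : ∀ x : L, σ⁻¹ x = τ⁻¹ x := by
      intro x
      have h3 := hσ (τ⁻¹ x)
      have h4 : τ (τ⁻¹ x) = x := τ.apply_symm_apply x
      rw [h4] at h3
      rw [← h3]
      exact σ.symm_apply_apply _
    intro x
    rcases Int.eq_nat_or_neg N with ⟨j, rfl | rfl⟩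
    · rw [zpow_natCast, zpow_natCast]
      exact hnat σ τ hσ j x
    · rw [zpow_neg, zpow_natCast, ← inv_pow, zpow_neg, zpow_natCast, ← inv_pow]
      exact hnat σ⁻¹ τ⁻¹ hinv j x) (by
    rintro τ ⟨σ, hσ, hQM⟩ g
    obtain ⟨g', hg'⟩ := exists_lift13 (E := E) L.val g
    have hg1 : ∀ x : L, g' x = g x := hg'
    have hg2 : ∀ x : L, g'⁻¹ x = g⁻¹ x := by
      intro x
      have h3 := hg1 (g⁻¹ x)
      have h4 : g (g⁻¹ x) = x := g.apply_symm_apply x
      rw [h4] at h3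
      rw [← h3]
      exact g'.symm_apply_apply _
    refine ⟨g' * σ * g'⁻¹, ?_, qm_conj G hA hQM g'⟩
    intro x
    rw [AlgEquiv.mul_apply, AlgEquiv.mul_apply, hg2, hσ, hg1, AlgEquiv.mul_apply,
      AlgEquiv.mul_apply]) B hB
  have hG0 : (0 : ℝ) < Nat.card (L ≃ₐ[k] L) := by
    have : 0 < Nat.card (L ≃ₐ[k] L) := Nat.card_pos
    exact_mod_cast this
  refine ⟨_, C₀, Bad, Q, ?_, hBad, ?_, hsum⟩
  · rw [div_le_iff₀ hG0]
    exact hε
  · intro v hv O F p f hD hvQ hQM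
    obtain ⟨P, hP, hPv⟩ := exists_below13 L.val (toLD hD)
    obtain ⟨σ, hσ⟩ := exists_res13 L.val F
    apply hvQ
    rw [hQ v hv P σ hPv (frob_below13 (toLD hD) hP hσ)]
    exact ⟨F, hσ, hQM⟩

end Pool.Agent.ML
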