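import Pool.Agent.Helper13.ML.Fin1
import Pool.Agent.Helper13.MP.Fin1
import Pool.Agent.Helper13.ML.G4P

/-!
# Project ML: the sets of labels of the classes with a section
-/

set_option autoImplicit false
set_option linter.unusedSectionVars false

namespace Pool.Agent.ML

open VC IntermediateField NumberField IsDedekindDomain Pool.Agent.SC
open Pool.Agent.L (Inert L0 MM SamePlace OverV)
open Pool.Agent.LN (Geo Act HasSec GoodCurve IsRam DecPt)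
open Pool.Agent.M (UR NN Moves OverPl inL0 lt_iff13 eq_iff13 eq_iffk13 exists_res13 exists_lift13
  mem_range13 inert_triv13 exists_M13)
open Pool.Agent.HG (Pr nm Ctx Gd)
open Pool.Agent.MP (SysR TAR coverK)
open Pool.Agent.Helper99.ML (BTb WJb TBRb)

open scoped Classical in
/-- the upper bound for the number of the sets of labels prime to `ℓ` -/
theorem upperL (hFIN : StmtFIN) (hZ : StmtZ) (hINT : StmtINT) (hLFT : StmtLFT) (hMU : StmtMU)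
    (hQMD : StmtQMD) (hW3 : M.StmtW3) (hSel : StmtSel) (hMert : HG.StmtMert) (hBTL : StmtBTL)
    (hThue : HG.StmtThue) (hG4 : StmtG4P) (hG1 : StmtG1) (hG2 : StmtG2)
    (hCount : Pool.Agent.Helper99.ML.StmtCountL)
    {k K0 E U : Type} [Field k] [NumberField k]
    [Field K0] [Field E] [Field U] [Algebra k K0]
    [Algebra k E] [Algebra E U] [Algebra K0 U] [Algebra k U] [IsScalarTower k E U]
    [IsScalarTower k K0 U] {n ℓ : ℕ} [NeZero ℓ] (hn : 0 < n) (hℓ : ℓ.Prime) (hln : ℓ ∣ n)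
    (hmu : HasMu k ℓ) {h : K0} {r : U} (G : Geo k K0 E U n h r)
    {f : Polynomial k} (hsep : f.Separable) (hdeg : 2 ≤ f.natDegree)
    [NumberField f.SplittingField] [IsGalois k f.SplittingField] (ι : f.SplittingField →ₐ[k] E)
    {θL : Place E (L0 E K0 (U := U)) → f.SplittingField}
    {bt : f.SplittingField → Place E (L0 E K0 (U := U))}
    (hGl : ∀ (X : Ctx k f.SplittingField f) (c : k) (Φ : (E ≃ₐ[k] E) →* (U ≃+* U)), c ≠ 0 →
      Act (K0 := K0) n r c Φ → Gl ℓ h Φ X ι θL bt)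
    (hpl : Nonempty (Place E (NN E K0 ℓ (U := U))))
    (Al : Fin n → f.SplittingField → Prop) (hAl : ∀ e θ, AlL (k := k) n ℓ h bt e θ → Al e θ)
    (R : Ctx k f.SplittingField f → Set (Pr k × Fin n)) (κ : ℝ) (hκ : 0 < κ)
    (hR : ∀ (X : Ctx k f.SplittingField f) (v : Pr k) (e : Fin n) (t : f.SplittingField),
      Gd X.M v → ¬ ℓ ∣ (e : ℕ) → t ∈ X.Ω → X.F v t = t → (v, e) ∈ R X)
    (hG3 : ∀ K : ℕ, ∃ ε : ℝ, 0 < ε ∧ ∀ (X : Ctx k f.SplittingField f) (hm : 0 < X.m)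
      (hfin : {v : Pr k | ¬ Gd X.M v}.Finite) (ι : Type) (Vι : Pr k → f.SplittingField → Finset ι)
      (w : f.SplittingField → Fin n → ℕ)
      (g : Pr k × Fin n → (Σ _ : f.SplittingField × rootsOfUnity ℓ k, ι) → f.SplittingField →
        rootsOfUnity ℓ k),
      (∀ v t, (Vι v t).card ≤ K) →
      ∀ Q : Set (Pr k), (∀ v ∉ Q, Gd X.M v → ∀ t, (Vι v t).card ≤ 1) →
      ∀ B : ℕ → Finset (Pr k), (∀ x v, v ∈ B x ↔ nm v ≤ x) → ∀ δ C : ℝ, δ ≤ ε →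
      (∀ x : ℕ, 2 ≤ x → |∑ v ∈ (B x).filter (· ∈ Q), (1 : ℝ) / nm v -
        δ * Real.log (Real.log x)| ≤ C) →
      SysR (Pr k × Fin n) (fun p => nm p.1) (R X) κ ∧
      (∃ K' : ℕ, ∀ p, ((cdL X n ℓ hm hfin ι Vι Al w g).V p).card ≤ K') ∧
      ∀ J : Finset (Fin X.m),
        TAR (cdL X n ℓ hm hfin ι Vι Al w g) (R X) J ∨
        TBRb (cdL X n ℓ hm hfin ι Vι Al w g) (1 / ℓ) (R X) κ J) :
    ∃ (M : ℕ) (η C : ℝ), M ≠ 0 ∧ 0 < η ∧ 0 < C ∧ ∀ Y : ℕ, 3 ≤ Y →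
      ∀ SS : Finset (Finset (Pr k × Fin n)),
      (∀ A ∈ SS, ∏ p ∈ A, nm p.1 ≤ Y ∧ ∃ c : k, c ≠ 0 ∧
        (∃ Φ : (E ≃ₐ[k] E) →* (U ≃+* U), Act (K0 := K0) n r c Φ) ∧
        ∀ v e, (v, e) ∈ A ↔ Gd M v ∧ ¬ ℓ ∣ (e : ℕ) ∧ Lab n v (e : ℕ) c) →
      (SS.card : ℝ) ≤ C * (Y * Real.log Y ^ (κ - 1)) / Real.log Y ^ η := by
  have hclE : IsAlgClosed E := G.clE
  have halg : Algebra.IsAlgebraic k E := G.algE
  have hcE : CharZero E := charZero_of_injective_algebraMap (algebraMap k E).injective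
  have hsplit : (f.map (algebraMap k f.SplittingField)).Splits := Polynomial.SplittingField.splits f
  -- the number of places over a place
  obtain ⟨⟨K, hK⟩, hMU2⟩ := hMU k K0 E U n ℓ h r hn hℓ hln hmu G
  -- the density
  obtain ⟨ε, hε, hG3'⟩ := hG3 K
  obtain ⟨m, Lm, hm1, hLf, hLg, hdens⟩ := hQMD k K0 E U n ℓ h r hn hℓ hln hmu G ε hε
  -- the finitely many actions
  obtain ⟨I, hI, c₁, Φ₁, hΦ₁, hcls⟩ := hFIN k K0 E U n ℓ h r hn hℓ hln hmu G m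
  obtain ⟨zz, hzz⟩ := exists_zz hZ hn hℓ hln hmu G
  choose Bad hBad hint using fun i => hINT k K0 E U n ℓ h r hn hℓ hln hmu G m hm1 (c₁ i) (Φ₁ i)
    (hΦ₁ i).1 (hΦ₁ i).2 zz hzz
  obtain ⟨B, hB⟩ := Pool.Agent.HG.exists_B5 k
  choose δ C₀ Bad' Q hδ hBad' hQ hsum using fun i => exists_Q hW3 G (hΦ₁ i).2 (ℓ := ℓ) (m := m) Lm
    hLf hLg (hdens (c₁ i) (Φ₁ i) (hΦ₁ i).1 (hΦ₁ i).2) B hB
  -- the excluded number
  obtain ⟨M₁, hM₁, hM₁v⟩ := exists_M13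
    ((Set.finite_iUnion hBad).union (Set.finite_iUnion hBad'))
  obtain ⟨M₂, hM₂, hlft⟩ := hLFT k f.SplittingField E ι
  obtain ⟨X, hMX, hm, hfin⟩ := hG4 hThue k f.SplittingField f hsep hsplit (by omega)
    (M₁ * M₂ * ℓ)
    (mul_ne_zero (mul_ne_zero hM₁ hM₂) hℓ.ne_zero)
  have hM₁X : M₁ ∣ X.M := ((Dvd.intro _ rfl).trans (Dvd.intro _ rfl)).trans hMX
  have hM₂X : M₂ ∣ X.M := ((Dvd.intro_left _ rfl).trans (Dvd.intro _ rfl)).trans hMX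
  have hlM : ℓ ∣ X.M := (Dvd.intro_left _ rfl).trans hMX
  have hXBad : ∀ i, ∀ v ∈ Bad i, ¬ Gd X.M v := fun i v hv =>
    hM₁v X.M hM₁X v (Or.inl (Set.mem_iUnion.2 ⟨i, hv⟩))
  have hXBad' : ∀ i, ∀ v ∈ Bad' i, ¬ Gd X.M v := fun i v hv =>
    hM₁v X.M hM₁X v (Or.inr (Set.mem_iUnion.2 ⟨i, hv⟩))
  -- the Frobenius elements
  have hlift : ∀ v : Pr k, ∃ (O : ValuationSubring E) (F : E ≃ₐ[k] E) (p f' : ℕ), Gd X.M v →
      DecPt v O F p f' ∧ (∀ z : f.SplittingField, ι z ∈ O ↔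
        (X.P v).valuation f.SplittingField z ≤ 1) ∧ ∀ z, F (ι z) = ι (X.F v z) := by
    intro v
    by_cases hv : Gd X.M v
    · obtain ⟨O, F, p, f', h1⟩ := hlft f X hM₂X v hv
      exact ⟨O, F, p, f', fun _ => h1⟩
    · exact ⟨⊤, 1, 0, 0, fun h1 => absurd h1 hv⟩
  choose O F p f' hdec using hlift
  -- the options
  let VS : I → Pr k → f.SplittingField → Set (Place E (NN E K0 ℓ (U := U))) := fun i v t =>
    {P | Gd X.M v ∧ OverPl (bt t) P ∧ ∃ Q : Place E (NN E K0 (ℓ ^ m) (U := U)), OverPl P Q ∧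
      Moves (Φ₁ i (F v)) _ Q Q}
  have hVSsub : ∀ i v t, VS i v t ⊆ {P : Place E (NN E K0 ℓ (U := U)) | OverPl (bt t) P} :=
    fun i v t P hP => hP.2.1
  have hVSfin : ∀ i v t, (VS i v t).Finite := fun i v t => (hK (bt t)).1.subset (hVSsub i v t)
  let Vι : I → Pr k → f.SplittingField → Finset (Place E (NN E K0 ℓ (U := U))) := fun i v t =>
    (hVSfin i v t).toFinset
  have hVιmem : ∀ i v t P, P ∈ Vι i v t ↔ P ∈ VS i v t := fun i v t P =>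
    Set.Finite.mem_toFinset _
  have hVιK : ∀ i v t, (Vι i v t).card ≤ K := by
    intro i v t
    refine le_trans ?_ (hK (bt t)).2
    have h1 : (Vι i v t).card = (VS i v t).ncard := (Set.ncard_eq_toFinset_card _ _).symm
    rw [h1]
    have h2 := Set.ncard_le_ncard (hVSsub i v t) (hK (bt t)).1
    rwa [← Nat.card_coe_set_eq {P : Place E (NN E K0 ℓ (U := U)) | OverPl (bt t) P}] at h2
  have hVι1 : ∀ i, ∀ v ∉ Q i, Gd X.M v → ∀ t, (Vι i v t).card ≤ 1 := by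
    intro i v hvQ hgd t
    have hnQM : ¬ QM E K0 ℓ m (Φ₁ i (F v)) :=
      hQ i v (fun h1 => hXBad' i v h1 hgd) (O v) (F v) (p v) (f' v) (hdec v hgd).1 hvQ
    rw [Finset.card_le_one]
    intro P hP P' hP'
    rw [hVιmem] at hP hP'
    obtain ⟨_, h1, R, h2, h3⟩ := hP
    obtain ⟨_, h1', R', h2', h3'⟩ := hP'
    exact hMU2 (c₁ i) (Φ₁ i) (hΦ₁ i).1 (hΦ₁ i).2 m (F v) hm1 hnQM (bt t) P P' R R' h1 h1' h2 h2'
      h3 h3'
  -- the signs
  let SG : I → Pr k → Place E (NN E K0 ℓ (U := U)) → ℕ → f.SplittingField → f.SplittingField →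
      rootsOfUnity ℓ k := fun i v P N x x' => sgn ℓ (Φ₁ i (F v) ^ N) P (zz (bt x) (bt x'))
  obtain ⟨w, hw1, hw2⟩ := exists_w (n := n) hℓ fun x : f.SplittingField =>
    ord (bt x).ring (inL0 h)
  -- the relations
  choose H hH g hg using fun i => hG1 hSel k f.SplittingField f X n ℓ hℓ hln hmu hlM
    (by omega) hm hfin (Place E (NN E K0 ℓ (U := U))) (Vι i) Al w (SG i)
  have hHI : Finite (Σ i, H i) := inferInstance
  have hg0 : ∀ Y : ℕ, (0 : ℝ) ≤ Y * Real.log Y ^ (κ - 1) := fun Y =>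
    mul_nonneg (Nat.cast_nonneg Y) (Real.rpow_nonneg (Real.log_natCast_nonneg Y) _)
  have hb0 : (0 : ℝ) < 1 / ℓ := by
    have : (0 : ℝ) < ℓ := by exact_mod_cast hℓ.pos
    positivity
  have hb1 : (1 : ℝ) / ℓ ≤ 1 := by
    have : (1 : ℝ) ≤ ℓ := by exact_mod_cast hℓ.one_lt.le
    rw [div_le_one (by linarith)]
    exact this
  have hOk : ∀ m c : Finset (Pr k × Fin n), m ⊆ c → OkL c → OkL m := fun m c hmc hc =>
    hc.mono hmc
  obtain ⟨η, C, hη, hC, hbound⟩ := coverK (H := Σ i, H i) (P := Pr k × Fin n)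
    (fun Y : ℕ => Y * Real.log Y ^ (κ - 1)) hg0
    (fun j Y A => ∏ p ∈ A, nm p.1 ≤ Y ∧
      (∀ p ∈ Pool.Agent.Helper99.HG.pf
        (cdL X n ℓ hm hfin (Place E (NN E K0 ℓ (U := U))) (Vι j.1) Al w (g j.1 j.2)) A,
        p ∈ R X) ∧ OkL A ∧
      Pool.Agent.Helper99.HG.Bad
      (cdL X n ℓ hm hfin (Place E (NN E K0 ℓ (U := U))) (Vι j.1) Al w (g j.1 j.2)) A) (by
    rintro ⟨i, j⟩
    obtain ⟨a1, a2, a3⟩ := hG3' X hm hfin (Place E (NN E K0 ℓ (U := U))) (Vι i) w (g i j)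
      (hVιK i) (Q i) (hVι1 i) B hB (δ i) (C₀ i) (hδ i) (hsum i)
    obtain ⟨η, C, hη, hC, h1⟩ := hCount X.m (rootsOfUnity ℓ k)
      (cdL X n ℓ hm hfin (Place E (NN E K0 ℓ (U := U))) (Vι i) Al w (g i j)) (1 / ℓ) hb0 hb1
      OkL hOk (R X) κ hκ a1 a2
      (hG2 hBTL hMert k f.SplittingField f X n ℓ hℓ hmu hlM hm hfin _ (Vι i) Al w (g i j)
        fun e θ _ => hw2 θ e) a3
    refine ⟨η, C, hη, hC, fun Y hY S hS => (h1 Y hY S hS).trans (le_of_eq ?_)⟩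
    have hlY : 0 < Real.log Y := Real.log_pos (by
      have h2 : (3 : ℝ) ≤ Y := by exact_mod_cast hY
      linarith)
    rw [Real.rpow_sub hlY, mul_div_assoc, mul_div_assoc, mul_assoc])
  refine ⟨X.M, η, C, X.hM, hη, hC, fun Y hY SS hSS => hbound Y hY SS fun A hA => ?_⟩
  obtain ⟨h2, c, hc, ⟨Φ, hΦ⟩, hAS⟩ := hSS A hA
  obtain ⟨i, hi⟩ := hcls c Φ hc hΦ
  obtain ⟨δ', hδ'⟩ := hint i c Φ hc hΦ hi
  have hGlX := hGl X (c₁ i) (Φ₁ i) (hΦ₁ i).1 (hΦ₁ i).2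
  obtain ⟨D, t, P, hD, hP⟩ := exists_datL hn hℓ hln hmu hlM hGlX (hXBad i) hc hδ' (O := O) (F := F)
    (p' := p) (f' := f') hdec hAS (w := w) fun x hx e he => hw1 x (hGlX.bt_mem x hx) e he
  obtain ⟨j, hj⟩ := hg i c A D t P hD (by
    intro v e hv
    obtain ⟨h3, h4, h5⟩ := hP v e hv
    rw [hVιmem]
    exact ⟨⟨((hAS v e).1 hv).1, h4, h5⟩, hAl e _ h3⟩)
  refine ⟨⟨i, j⟩, h2, ?_, ?_, hj⟩
  · rintro ⟨v, e⟩ hv
    have hvA : (v, e) ∈ A := (Pool.Agent.Helper99.HG.mem_pf.1 hv).1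
    exact hR X v e (t v) ((hAS v e).1 hvA).1 ((hAS v e).1 hvA).2.1 (hD.t_mem v e hvA)
      (hD.t_fix v e hvA)
  · rintro ⟨v, e⟩ hv ⟨v', e'⟩ hv' hvv
    have hvv' : v = v' := hvv
    subst hvv'
    have h3 : e = e' := hD.uniq hv hv'
    rw [h3]

end Pool.Agent.ML
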