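import Pool.Agent.Helper13.ML.Fin1
import Pool.Agent.Helper97.LN3.Fin
import Pool.Agent.Helper22.HG.Der

/-!
# Project ML: at most four branch points
-/

set_option autoImplicit false
set_option linter.unusedSectionVars false

namespace Pool.Agent.ML

open VC IntermediateField NumberField IsDedekindDomain Pool.Agent.SC
open Pool.Agent.L (Inert L0 MM SamePlace OverV)
open Pool.Agent.LN (Geo Act HasSec GoodCurve IsRam DecPt)
open Pool.Agent.M (UR NN Moves OverPl inL0 lt_iff13 eq_iff13 eq_iffk13 exists_res13 exists_lift13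
  mem_range13 inert_triv13 exists_M13 exists_below13 frob_below13)
open Pool.Agent.HG (Pr nm Ctx Gd)

/-- removing finitely many primes -/
theorem sum_sdiff {k : Type} [Field k] [NumberField k] (Q Bad : Set (Pr k)) (hBad : Bad.Finite)
    (s : Finset (Pr k)) :
    (Finset.sum (@Finset.filter _ (· ∈ Q) (Classical.decPred _) s)
          fun v => (1 : ℝ) / nm v) ≤
      (Finset.sum (@Finset.filter _ (· ∈ Q \ Bad) (Classical.decPred _) s)
            fun v => (1 : ℝ) / nm v) + ∑ v ∈ hBad.toFinset, (1 : ℝ) / nm v := by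
  classical
  refine le_trans ?_ (Finset.sum_union_inter (s₁ := @Finset.filter _ (· ∈ Q \ Bad)
    (Classical.decPred _) s) (s₂ := hBad.toFinset)
    (f := fun v => (1 : ℝ) / nm v)).le
  have h3 : 0 ≤ ∑ v ∈ (@Finset.filter _ (· ∈ Q \ Bad) (Classical.decPred _) s) ∩
      hBad.toFinset, (1 : ℝ) / nm v := Finset.sum_nonneg fun _ _ => by positivity
  refine le_trans ?_ (le_add_of_nonneg_right h3)
  refine Finset.sum_le_sum_of_subset_of_nonneg ?_ fun _ _ _ => by positivity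
  intro v hv
  simp only [Finset.mem_filter, Finset.mem_union, Set.Finite.mem_toFinset, Set.mem_sdiff]
    at hv ⊢
  by_cases hvB : v ∈ Bad
  · exact Or.inr hvB
  · exact Or.inl ⟨hv.1, hv.2, hvB⟩

/-- the ratio is small for the property `P` -/
def Rat (k : Type) [Field k] [NumberField k] (n : ℕ) (P : k → Prop) : Prop :=
  ∃ η C : ℝ, 0 < η ∧ 0 < C ∧ ∀ X : ℕ, 3 ≤ X → (Nat.card (LN.clsP n P X) : ℝ) ≤
    C * Nat.card (LN.clsP (k := k) n (fun _ => True) X) / Real.log X ^ η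

open scoped Classical in
/-- at most four branch points -/
theorem caseA (hFR : LN.StmtFR) (hFIN : StmtFIN) (hZ : StmtZ) (hINT : StmtINT)
    (hDer : HG.StmtDer) (hUP : LN2.StmtUP) (hCLS : LN2.StmtCLS) (hLOW : LN.StmtLOW)
    (hCLO : LN.StmtCLO) {k K0 E U : Type} [Field k] [NumberField k]
    [Field K0] [Field E] [Field U] [Algebra k K0]
    [Algebra k E] [Algebra E U] [Algebra K0 U] [Algebra k U] [IsScalarTower k E U]
    [IsScalarTower k K0 U] {n ℓ : ℕ} (hn : 0 < n) (hℓ : ℓ.Prime) (hln : ℓ ∣ n)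
    (hmu : HasMu k ℓ) {h : K0} {r : U} (G : Geo k K0 E U n h r)
    {f : Polynomial k} {θ : Place E (L0 E K0 (U := U)) → E} (Gl' : GlE n ℓ h r f θ)
    (hdeg : f.natDegree ≤ 4) :
    Rat k n (fun c : k => ∃ Φ : (E ≃ₐ[k] E) →* (U ≃+* U), Act (K0 := K0) n r c Φ) := by
  have hn2 : 2 ≤ n := hℓ.two_le.trans (Nat.le_of_dvd hn hln)
  have hclE : IsAlgClosed E := G.clE
  have halg : Algebra.IsAlgebraic k E := G.algE
  let L := f.SplittingField
  have : NumberField L := NumberField.of_module_finite k L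
  have : IsGalois k L := IsGalois.of_separable_splitting_field Gl'.sep
  have hsplit : (f.map (algebraMap k L)).Splits := Polynomial.SplittingField.splits f
  let ι : L →ₐ[k] E := IsAlgClosed.lift
  obtain ⟨I, hI, c₁, Φ₁, hΦ₁, hcls⟩ := hFIN k K0 E U n ℓ h r hn hℓ hln hmu G 1
  obtain ⟨zz, hzz⟩ := exists_zz hZ hn hℓ hln hmu G
  choose Bad hBad hint using fun i => hINT k K0 E U n ℓ h r hn hℓ hln hmu G 1 le_rfl (c₁ i) (Φ₁ i)
    (hΦ₁ i).1 (hΦ₁ i).2 zz hzz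
  obtain ⟨B, hB⟩ := Pool.Agent.HG.exists_B5 k
  -- the totally ramified points
  let Ω : Finset L := (f.rootSet_finite L).toFinset.filter fun x =>
    ∃ b, BPl ℓ h b ∧ θ b = ι x ∧ Tot n h b
  have hΩ : ∀ x, x ∈ Ω ↔ x ∈ f.rootSet L ∧ ∃ b, BPl ℓ h b ∧ θ b = ι x ∧ Tot n h b := fun x => by
    rw [Finset.mem_filter, Set.Finite.mem_toFinset]
  have hroot : ∀ (σ : L ≃ₐ[k] L) (x : L), x ∈ f.rootSet L → σ x ∈ f.rootSet L := by
    intro σ x hx
    rw [Polynomial.mem_rootSet] at hx ⊢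
    refine ⟨hx.1, ?_⟩
    have h1 : Polynomial.aeval (σ x) f = σ (Polynomial.aeval x f) :=
      Polynomial.aeval_algHom_apply (σ : L →ₐ[k] L) x f
    rw [h1, hx.2, map_zero]
  obtain ⟨δ, C, Q, hδ, hQ, hsum⟩ := hDer k L Ω (by
    intro σ x hx
    rw [hΩ] at hx ⊢
    obtain ⟨hx, b, hb, hbx, hT⟩ := hx
    refine ⟨hroot σ x hx, ?_⟩
    obtain ⟨b', hb', hbx'⟩ := exists_place Gl' ι (hroot σ x hx)
    obtain ⟨g, hg⟩ := exists_lift13 (E := E) ι σ
    refine ⟨b', hb', hbx', ?_⟩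
    have h1 := Gl'.ord g b b' hb hb' (by rw [hbx, hbx', hg])
    intro d hd hd1
    rw [← h1]
    exact hT d hd hd1) (by
    rintro x hx a rfl
    rw [hΩ] at hx
    obtain ⟨hx, b, hb, hbx, hT⟩ := hx
    refine Gl'.noroot b hb hT a ?_
    rw [hbx, AlgHom.commutes]) (by
    refine le_trans (Finset.card_filter_le _ _) ?_
    refine le_trans ?_ hdeg
    have h1 : (f.rootSet_finite L).toFinset.card = (f.rootSet L).ncard :=
      (Set.ncard_eq_toFinset_card _ _).symm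
    rw [h1]
    exact Polynomial.ncard_rootSet_le f L) B hB
  obtain ⟨M₁, hM₁, hroots⟩ := Pool.Agent.Helper88.HG.exists_M_roots k L f
  have hBall : ((⋃ i, Bad i) ∪ {v : Pr k | ¬ Gd M₁ v}).Finite :=
    (Set.finite_iUnion hBad).union (Pool.Agent.Helper88.HG.finite_bad k hM₁)
  obtain ⟨BB, hBB⟩ : ∃ BB, BB = (⋃ i, Bad i) ∪ {v : Pr k | ¬ Gd M₁ v} := ⟨_, rfl⟩
  rw [← hBB] at hBall
  refine LN3.ratio_of hUP hCLS hLOW hCLO k n hn2 _ (Q \ BB) δ
    (C + ∑ v ∈ hBall.toFinset, (1 : ℝ) / nm v) hδ B hB ?_ ?_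
  · rintro v ⟨hv, hvB⟩ c hc ⟨Φ, hΦ⟩
    by_contra hcon
    push Not at hcon
    rw [hBB, Set.mem_union, not_or] at hvB
    obtain ⟨hvB1, hvB2⟩ := hvB
    have hgd : Gd M₁ v := not_not.1 hvB2
    obtain ⟨O, F, p, f', hD⟩ := hFR k E v
    obtain ⟨P, hP, hPv⟩ := exists_below13 ι (toLD hD)
    obtain ⟨i, hi⟩ := hcls c Φ hc hΦ
    obtain ⟨δ', hδ'⟩ := hint i c Φ hc hΦ hi
    obtain ⟨b₀, _, _, hb, _, _, hm, _, hgr, _⟩ :=
      hδ'.odd v (fun h4 => hvB1 (Set.mem_iUnion.2 ⟨i, h4⟩)) (hcon ℓ hln hℓ.one_lt) O F p f' hD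
    have hT : Tot n h b₀ := fun d hd hd1 hdo => hgr d hd hdo (hcon d hd hd1)
    have hF := (Gl'.act (c₁ i) (Φ₁ i) (hΦ₁ i).1 (hΦ₁ i).2 F b₀ b₀ hb hb).1 hm
    obtain ⟨x, hx, hxb⟩ := exists_root Gl' ι hsplit hb
    rw [← hxb] at hF
    obtain ⟨q, hq, hqM, hqv⟩ := hgd
    have hx1 := (hroots M₁ q v P dvd_rfl ⟨hq, hqM, hqv, hPv⟩).1 x hx
    refine hQ v hv P hPv x ((hΩ x).2 ⟨hx, b₀, hb, hxb.symm, hT⟩) ?_
    have h2 := hD.frob.frob (ι x) ((hP x).2 hx1)
    have h3 : F.toRingEquiv (ι x) = ι x := hF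
    rw [h3, ← hD.norm, ← map_pow, ← map_sub, lt_iff13 hP, Valuation.map_sub_swap] at h2
    exact h2
  · intro x hx
    have h1 := (abs_le.1 (hsum x hx)).1
    have h2 := sum_sdiff Q BB hBall (B x)
    have h3 : (Finset.sum (@Finset.filter _ (· ∈ Q) (Classical.decPred _) (B x))
        fun v => (1 : ℝ) / nm v) = ∑ v ∈ (B x).filter (· ∈ Q), (1 : ℝ) / nm v := by
      congr
    rw [h3] at h2
    linarith

end Pool.Agent.ML
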