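import Pool.Agent.Helper13.ML.Fin3
import Pool.Agent.Helper99.MP.Free

/-!
# Project ML: from sets of labels to classes
-/

set_option autoImplicit false
set_option linter.unusedSectionVars false

namespace Pool.Agent.ML

open NumberField IsDedekindDomain
open Pool.Agent.LN (IsRam)
open Pool.Agent.HG (Pr nm Gd)

/-- sets of labels with given support -/
theorem card_labels {V : Type} [DecidableEq V] {n : ℕ} (hn : 0 < n) (Lb : Finset (Fin n))
    (s : Finset V) (SS : Finset (Finset (V × Fin n)))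
    (h : ∀ A ∈ SS, A.image Prod.fst = s ∧ Set.InjOn Prod.fst (A : Set (V × Fin n)) ∧
      ∀ p ∈ A, p.2 ∈ Lb) : SS.card ≤ Lb.card ^ s.card := by
  classical
  have hex : ∀ (A : Finset (V × Fin n)) (v : V), ∃ e : Fin n, A ∈ SS → v ∈ s → (v, e) ∈ A := by
    intro A v
    by_cases hAv : A ∈ SS ∧ v ∈ s
    · obtain ⟨hA, hv⟩ := hAv
      rw [← (h A hA).1] at hv
      obtain ⟨⟨v', e⟩, hp, hpv⟩ := Finset.mem_image.1 hv
      have hvv : v' = v := hpv
      subst hvv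
      exact ⟨e, fun _ _ => hp⟩
    · exact ⟨⟨0, hn⟩, fun h1 h2 => absurd ⟨h1, h2⟩ hAv⟩
  choose g hg using hex
  have h1 : SS.card ≤ (s.pi fun _ => Lb).card := by
    refine Finset.card_le_card_of_injOn (fun A v _ => g A v) ?_ ?_
    · intro A hA
      rw [Finset.mem_coe, Finset.mem_pi]
      intro v hv
      exact (h A hA).2.2 _ (hg A v hA hv)
    · have half : ∀ A ∈ SS, ∀ A' ∈ SS, (∀ v ∈ s, g A v = g A' v) → A ⊆ A' := by
        rintro A hA A' hA' hgg ⟨v, e⟩ hp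
        have hv : v ∈ s := by
          rw [← (h A hA).1]
          exact Finset.mem_image.2 ⟨_, hp, rfl⟩
        have h2 := hg A v hA hv
        have h3 : (v, e) = (v, g A v) := (h A hA).2.1 hp h2 rfl
        rw [h3, hgg v hv]
        exact hg A' v hA' hv
      intro A hA A' hA' hAA
      have h2 : ∀ v ∈ s, g A v = g A' v := fun v hv => congrFun (congrFun hAA v) hv
      exact Finset.Subset.antisymm (half A hA A' hA' h2)
        (half A' hA' A hA fun v hv => (h2 v hv).symm)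
  rw [Finset.card_pi, Finset.prod_const] at h1
  exact h1

/-- the number of labels different from `0` and divisible by `ℓ` -/
theorem card_lb {n ℓ : ℕ} (hn : 0 < n) (hℓ : 0 < ℓ) (hln : ℓ ∣ n) :
    ((Finset.univ : Finset (Fin n)).filter fun e : Fin n => (e : ℕ) ≠ 0 ∧ ℓ ∣ (e : ℕ)).card ≤
      n / ℓ - 1 := by
  classical
  have hnl : 0 < n / ℓ := Nat.div_pos (Nat.le_of_dvd hn hln) hℓ
  have h1 : ((Finset.range (n / ℓ)).erase 0).card = n / ℓ - 1 := by
    rw [Finset.card_erase_of_mem (Finset.mem_range.2 hnl), Finset.card_range]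
  rw [← h1]
  refine Finset.card_le_card_of_injOn (fun e : Fin n => (e : ℕ) / ℓ) ?_ ?_
  · intro e he
    obtain ⟨-, h2, h3⟩ := Finset.mem_filter.1 he
    rw [Finset.mem_coe, Finset.mem_erase, Finset.mem_range]
    constructor
    · intro h4
      have h5 := Nat.div_mul_cancel h3
      have h6 : (e : ℕ) / ℓ = 0 := h4
      rw [h6, zero_mul] at h5
      exact h2 h5.symm
    · exact Nat.div_lt_div_of_lt_of_dvd hln e.2
  · intro e he e' he' hee
    obtain ⟨-, -, h3⟩ := Finset.mem_filter.1 he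
    obtain ⟨-, -, h3'⟩ := Finset.mem_filter.1 he'
    have h4 : (e : ℕ) / ℓ = (e' : ℕ) / ℓ := hee
    apply Fin.ext
    rw [← Nat.div_mul_cancel h3, ← Nat.div_mul_cancel h3', h4]

section

variable {k : Type} [Field k] [NumberField k]

theorem one_le_nm (v : Pr k) : 1 ≤ nm v := LN.nm_pos v

theorem one_le_prod {n : ℕ} (A : Finset (Pr k × Fin n)) : 1 ≤ ∏ p ∈ A, nm p.1 :=
  Finset.one_le_prod' fun p _ => one_le_nm p.1

/-- the sets of labels divisible by `ℓ` or at excluded primes -/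
theorem card_B (hUP : LN.StmtUP) {n ℓ : ℕ} (hn : 0 < n) (hℓ : ℓ.Prime) (hln : ℓ ∣ n) {M : ℕ}
    (hM : M ≠ 0) (η : ℝ) (hη : 0 < η) :
    ∃ C : ℝ, 0 < C ∧ ∀ Y : ℕ, 3 ≤ Y → ∀ SS : Finset (Finset (Pr k × Fin n)),
      (∀ A ∈ SS, ∏ p ∈ A, nm p.1 ≤ Y ∧ OkL A ∧
        ∀ p ∈ A, (p.2 : ℕ) ≠ 0 ∧ ¬ (Gd M p.1 ∧ ¬ ℓ ∣ (p.2 : ℕ))) →
      (SS.card : ℝ) ≤ C * Y * Real.log Y ^ (((n / ℓ - 1 : ℕ) : ℝ) + η - 1) := by
  classical
  have hfin : {v : Pr k | ¬ Gd M v}.Finite := Pool.Agent.Helper88.HG.finite_bad k hM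
  obtain ⟨N₀, hN₀⟩ : ∃ N₀ : ℕ, N₀ = (hfin.toFinset ×ˢ (Finset.univ : Finset (Fin n))).powerset.card :=
    ⟨_, rfl⟩
  obtain ⟨w, hw⟩ : ∃ w : ℕ, w = n / ℓ - 1 := ⟨_, rfl⟩
  let Lb : Finset (Fin n) := (Finset.univ : Finset (Fin n)).filter fun e : Fin n =>
    (e : ℕ) ≠ 0 ∧ ℓ ∣ (e : ℕ)
  have hLb : Lb.card ≤ w := by
    rw [hw]
    exact card_lb hn hℓ.pos hln
  -- the sum over the supports
  have hmain : ∀ (Y : ℕ) (SS : Finset (Finset (Pr k × Fin n))),
      (∀ A ∈ SS, ∏ p ∈ A, nm p.1 ≤ Y ∧ OkL A ∧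
        ∀ p ∈ A, (p.2 : ℕ) ≠ 0 ∧ ¬ (Gd M p.1 ∧ ¬ ℓ ∣ (p.2 : ℕ))) →
      ∃ 𝒮 : Finset (Finset (Pr k)), (∀ s ∈ 𝒮, ∏ v ∈ s, nm v ≤ Y) ∧
        SS.card ≤ N₀ * ∑ s ∈ 𝒮, w ^ s.card := by
    intro Y SS hSS
    let g : Finset (Pr k × Fin n) → Finset (Pr k × Fin n) := fun A =>
      A.filter fun p => Gd M p.1
    let S2 := SS.image g
    refine ⟨S2.image fun A => A.image Prod.fst, ?_, ?_⟩
    · intro s hs
      obtain ⟨A2, hA2, rfl⟩ := Finset.mem_image.1 hs
      obtain ⟨A, hA, rfl⟩ := Finset.mem_image.1 hA2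
      obtain ⟨h1, h2, h3⟩ := hSS A hA
      have hinj : Set.InjOn Prod.fst ((g A : Finset (Pr k × Fin n)) : Set (Pr k × Fin n)) :=
        h2.mono (Finset.filter_subset _ _)
      rw [Finset.prod_image hinj]
      refine le_trans ?_ h1
      exact Finset.prod_le_prod_of_subset_of_one_le' (Finset.filter_subset _ _)
        fun p _ _ => one_le_nm p.1
    · have hS1 : SS.card ≤ N₀ * S2.card := by
        rw [hN₀, ← Finset.card_product]
        refine Finset.card_le_card_of_injOn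
          (fun A => (A.filter fun p => ¬ Gd M p.1, g A)) ?_ ?_
        · intro A hA
          rw [Finset.mem_coe, Finset.mem_product, Finset.mem_powerset]
          refine ⟨fun p hp => ?_, Finset.mem_image_of_mem _ hA⟩
          obtain ⟨-, h1⟩ := Finset.mem_filter.1 hp
          exact Finset.mem_product.2 ⟨hfin.mem_toFinset.2 h1, Finset.mem_univ _⟩
        · intro A _ A' _ hAA
          have h1 : (A.filter fun p => ¬ Gd M p.1) = A'.filter fun p => ¬ Gd M p.1 :=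
            congrArg Prod.fst hAA
          have h2 : (A.filter fun p => Gd M p.1) = A'.filter fun p => Gd M p.1 :=
            congrArg Prod.snd hAA
          rw [← Finset.filter_union_filter_not_eq (fun p : Pr k × Fin n => Gd M p.1) A, h1, h2,
            Finset.filter_union_filter_not_eq]
      refine hS1.trans (Nat.mul_le_mul_left _ ?_)
      rw [Finset.card_eq_sum_card_image (fun A : Finset (Pr k × Fin n) => A.image Prod.fst) S2]
      refine Finset.sum_le_sum fun s hs => ?_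
      refine (card_labels hn Lb s _ ?_).trans (Nat.pow_le_pow_left hLb _)
      intro A2 hA2
      obtain ⟨hA2, h1⟩ := Finset.mem_filter.1 hA2
      obtain ⟨A, hA, rfl⟩ := Finset.mem_image.1 hA2
      obtain ⟨-, h2, h3⟩ := hSS A hA
      refine ⟨h1, h2.mono (Finset.filter_subset _ _), fun p hp => ?_⟩
      obtain ⟨hp, hgd⟩ := Finset.mem_filter.1 hp
      obtain ⟨h4, h5⟩ := h3 p hp
      refine Finset.mem_filter.2 ⟨Finset.mem_univ _, h4, ?_⟩
      by_contra h6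
      exact h5 ⟨hgd, h6⟩
  have hlog : ∀ Y : ℕ, 3 ≤ Y → 1 ≤ Real.log Y := by
    intro Y hY
    rw [← Real.log_exp 1]
    refine Real.log_le_log (Real.exp_pos 1) ?_
    have h1 : (3 : ℝ) ≤ Y := by exact_mod_cast hY
    exact Real.exp_one_lt_d9.le.trans (by linarith)
  rcases Nat.eq_zero_or_pos w with hw0 | hw0
  · -- no labels divisible by `ℓ`
    refine ⟨N₀ + 1, by positivity, fun Y hY SS hSS => ?_⟩
    obtain ⟨𝒮, h1, h2⟩ := hmain Y SS hSS
    have h3 : ∑ s ∈ 𝒮, w ^ s.card ≤ 1 := by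
      rw [hw0]
      calc ∑ s ∈ 𝒮, 0 ^ s.card = ∑ s ∈ 𝒮, if s = ∅ then 1 else 0 := by
            refine Finset.sum_congr rfl fun s _ => ?_
            by_cases hs : s = ∅
            · rw [hs, if_pos rfl, Finset.card_empty, pow_zero]
            · rw [if_neg hs, zero_pow (Finset.card_pos.2 (Finset.nonempty_iff_ne_empty.2 hs)).ne']
        _ ≤ 1 := by
            rw [Finset.sum_ite_eq']
            split_ifs <;> omega
    have h4 : SS.card ≤ N₀ := h2.trans (by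
      calc N₀ * ∑ s ∈ 𝒮, w ^ s.card ≤ N₀ * 1 := Nat.mul_le_mul_left _ h3
        _ = N₀ := mul_one _)
    have h5 : (1 : ℝ) ≤ Y * Real.log Y ^ (((n / ℓ - 1 : ℕ) : ℝ) + η - 1) := by
      have hl := hlog Y hY
      have hl0 : 0 < Real.log Y := by linarith
      have hYl : Real.log Y ≤ Y := by
        have hY0 : (0 : ℝ) < Y := by
          have : (3 : ℝ) ≤ Y := by exact_mod_cast hY
          linarith
        have := Real.log_le_sub_one_of_pos hY0
        linarith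
      rw [← hw, hw0, Nat.cast_zero, zero_add]
      calc (1 : ℝ) ≤ Real.log Y ^ η := Real.one_le_rpow hl hη.le
        _ = Real.log Y * Real.log Y ^ (η - 1) := by
            rw [Real.rpow_sub hl0, Real.rpow_one]
            field_simp
        _ ≤ Y * Real.log Y ^ (η - 1) :=
            mul_le_mul_of_nonneg_right hYl (Real.rpow_nonneg hl0.le _)
    calc (SS.card : ℝ) ≤ N₀ := by exact_mod_cast h4
      _ ≤ (N₀ + 1) * 1 := by linarith
      _ ≤ (N₀ + 1) * (Y * Real.log Y ^ (((n / ℓ - 1 : ℕ) : ℝ) + η - 1)) :=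
          mul_le_mul_of_nonneg_left h5 (by positivity)
      _ = _ := by ring
  · obtain ⟨B, hB⟩ := Pool.Agent.HG.exists_B5 k
    obtain ⟨C', hC', hup⟩ := hUP k w hw0 ∅ 0 0 B hB (by
      intro x hx
      rw [zero_mul, sub_zero]
      exact Finset.sum_nonneg fun _ _ => by positivity)
    refine ⟨(N₀ + 1) * C', by positivity, fun Y hY SS hSS => ?_⟩
    obtain ⟨𝒮, h1, h2⟩ := hmain Y SS hSS
    have hl := hlog Y hY
    have h3 := hup Y hY 𝒮 fun s hs => ⟨h1 s hs, fun v hv => absurd hv (Set.notMem_empty v)⟩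
    have h4 : Real.log Y ^ ((w : ℝ) * (1 - 0) - 1) ≤ Real.log Y ^ ((w : ℝ) + η - 1) :=
      Real.rpow_le_rpow_of_exponent_le hl (by linarith)
    have hY0 : (0 : ℝ) ≤ Y := Nat.cast_nonneg Y
    rw [← hw]
    calc (SS.card : ℝ) ≤ ((N₀ * ∑ s ∈ 𝒮, w ^ s.card : ℕ) : ℝ) := by exact_mod_cast h2
      _ = N₀ * ∑ s ∈ 𝒮, (w : ℝ) ^ s.card := by push_cast; rfl
      _ ≤ N₀ * (C' * Y * Real.log Y ^ ((w : ℝ) * (1 - 0) - 1)) :=
          mul_le_mul_of_nonneg_left h3 (Nat.cast_nonneg _)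
      _ ≤ (N₀ + 1) * (C' * Y * Real.log Y ^ ((w : ℝ) + η - 1)) := by
          refine mul_le_mul (by linarith) (mul_le_mul_of_nonneg_left h4 (by positivity)) ?_
            (by positivity)
          exact mul_nonneg (by positivity) (Real.rpow_nonneg (by linarith) _)
      _ = _ := by ring

/-- the set of labels -/
theorem exists_S {n : ℕ} (hn : 0 < n) {c : k} (hc : c ≠ 0) :
    ∃ S : Finset (Pr k × Fin n), (∀ v e, (v, e) ∈ S ↔ (e : ℕ) ≠ 0 ∧ Lab n v (e : ℕ) c) ∧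
      OkL S ∧ ∏ p ∈ S, nm p.1 = LN.cond n c := by
  classical
  have hfin : {p : Pr k × Fin n | (p.2 : ℕ) ≠ 0 ∧ Lab n p.1 (p.2 : ℕ) c}.Finite := by
    refine ((LN.fin_val hc).prod (Set.toFinite (Set.univ : Set (Fin n)))).subset ?_
    rintro ⟨v, e⟩ ⟨h1, h2⟩
    refine ⟨LN.isRam_ne_one ((isRam_iff_lab hn hc h2 (dvd_refl n)).2 fun h3 => ?_), Set.mem_univ _⟩
    have h4 := Nat.le_of_dvd (Nat.pos_of_ne_zero h1) h3
    have h5 := e.2
    have h6 : ((v, e).2 : ℕ) = (e : ℕ) := rfl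
    omega
  refine ⟨hfin.toFinset, fun v e => by rw [Set.Finite.mem_toFinset]; rfl, ?_, ?_⟩
  · rintro ⟨v, e⟩ h1 ⟨v', e'⟩ h2 hvv
    have hvv' : v = v' := hvv
    subst hvv'
    have h1' := (hfin.mem_toFinset.1 h1).2
    have h2' := (hfin.mem_toFinset.1 h2).2
    exact Prod.ext rfl (Lab.unique hc h1' h2')
  · have hok : Set.InjOn Prod.fst ((hfin.toFinset : Finset (Pr k × Fin n)) :
        Set (Pr k × Fin n)) := by
      rintro ⟨v, e⟩ h1 ⟨v', e'⟩ h2 hvv
      have hvv' : v = v' := hvv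
      subst hvv'
      have h1' := (hfin.mem_toFinset.1 h1).2
      have h2' := (hfin.mem_toFinset.1 h2).2
      exact Prod.ext rfl (Lab.unique hc h1' h2')
    rw [← Finset.prod_image (s := hfin.toFinset) (g := Prod.fst) (f := fun v => nm v) hok]
    unfold LN.cond
    have hmem : ∀ v, v ∈ hfin.toFinset.image Prod.fst ↔ IsRam n v c := by
      intro v
      rw [Finset.mem_image]
      constructor
      · rintro ⟨⟨v', e⟩, h1, h2⟩
        have hvv' : v' = v := h2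
        subst hvv'
        obtain ⟨h3, h4⟩ := hfin.mem_toFinset.1 h1
        rw [isRam_iff_lab hn hc h4 (dvd_refl n)]
        intro h5
        have h6 := Nat.le_of_dvd (Nat.pos_of_ne_zero h3) h5
        have h7 := e.2
        have h8 : ((v', e).2 : ℕ) = (e : ℕ) := rfl
        omega
      · intro h1
        obtain ⟨e, he⟩ := exists_lab v hn hc
        refine ⟨(v, e), hfin.mem_toFinset.2 ⟨fun h2 => ?_, he⟩, rfl⟩
        rw [isRam_iff_lab hn hc he (dvd_refl n)] at h1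
        apply h1
        have h3 : (e : ℕ) = 0 := h2
        rw [h3]
        exact dvd_zero n
    rw [finprod_eq_prod_of_mulSupport_subset (s := hfin.toFinset.image Prod.fst)]
    · refine (Finset.prod_congr rfl fun v hv => ?_).symm
      rw [if_pos ((hmem v).1 hv)]
    · intro v hv
      rw [Finset.mem_coe, hmem]
      by_contra h1
      exact hv (if_neg h1)

end

/-- **From sets of labels to classes.** -/
theorem rat_of (hUP : LN.StmtUP) (hLOW : LN.StmtLOW) (hCLO : LN.StmtCLO) (hCLL : StmtCLL)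
    {k : Type} [Field k] [NumberField k] {n ℓ : ℕ} (hn : 0 < n) (hℓ : ℓ.Prime) (hln : ℓ ∣ n)
    (P : k → Prop)
    (h : ∃ (M : ℕ) (η C : ℝ), M ≠ 0 ∧ 0 < η ∧ 0 < C ∧ ∀ Y : ℕ, 3 ≤ Y →
      ∀ SS : Finset (Finset (Pr k × Fin n)),
      (∀ A ∈ SS, ∏ p ∈ A, nm p.1 ≤ Y ∧ ∃ c : k, c ≠ 0 ∧ P c ∧
        ∀ v e, (v, e) ∈ A ↔ Gd M v ∧ ¬ ℓ ∣ (e : ℕ) ∧ Lab n v (e : ℕ) c) →
      (SS.card : ℝ) ≤ C * (Y * Real.log Y ^ (((n - n / ℓ : ℕ) : ℝ) - 1)) / Real.log Y ^ η) :
    Rat k n P := by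
  classical
  obtain ⟨M, η₁, C, hM, hη₁, hC, hA⟩ := h
  have hn2 : 2 ≤ n := hℓ.two_le.trans (Nat.le_of_dvd hn hln)
  have hnl : 0 < n / ℓ := Nat.div_pos (Nat.le_of_dvd hn hln) hℓ.pos
  have hnl2 : n / ℓ < n := Nat.div_lt_self hn hℓ.one_lt
  obtain ⟨η, hη⟩ : ∃ η : ℝ, η = min η₁ (1 / 2) := ⟨_, rfl⟩
  have hη0 : 0 < η := by
    rw [hη]
    exact lt_min hη₁ (by norm_num)
  have hη1 : η ≤ η₁ := by
    rw [hη]
    exact min_le_left _ _
  have hη2 : η ≤ 1 / 2 := by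
    rw [hη]
    exact min_le_right _ _
  obtain ⟨κ, hκ⟩ : ∃ κ : ℝ, κ = ((n - n / ℓ : ℕ) : ℝ) := ⟨_, rfl⟩
  have hκ1 : 1 ≤ κ := by
    rw [hκ]
    exact_mod_cast (by omega : 1 ≤ n - n / ℓ)
  obtain ⟨w, hw⟩ : ∃ w : ℝ, w = ((n / ℓ - 1 : ℕ) : ℝ) := ⟨_, rfl⟩
  have hw0 : 0 ≤ w := by rw [hw]; exact Nat.cast_nonneg _
  have hκw : κ + w = ((n - 1 : ℕ) : ℝ) := by
    rw [hκ, hw, ← Nat.cast_add]
    congr 1
    omega
  rw [← hκ] at hA
  have hlog : ∀ Y : ℕ, 3 ≤ Y → 1 ≤ Real.log Y := by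
    intro Y hY
    rw [← Real.log_exp 1]
    refine Real.log_le_log (Real.exp_pos 1) ?_
    have h1 : (3 : ℝ) ≤ Y := by exact_mod_cast hY
    exact Real.exp_one_lt_d9.le.trans (by linarith)
  obtain ⟨CB, hCB, hB⟩ := card_B (k := k) hUP hn hℓ hln hM (η / 2) (by linarith)
  rw [← hw] at hB
  obtain ⟨F, hF⟩ := hCLL k n hn2
  obtain ⟨CF, hCF, hfree⟩ := Pool.Agent.Helper99.ML.free99 (κ - η) (w + η / 2) (by linarith)
    (by linarith) C CB hC.le hCB.le
  obtain ⟨c₁, hc₁, hlower⟩ := LN.cls_lower hLOW hCLO k n hn2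
  refine ⟨η / 2, (F + 1) * CF / c₁, by linarith, by positivity, fun X hX => ?_⟩
  have hl := hlog X hX
  have hl0 : 0 < Real.log X := by linarith
  have hX0 : (0 : ℝ) ≤ X := Nat.cast_nonneg X
  have hup := (LN.card_cls_le (k := k) hn P X
    (F * (CF * X * Real.log X ^ (κ - η + (w + η / 2) - 1))) ?_).2
  · refine hup.trans ?_
    have h2 := hlower X hX
    rw [le_div_iff₀ (Real.rpow_pos_of_pos hl0 _)]
    have e1 : κ - η + (w + η / 2) - 1 + η / 2 = ((n - 1 : ℕ) : ℝ) - 1 := by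
      rw [← hκw]
      ring
    calc F * (CF * X * Real.log X ^ (κ - η + (w + η / 2) - 1)) * Real.log X ^ (η / 2)
        = F * (CF * X * (Real.log X ^ (κ - η + (w + η / 2) - 1) * Real.log X ^ (η / 2))) := by ring
      _ = F * (CF * X * Real.log X ^ (((n - 1 : ℕ) : ℝ) - 1)) := by
          rw [← Real.rpow_add hl0, e1]
      _ ≤ (F + 1) * (CF * X * Real.log X ^ (((n - 1 : ℕ) : ℝ) - 1)) := by
          refine mul_le_mul_of_nonneg_right (by linarith) ?_
          exact mul_nonneg (by positivity) (Real.rpow_nonneg hl0.le _)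
      _ = (F + 1) * CF / c₁ * (c₁ * X * Real.log X ^ (((n - 1 : ℕ) : ℝ) - 1)) := by field_simp
      _ ≤ (F + 1) * CF / c₁ * Nat.card (LN.clsP (k := k) n (fun _ => True) X) :=
          mul_le_mul_of_nonneg_left h2 (by positivity)
  · intro T hT hTc
    -- the sets of labels
    have hS : ∀ c : k, ∃ S : Finset (Pr k × Fin n), c ∈ T →
        (∀ v e, (v, e) ∈ S ↔ (e : ℕ) ≠ 0 ∧ Lab n v (e : ℕ) c) ∧ OkL S ∧
          ∏ p ∈ S, nm p.1 = LN.cond n c := by
      intro c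
      by_cases hc : c ∈ T
      · obtain ⟨S, hS⟩ := exists_S (k := k) hn (hTc c hc).1
        exact ⟨S, fun _ => hS⟩
      · exact ⟨∅, fun h1 => absurd h1 hc⟩
    choose S hS using hS
    have h1 := hF T S hT fun c hc => ⟨(hTc c hc).1, (hS c hc).1⟩
    let g : Finset (Pr k × Fin n) → Finset (Pr k × Fin n) × Finset (Pr k × Fin n) := fun A =>
      (A.filter fun p => Gd M p.1 ∧ ¬ ℓ ∣ (p.2 : ℕ), A.filter fun p => ¬ (Gd M p.1 ∧ ¬ ℓ ∣ (p.2 : ℕ)))
    have hg : Function.Injective g := by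
      intro A A' hAA
      have h1 : (A.filter fun p => Gd M p.1 ∧ ¬ ℓ ∣ (p.2 : ℕ)) =
          A'.filter fun p => Gd M p.1 ∧ ¬ ℓ ∣ (p.2 : ℕ) := congrArg Prod.fst hAA
      have h2 : (A.filter fun p => ¬ (Gd M p.1 ∧ ¬ ℓ ∣ (p.2 : ℕ))) =
          A'.filter fun p => ¬ (Gd M p.1 ∧ ¬ ℓ ∣ (p.2 : ℕ)) := congrArg Prod.snd hAA
      rw [← Finset.filter_union_filter_not_eq
        (fun p : Pr k × Fin n => Gd M p.1 ∧ ¬ ℓ ∣ (p.2 : ℕ)) A, h1, h2,
        Finset.filter_union_filter_not_eq]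
    have h2 := hfree (Finset (Pr k × Fin n)) (Finset (Pr k × Fin n))
      (fun A => ∏ p ∈ A, nm p.1) (fun A => ∏ p ∈ A, nm p.1) (fun A => one_le_prod A)
      (fun A => one_le_prod A)
      (fun A => ∃ c : k, c ≠ 0 ∧ P c ∧
        ∀ v e, (v, e) ∈ A ↔ Gd M v ∧ ¬ ℓ ∣ (e : ℕ) ∧ Lab n v (e : ℕ) c)
      (fun A => OkL A ∧ ∀ p ∈ A, (p.2 : ℕ) ≠ 0 ∧ ¬ (Gd M p.1 ∧ ¬ ℓ ∣ (p.2 : ℕ)))
      (fun Y hY SS hSS => by
        refine (hA Y hY SS hSS).trans ?_
        have hlY := hlog Y hY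
        have hlY0 : 0 < Real.log Y := by linarith
        rw [mul_div_assoc, mul_div_assoc, ← Real.rpow_sub hlY0, ← mul_assoc]
        refine mul_le_mul_of_nonneg_left ?_ (by positivity)
        exact Real.rpow_le_rpow_of_exponent_le hlY (by linarith))
      (fun Y hY SS hSS => hB Y hY SS hSS) X hX ((T.image S).image g) (by
        rintro ⟨A, A'⟩ hAA
        obtain ⟨A₀, hA₀, hgA⟩ := Finset.mem_image.1 hAA
        obtain ⟨c, hc, rfl⟩ := Finset.mem_image.1 hA₀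
        obtain ⟨h3, h4, h5⟩ := hS c hc
        have e1 : A = (S c).filter fun p => Gd M p.1 ∧ ¬ ℓ ∣ (p.2 : ℕ) :=
          (congrArg Prod.fst hgA).symm
        have e2 : A' = (S c).filter fun p => ¬ (Gd M p.1 ∧ ¬ ℓ ∣ (p.2 : ℕ)) :=
          (congrArg Prod.snd hgA).symm
        refine ⟨?_, ⟨c, (hTc c hc).1, (hTc c hc).2.2, ?_⟩, ?_, ?_⟩
        · change (∏ p ∈ A, nm p.1) * (∏ p ∈ A', nm p.1) ≤ X
          rw [e1, e2, Finset.prod_filter_mul_prod_filter_not, h5]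
          exact (hTc c hc).2.1
        · intro v e
          change (v, e) ∈ A ↔ _
          rw [e1, Finset.mem_filter, h3]
          constructor
          · rintro ⟨⟨h6, h7⟩, h8, h9⟩
            exact ⟨h8, h9, h7⟩
          · rintro ⟨h8, h9, h7⟩
            refine ⟨⟨fun h6 => h9 ?_, h7⟩, h8, h9⟩
            rw [h6]
            exact dvd_zero ℓ
        · change OkL A'
          rw [e2]
          exact h4.mono (Finset.filter_subset _ _)
        · change ∀ p ∈ A', _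
          rw [e2]
          rintro ⟨v, e⟩ hp
          obtain ⟨h6, h7⟩ := Finset.mem_filter.1 hp
          exact ⟨((h3 v e).1 h6).1, h7⟩)
    rw [Finset.card_image_of_injective _ hg] at h2
    calc (T.card : ℝ) ≤ ((F * (T.image S).card : ℕ) : ℝ) := by exact_mod_cast h1
      _ = F * ((T.image S).card : ℝ) := by push_cast; rfl
      _ ≤ F * (CF * X * Real.log X ^ (κ - η + (w + η / 2) - 1)) :=
          mul_le_mul_of_nonneg_left h2 (Nat.cast_nonneg _)

end Pool.Agent.ML
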