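import Pool.Agent.Helper13.ML.Fin2
import Pool.Agent.Helper13.ML.Fin4

/-!
# Project ML: the final theorem from the blocks
-/

set_option autoImplicit false
set_option linter.unusedSectionVars false

namespace Pool.Agent.ML

open VC IntermediateField NumberField IsDedekindDomain Pool.Agent.SC
open Pool.Agent.L (Inert L0 MM SamePlace OverV)
open Pool.Agent.LN (Geo Act HasSec GoodCurve IsRam DecPt)
open Pool.Agent.M (UR NN Moves OverPl inL0 lt_iff13 eq_iff13 eq_iffk13 exists_res13 exists_lift13)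
open Pool.Agent.HG (Pr nm Ctx Gd)

open scoped Classical in
/-- at least four branch points -/
theorem caseB (hFIN : StmtFIN) (hZ : StmtZ) (hINT : StmtINT) (hLFT : StmtLFT) (hMU : StmtMU)
    (hQMD : StmtQMD) (hW3 : M.StmtW3) (hSel : StmtSel) (hMert : HG.StmtMert)
    (hSplit : HG.StmtSplit) (hDer : HG.StmtDer) (hBTL : StmtBTL)
    (hThue : HG.StmtThue) (hG4 : StmtG4P) (hG1 : StmtG1) (hG2 : StmtG2) (hG3 : StmtG3)
    (hCount : Pool.Agent.Helper99.ML.StmtCountL) (hUP : LN.StmtUP) (hLOW : LN.StmtLOW)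
    (hCLO : LN.StmtCLO) (hCLL : StmtCLL)
    {k K0 E U : Type} [Field k] [NumberField k]
    [Field K0] [Field E] [Field U] [Algebra k K0]
    [Algebra k E] [Algebra E U] [Algebra K0 U] [Algebra k U] [IsScalarTower k E U]
    [IsScalarTower k K0 U] {n ℓ : ℕ} (hn : 0 < n) (hℓ : ℓ.Prime) (hln : ℓ ∣ n)
    (hmu : HasMu k ℓ) {h : K0} {r : U} (G : Geo k K0 E U n h r)
    {f : Polynomial k} {θ : Place E (L0 E K0 (U := U)) → E} (Gl' : GlE n ℓ h r f θ)
    (hdeg : 4 ≤ f.natDegree) :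
    Rat k n (fun c : k => ∃ Φ : (E ≃ₐ[k] E) →* (U ≃+* U), Act (K0 := K0) n r c Φ) := by
  have hn2 : 2 ≤ n := hℓ.two_le.trans (Nat.le_of_dvd hn hln)
  have hNeZ : NeZero ℓ := ⟨hℓ.ne_zero⟩
  have hclE : IsAlgClosed E := G.clE
  have halg : Algebra.IsAlgebraic k E := G.algE
  have hcE : CharZero E := charZero_of_injective_algebraMap (algebraMap k E).injective
  have hNF : NumberField f.SplittingField := NumberField.of_module_finite k f.SplittingField
  have hGal : IsGalois k f.SplittingField := IsGalois.of_separable_splitting_field Gl'.sep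
  let ι : f.SplittingField →ₐ[k] E := IsAlgClosed.lift
  -- a branch point
  obtain ⟨b₀, hb₀⟩ : ∃ b : Place E (L0 E K0 (U := U)), BPl ℓ h b := by
    obtain ⟨x, hx⟩ := IsAlgClosed.exists_aeval_eq_zero E f (by
      intro h0
      have := Polynomial.natDegree_eq_zero_iff_degree_le_zero.2 h0.le
      omega)
    obtain ⟨b, hb, _⟩ := Gl'.ex x hx
    exact ⟨b, hb⟩
  have hpl : Nonempty (Place E (NN E K0 ℓ (U := U))) := exists_pl ℓ (b := b₀)
  obtain ⟨θL, bt, hbt, hθL, hGl⟩ := exists_gl Gl' ι b₀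
  let Om : f.SplittingField → Prop := fun x => x ∈ f.rootSet f.SplittingField → Tot n h (bt x)
  have hnl : n / ℓ < n := Nat.div_lt_self hn hℓ.one_lt
  refine rat_of hUP hLOW hCLO hCLL hn hℓ hln _ ?_
  refine upperL hFIN hZ hINT hLFT hMU hQMD hW3 hSel hMert hBTL hThue hG4 hG1 hG2 hCount hn hℓ hln
    hmu G Gl'.sep (by omega) ι hGl hpl (AlL (k := k) n ℓ h bt) (fun e θ h1 => h1)
    (fun _ => {p : Pr k × Fin n | ¬ ℓ ∣ (p.2 : ℕ)}) ((n - n / ℓ : ℕ) : ℝ)
    (by exact_mod_cast (by omega : 0 < n - n / ℓ)) (fun X v e t _ h1 _ _ => h1) ?_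
  intro K
  refine hG3 hMert hSplit hDer k f.SplittingField f n ℓ hℓ hln hn2 hmu
    (AlL (k := k) n ℓ h bt) Om ?_ ?_ ?_ K
  · intro σ x hOm hσx
    have hx : x ∈ f.rootSet f.SplittingField := by
      rw [Polynomial.mem_rootSet] at hσx ⊢
      refine ⟨hσx.1, ?_⟩
      have h1 : Polynomial.aeval (σ x) f = σ (Polynomial.aeval x f) :=
        Polynomial.aeval_algHom_apply (σ : f.SplittingField →ₐ[k] f.SplittingField) x f
      rw [h1, map_eq_zero] at hσx
      exact hσx.2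
    obtain ⟨g, hg⟩ := exists_lift13 (E := E) ι σ
    have h1 := Gl'.ord g _ _ (hbt x hx).1 (hbt _ hσx).1 (by
      rw [(hbt x hx).2, (hbt _ hσx).2, hg])
    intro d hd hd1
    rw [← h1]
    exact hOm hx d hd hd1
  · intro a hOm ha
    have hx : algebraMap k f.SplittingField a ∈ f.rootSet f.SplittingField := by
      rw [Polynomial.mem_rootSet, Polynomial.aeval_algebraMap_apply]
      refine ⟨Gl'.sep.ne_zero, ?_⟩
      have h1 : Polynomial.aeval a f = 0 := ha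
      rw [h1, map_zero]
    refine Gl'.noroot _ (hbt _ hx).1 (hOm hx) a ?_
    rw [(hbt _ hx).2, AlgHom.commutes]
  · refine ⟨⟨1, by omega⟩, fun h1 => hℓ.one_lt.ne' (Nat.dvd_one.1 h1), fun x hx _ d hd hd1 hdo => ?_⟩
    have h1 : d ∣ 1 := hx.2 d hd hdo
    exact hd1.ne' (Nat.dvd_one.1 h1)

/-- The final theorem from the blocks. -/
theorem finA_of (hTR : LN.StmtTR) (hFR : LN.StmtFR) (hNR : StmtNR) (hFB : M.StmtFB)
    (hFIN : StmtFIN) (hZ : StmtZ) (hINT : StmtINT) (hLFT : StmtLFT) (hMU : StmtMU)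
    (hQMD : StmtQMD) (hW3 : M.StmtW3) (hSel : StmtSel) (hMert : HG.StmtMert)
    (hSplit : HG.StmtSplit) (hDer : HG.StmtDer) (hBTL : StmtBTL)
    (hThue : HG.StmtThue) (hG4 : StmtG4P) (hG1 : StmtG1) (hG2 : StmtG2) (hG3 : StmtG3)
    (hCount : Pool.Agent.Helper99.ML.StmtCountL) (hUP : LN.StmtUP) (hLOW : LN.StmtLOW)
    (hCLO : LN.StmtCLO) (hCLL : StmtCLL) (hUP2 : LN2.StmtUP) (hCLS2 : LN2.StmtCLS) :
    StmtFinA := by
  intro k K0 _ _ _ _ n ℓ h hn hℓ hln hmu hG hN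
  have hn2 : 2 ≤ n := hℓ.two_le.trans (Nat.le_of_dvd hn hln)
  obtain ⟨E, U, _, _, _, _, _, _, _, _, r, G, hact⟩ := hTR k K0 n h hn2 hG
  by_cases hex : ∃ (c₀ : k) (Φ₀ : (E ≃ₐ[k] E) →* (U ≃+* U)), c₀ ≠ 0 ∧ Act (K0 := K0) n r c₀ Φ₀
  · obtain ⟨c₀, Φ₀, hc₀, hA₀⟩ := hex
    obtain ⟨f, θ, Gl'⟩ := exists_glE hNR hFB hn hℓ hln hmu G hN hc₀ hA₀
    have key : Rat k n (fun c : k => ∃ Φ : (E ≃ₐ[k] E) →* (U ≃+* U),
        Act (K0 := K0) n r c Φ) := by
      rcases le_or_gt f.natDegree 4 with hd | hd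
      · exact caseA hFR hFIN hZ hINT hDer hUP2 hCLS2 hLOW hCLO hn hℓ hln hmu G Gl' hd
      · exact caseB hFIN hZ hINT hLFT hMU hQMD hW3 hSel hMert hSplit hDer hBTL hThue hG4 hG1 hG2
          hG3 hCount hUP hLOW hCLO hCLL hn hℓ hln hmu G Gl' hd.le
    obtain ⟨η, C, hη, hC, hX⟩ := key
    refine ⟨η, C, hη, hC, fun X hX3 => le_trans ?_ (hX X hX3)⟩
    have hsub : LN.clsP n (fun c : k => HasSec n h c) X ⊆
        LN.clsP n (fun c : k => ∃ Φ : (E ≃ₐ[k] E) →* (U ≃+* U), Act (K0 := K0) n r c Φ) X := by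
      rintro D ⟨c, h1, h2, h3⟩
      exact ⟨c, h1, h2, hact c c.ne_zero h3⟩
    have hfin : (LN.clsP n (fun c : k => ∃ Φ : (E ≃ₐ[k] E) →* (U ≃+* U),
        Act (K0 := K0) n r c Φ) X).Finite := by
      refine (LN.twists_finite (k := k) n hn2 X).subset ?_
      rintro D ⟨c, h1, h2, _⟩
      exact ⟨c, h1, h2, trivial⟩
    exact_mod_cast Nat.card_mono hfin hsub
  · refine ⟨1, 1, one_pos, one_pos, fun X hX => ?_⟩
    have hemp : LN.clsP n (fun c : k => HasSec n h c) X = ∅ := by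
      rw [Set.eq_empty_iff_forall_notMem]
      rintro D ⟨c, h1, h2, h3⟩
      obtain ⟨Φ, hΦ⟩ := hact c c.ne_zero h3
      exact hex ⟨c, Φ, c.ne_zero, hΦ⟩
    have hlog : 0 ≤ Real.log X := Real.log_natCast_nonneg X
    have h0 : Nat.card (∅ : Set (LN.Cls k n)) = 0 := by
      rw [Nat.card_coe_set_eq, Set.ncard_empty]
    rw [hemp, h0, Nat.cast_zero]
    positivity

end Pool.Agent.ML
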