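import Pool.Agent.Helper13.ML.GB
import Pool.Agent.Helper13.ML.Fin2
import Pool.Agent.Helper13.ML.Fin4

/-!
# Project ML, relative form: the upper bound
-/

set_option autoImplicit false
set_option linter.unusedSectionVars false

namespace Pool.Agent.ML

open VC IntermediateField NumberField IsDedekindDomain Pool.Agent.SC
open Pool.Agent.L (Inert L0 MM SamePlace OverV)
open Pool.Agent.LN (Geo Act HasSec GoodCurve IsRam DecPt)
open Pool.Agent.M (UR NN Moves OverPl inL0 lt_iff13 eq_iff13 eq_iffk13 exists_res13 exists_lift13)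
open Pool.Agent.HG (Pr nm Ctx Gd)
open Pool.Agent.MP (kap kap_eq kap_pos kap_le)

/-- from sets of labels to classes, prime degree -/
theorem cls_of_labels {k : Type} [Field k] [NumberField k] (hCLL : StmtCLL) {ℓ : ℕ}
    (hℓ : ℓ.Prime) (P : k → Prop) {M : ℕ} (hM : M ≠ 0) (b : ℕ → ℝ) (h : ∀ Y : ℕ, 3 ≤ Y →
      ∀ SS : Finset (Finset (Pr k × Fin ℓ)),
      (∀ A ∈ SS, ∏ p ∈ A, nm p.1 ≤ Y ∧ ∃ c : k, c ≠ 0 ∧ P c ∧
        ∀ v e, (v, e) ∈ A ↔ Gd M v ∧ ¬ ℓ ∣ (e : ℕ) ∧ Lab ℓ v (e : ℕ) c) →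
      (SS.card : ℝ) ≤ b Y) :
    ∃ F : ℕ, ∀ Y : ℕ, 3 ≤ Y → ∀ T : Finset k,
      (∀ c ∈ T, ∀ c' ∈ T, (∃ d : k, c = c' * d ^ ℓ) → c = c') →
      (∀ c ∈ T, c ≠ 0 ∧ LN.cond ℓ c ≤ Y ∧ P c) → (T.card : ℝ) ≤ F * b Y := by
  classical
  obtain ⟨F, hF⟩ := hCLL k ℓ hℓ.two_le
  have hfin : {v : Pr k | ¬ Gd M v}.Finite := Pool.Agent.Helper88.HG.finite_bad k hM
  let Bd : Finset (Pr k × Fin ℓ) := hfin.toFinset ×ˢ (Finset.univ : Finset (Fin ℓ))
  refine ⟨F * Bd.powerset.card, fun Y hY T hT hTc => ?_⟩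
  have hS : ∀ c : k, ∃ S : Finset (Pr k × Fin ℓ), c ∈ T →
      (∀ v e, (v, e) ∈ S ↔ (e : ℕ) ≠ 0 ∧ Lab ℓ v (e : ℕ) c) ∧ OkL S ∧
        ∏ p ∈ S, nm p.1 = LN.cond ℓ c := by
    intro c
    by_cases hc : c ∈ T
    · obtain ⟨S, hS⟩ := exists_S (k := k) hℓ.pos (hTc c hc).1
      exact ⟨S, fun _ => hS⟩
    · exact ⟨∅, fun h1 => absurd h1 hc⟩
  choose S hS using hS
  have h1 := hF T S hT fun c hc => ⟨(hTc c hc).1, (hS c hc).1⟩
  have he : ∀ e : Fin ℓ, (e : ℕ) ≠ 0 ↔ ¬ ℓ ∣ (e : ℕ) := by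
    intro e
    constructor
    · intro h2 h3
      have h4 := Nat.le_of_dvd (Nat.pos_of_ne_zero h2) h3
      have h5 := e.2
      omega
    · intro h2 h3
      rw [h3] at h2
      exact h2 (dvd_zero ℓ)
  let g : Finset (Pr k × Fin ℓ) → Finset (Pr k × Fin ℓ) × Finset (Pr k × Fin ℓ) := fun A =>
    (A.filter fun p => Gd M p.1, A.filter fun p => ¬ Gd M p.1)
  have hg : Function.Injective g := by
    intro A A' hAA
    have h1 : (A.filter fun p => Gd M p.1) = A'.filter fun p => Gd M p.1 := congrArg Prod.fst hAA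
    have h2 : (A.filter fun p => ¬ Gd M p.1) = A'.filter fun p => ¬ Gd M p.1 :=
      congrArg Prod.snd hAA
    rw [← Finset.filter_union_filter_not_eq (fun p : Pr k × Fin ℓ => Gd M p.1) A, h1, h2,
      Finset.filter_union_filter_not_eq]
  let SS : Finset (Finset (Pr k × Fin ℓ)) := (T.image S).image fun A => A.filter fun p => Gd M p.1
  have h2 : (T.image S).card ≤ (SS ×ˢ Bd.powerset).card := by
    rw [← Finset.card_image_of_injective (T.image S) hg]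
    refine Finset.card_le_card ?_
    intro q hq
    obtain ⟨A, hA, rfl⟩ := Finset.mem_image.1 hq
    rw [Finset.mem_product]
    refine ⟨Finset.mem_image_of_mem _ hA, ?_⟩
    rw [Finset.mem_powerset]
    intro p hp
    obtain ⟨-, hp2⟩ := Finset.mem_filter.1 hp
    exact Finset.mem_product.2 ⟨hfin.mem_toFinset.2 hp2, Finset.mem_univ _⟩
  have h3 : (SS.card : ℝ) ≤ b Y := by
    refine h Y hY SS fun A hA => ?_
    obtain ⟨A₀, hA₀, rfl⟩ := Finset.mem_image.1 hA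
    obtain ⟨c, hc, rfl⟩ := Finset.mem_image.1 hA₀
    obtain ⟨h4, h5, h6⟩ := hS c hc
    refine ⟨?_, c, (hTc c hc).1, (hTc c hc).2.2, ?_⟩
    · refine le_trans ?_ (hTc c hc).2.1
      rw [← h6]
      exact Nat.le_of_dvd (Finset.prod_pos fun p _ => LN.nm_pos p.1)
        (Finset.prod_dvd_prod_of_subset _ _ _ (Finset.filter_subset _ _))
    · intro v e
      rw [Finset.mem_filter, h4, he]
      constructor
      · rintro ⟨⟨h7, h8⟩, h9⟩
        exact ⟨h9, h7, h8⟩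
      · rintro ⟨h9, h7, h8⟩
        exact ⟨⟨h7, h8⟩, h9⟩
  rw [Finset.card_product] at h2
  have h4 : T.card ≤ F * Bd.powerset.card * SS.card := by
    refine h1.trans ?_
    calc F * (T.image S).card ≤ F * (SS.card * Bd.powerset.card) := Nat.mul_le_mul_left F h2
      _ = F * Bd.powerset.card * SS.card := by ring
  calc (T.card : ℝ) ≤ ((F * Bd.powerset.card * SS.card : ℕ) : ℝ) := by exact_mod_cast h4
    _ = ((F * Bd.powerset.card : ℕ) : ℝ) * (SS.card : ℝ) := by push_cast; ring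
    _ ≤ ((F * Bd.powerset.card : ℕ) : ℝ) * b Y := mul_le_mul_of_nonneg_left h3 (Nat.cast_nonneg _)

open scoped Classical in
/-- the upper bound for the twists with sections -/
theorem upperR (hFIN : StmtFIN) (hZ : StmtZ) (hINT : StmtINT) (hLFT : StmtLFT) (hMU : StmtMU)
    (hQMD : StmtQMD) (hW3 : M.StmtW3) (hSel : StmtSel) (hMert : HG.StmtMert)
    (hSplit : HG.StmtSplit) (hBTL : StmtBTL)
    (hThue : HG.StmtThue) (hG4 : StmtG4P) (hG1 : StmtG1) (hG2 : StmtG2)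
    (hCount : Pool.Agent.Helper99.ML.StmtCountL) (hCLL : StmtCLL) (hDK : MP.StmtDK)
    (hG3R : StmtG3R)
    {k K0 E U : Type} [Field k] [NumberField k]
    [Field K0] [Field E] [Field U] [Algebra k K0]
    [Algebra k E] [Algebra E U] [Algebra K0 U] [Algebra k U] [IsScalarTower k E U]
    [IsScalarTower k K0 U] {ℓ : ℕ} (hℓ : ℓ.Prime)
    (hmu : HasMu k ℓ) {h : K0} {r : U} (G : Geo k K0 E U ℓ h r)
    {f : Polynomial k} {θ : Place E (L0 E K0 (U := U)) → E} (Gl' : GlE ℓ ℓ h r f θ)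
    (hdeg : 2 ≤ f.natDegree)
    (hHL : ∀ (L : Type) [Field L] [NumberField L] [Algebra k L] [IsGalois k L],
      (f.map (algebraMap k L)).Splits →
      ∀ J : Finset L, (∀ σ : L ≃ₐ[k] L, ∀ θ ∈ J, σ θ ∈ J) → (J : Set L) ⊆ f.rootSet L →
      ℓ ^ J.card ≤ J.card * ℓ ^ 2 →
      ∃ σ : L ≃ₐ[k] L, (∃ θ ∈ f.rootSet L, σ θ = θ) ∧ ∀ θ ∈ J, σ θ ≠ θ) :
    ∃ η C : ℝ, 0 < η ∧ 0 < C ∧ ∀ X : ℕ, 3 ≤ X → ∀ T : Finset k,
      (∀ c ∈ T, ∀ c' ∈ T, (∃ d : k, c = c' * d ^ ℓ) → c = c') →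
      (∀ c ∈ T, c ≠ 0 ∧ LN.cond ℓ c ≤ X ∧
        ∃ Φ : (E ≃ₐ[k] E) →* (U ≃+* U), Act (K0 := K0) ℓ r c Φ) →
      (T.card : ℝ) ≤ C * (X * Real.log X ^ (((ℓ - 1 : ℕ) : ℝ) * kap f - 1)) / Real.log X ^ η := by
  have hNeZ : NeZero ℓ := ⟨hℓ.ne_zero⟩
  have hclE : IsAlgClosed E := G.clE
  have halg : Algebra.IsAlgebraic k E := G.algE
  have hcE : CharZero E := charZero_of_injective_algebraMap (algebraMap k E).injective
  have hNF : NumberField f.SplittingField := NumberField.of_module_finite k f.SplittingField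
  have hGal : IsGalois k f.SplittingField := IsGalois.of_separable_splitting_field Gl'.sep
  have hsplit : (f.map (algebraMap k f.SplittingField)).Splits := Polynomial.SplittingField.splits f
  let ι : f.SplittingField →ₐ[k] E := IsAlgClosed.lift
  -- a branch point
  obtain ⟨b₀, hb₀⟩ : ∃ b : Place E (L0 E K0 (U := U)), BPl ℓ h b := by
    obtain ⟨x, hx⟩ := IsAlgClosed.exists_aeval_eq_zero E f (by
      intro h0
      have := Polynomial.natDegree_eq_zero_iff_degree_le_zero.2 h0.le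
      omega)
    obtain ⟨b, hb, _⟩ := Gl'.ex x hx
    exact ⟨b, hb⟩
  have hpl : Nonempty (Place E (NN E K0 ℓ (U := U))) := exists_pl ℓ (b := b₀)
  obtain ⟨θL, bt, hbt, hθL, hGl⟩ := exists_gl Gl' ι b₀
  have hκ : 0 < ((ℓ - 1 : ℕ) : ℝ) * kap f := by
    have h1 : (0 : ℝ) < ((ℓ - 1 : ℕ) : ℝ) := by
      have := hℓ.two_le
      exact_mod_cast (by omega : 0 < ℓ - 1)
    exact mul_pos h1 (kap_pos (by omega))
  obtain ⟨M, η, C, hM, hη, hC, hup⟩ := upperL hFIN hZ hINT hLFT hMU hQMD hW3 hSel hMert hBTL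
    hThue hG4 hG1 hG2 hCount hℓ.pos hℓ dvd_rfl hmu G Gl'.sep hdeg ι hGl hpl (fun _ _ => True)
    (fun _ _ _ => trivial)
    (fun X => {p : Pr k × Fin ℓ | ¬ ℓ ∣ (p.2 : ℕ) ∧ (X.Fx p.1).Nonempty})
    (((ℓ - 1 : ℕ) : ℝ) * kap f) hκ
    (fun X v e t _ h1 h2 h3 => ⟨h1, t, Finset.mem_filter.2 ⟨h2, h3⟩⟩) (by
      intro K
      obtain ⟨ε, hε, hG3⟩ := hG3R hMert hSplit hDK hW3 k f.SplittingField f ℓ hℓ hmu (by omega)
        (hHL f.SplittingField hsplit) K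
      refine ⟨ε, hε, fun X hm hfin ι Vι w g hV Q hQ B hB δ C hδ hs => ?_⟩
      have h1 := hG3 X hm hfin ι Vι w g hV Q hQ B hB δ C hδ hs
      rw [kap_eq X] at h1
      exact h1)
  obtain ⟨F, hF⟩ := cls_of_labels hCLL hℓ
    (fun c : k => ∃ Φ : (E ≃ₐ[k] E) →* (U ≃+* U), Act (K0 := K0) ℓ r c Φ) hM
    (fun Y : ℕ => C * (Y * Real.log Y ^ (((ℓ - 1 : ℕ) : ℝ) * kap f - 1)) / Real.log Y ^ η) hup
  refine ⟨η, (F + 1) * C, hη, by positivity, fun Y hY T hT hTc => ?_⟩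
  have hlog : 0 ≤ Real.log Y := Real.log_natCast_nonneg Y
  refine (hF Y hY T hT hTc).trans ?_
  have h3 : 0 ≤ C * (Y * Real.log Y ^ (((ℓ - 1 : ℕ) : ℝ) * kap f - 1)) / Real.log Y ^ η :=
    div_nonneg (mul_nonneg hC.le (mul_nonneg (Nat.cast_nonneg Y) (Real.rpow_nonneg hlog _)))
      (Real.rpow_nonneg hlog _)
  have h4 : (F : ℝ) * (C * (Y * Real.log Y ^ (((ℓ - 1 : ℕ) : ℝ) * kap f - 1)) / Real.log Y ^ η) ≤
      (F + 1) * (C * (Y * Real.log Y ^ (((ℓ - 1 : ℕ) : ℝ) * kap f - 1)) / Real.log Y ^ η) :=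
    mul_le_mul_of_nonneg_right (by linarith) h3
  refine h4.trans (le_of_eq ?_)
  ring

end Pool.Agent.ML
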