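import Pool.Agent.Helper13.ML.Chr
import Pool.Agent.Helper13.M.G1M

/-!
# Project ML, block G1: the relations (valuations)
-/

set_option autoImplicit false
set_option linter.unusedSectionVars false

namespace Pool.Agent.ML

open Polynomial NumberField IsDedekindDomain
open Pool.Agent.HG
open scoped Pointwise IntermediateField

/-- the label is unique -/
theorem Lab.unique {k : Type} [Field k] [NumberField k] {n : ℕ} {v : Pr k} {c : k} (hc : c ≠ 0)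
    {e e' : Fin n} (h : Lab n v (e : ℕ) c) (h' : Lab n v (e' : ℕ) c) : e = e' := by
  obtain ⟨d, hd⟩ := h
  obtain ⟨d', hd'⟩ := h'
  have hn : 0 < n := e.pos
  have h0 : v.valuation k c ≠ 0 := val_ne_zero v hc
  have hd0 : v.valuation k d ≠ 0 := by
    intro h1
    rw [h1, zero_pow hn.ne', mul_zero] at hd
    exact h0 hd
  have hd0' : v.valuation k d' ≠ 0 := by
    intro h1
    rw [h1, zero_pow hn.ne', mul_zero] at hd'
    exact h0 hd'
  have h1 := congrArg WithZero.log (hd.symm.trans hd')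
  rw [WithZero.log_mul WithZero.exp_ne_zero (pow_ne_zero _ hd0),
    WithZero.log_mul WithZero.exp_ne_zero (pow_ne_zero _ hd0'), WithZero.log_exp,
    WithZero.log_exp, WithZero.log_pow, WithZero.log_pow] at h1
  have h2 : (n : ℤ) ∣ ((e : ℕ) : ℤ) - ((e' : ℕ) : ℤ) := by
    refine ⟨(v.valuation k d).log - (v.valuation k d').log, ?_⟩
    simp only [nsmul_eq_mul] at h1
    linarith
  have h3 : ((e : ℕ) : ℤ) - ((e' : ℕ) : ℤ) = 0 := by
    refine Int.eq_zero_of_abs_lt_dvd h2 ?_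
    rw [abs_lt]
    have := e.2
    have := e'.2
    constructor <;> omega
  exact Fin.ext (by omega)

section vz

variable {L : Type} [Field L] [NumberField L]

theorem Vz.of_conj {k : Type} [Field k] [NumberField k] [Algebra k L] {σ : L ≃ₐ[k] L} {P P' : Pr L}
    (h : ∀ a : 𝓞 L, a ∈ P.asIdeal ↔ σ • a ∈ P'.asIdeal) {p N : ℕ} {e : ℤ} {z : L}
    (hz : Vz P' p N e (σ z)) : Vz P p N e z := by
  obtain ⟨a, ha⟩ := hz
  refine ⟨a, ?_⟩
  rw [val_eq_conj h, map_mul, map_zpow₀, map_natCast]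
  exact ha

end vz

open scoped Classical in
/-- the product of the Thue numbers -/
noncomputable def Zl {k L : Type} [Field k] [NumberField k] [Field L] [NumberField L] [Algebra k L]
    [IsGalois k L] {f : k[X]} (X : Ctx k L f) {n : ℕ} (S : Finset (Pr k × Fin n))
    (w : L → Fin n → ℕ) (t : Pr k → L) (θ : L) : L :=
  ∏ q ∈ S.filter (fun q => minpoly k (t q.1) = minpoly k θ),
    aeval θ (X.B q.1 (t q.1)) ^ w (t q.1) q.2

section dat

variable {k L : Type} [Field k] [NumberField k] [Field L] [NumberField L] [Algebra k L]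
  [IsGalois k L] {f : k[X]} {X : Ctx k L f} {n ℓ : ℕ} {c : k} {S : Finset (Pr k × Fin n)}
  {w : L → Fin n → ℕ} {D : L → L → L} {t : Pr k → L} {sg : Pr k → ℕ → L → L → rootsOfUnity ℓ k}
  (h : DatL X n ℓ c S w D t sg)

include h

theorem DatL.gd {v : Pr k} {e : Fin n} (hv : (v, e) ∈ S) :
    ∃ p : ℕ, p.Prime ∧ ¬ p ∣ X.M ∧ (p : 𝓞 k) ∈ v.asIdeal := ((h.hS v e).1 hv).1

theorem DatL.uniq {v : Pr k} {e e' : Fin n} (hv : (v, e) ∈ S) (hv' : (v, e') ∈ S) : e = e' :=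
  Lab.unique h.hc ((h.hS v e).1 hv).2.2 ((h.hS v e').1 hv').2.2

theorem DatL.thue {q : Pr k} {e : Fin n} (hq : (q, e) ∈ S) : ∃ p : ℕ, p.Prime ∧ ¬ p ∣ X.M ∧
    (p : 𝓞 k) ∈ q.asIdeal ∧ IsThue f X.M X.K p q (X.P q) (t q) (X.B q (t q)) := by
  obtain ⟨p, hp, hpM, hpv⟩ := h.gd hq
  exact ⟨p, hp, hpM, hpv, X.thue p q (X.isOver hp hpM hpv) _ ((X.mem_Ω _).1 (h.t_mem q e hq))
    (h.t_fix q e hq)⟩

/-- an element of `k` congruent to the root -/
theorem DatL.exists_alpha {v : Pr k} {e : Fin n} (hv : (v, e) ∈ S) :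
    ∃ a : 𝓞 k, (X.P v).valuation L (algebraMap k L a - t v) < 1 := by
  obtain ⟨p, hp, hpM, hpv⟩ := h.gd hv
  have ht := X.int p v (X.P v) (X.isOver hp hpM hpv) _ ((X.mem_Ω _).1 (h.t_mem v e hv))
  have h1 := X.frob v (t v) ht
  rw [h.t_fix v e hv, Valuation.map_sub_swap] at h1
  exact exists_alpha13 (X.comap v) ht h1

/-- the Thue number of another prime is a unit -/
theorem DatL.val_other {p : ℕ} {v : Pr k} (hp : p.Prime) (hpM : ¬ p ∣ X.M)
    (hpv : (p : 𝓞 k) ∈ v.asIdeal) {θ : L} (hθ : θ ∈ X.Ω) {q : Pr k} {e : Fin n}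
    (hq : (q, e) ∈ S) (hne : v ≠ q) (hm : minpoly k (t q) = minpoly k θ) :
    (X.P v).valuation L (aeval θ (X.B q (t q))) = 1 := by
  obtain ⟨p', hp', hpM', hpv', ht⟩ := h.thue hq
  exact ht.unit p v (X.P v) (X.isOver hp hpM hpv) hne θ ((X.mem_Ω _).1 hθ) hm.symm

/-- the Thue number of `v` is a unit at the other roots, and has valuation one at `t v` -/
theorem DatL.val_self {p : ℕ} {v : Pr k} (hp : p.Prime) (hpM : ¬ p ∣ X.M)
    (hpv : (p : 𝓞 k) ∈ v.asIdeal) {e : Fin n} (hv : (v, e) ∈ S) {θ : L} (hθ : θ ∈ X.Ω)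
    (hm : minpoly k (t v) = minpoly k θ) :
    (θ ≠ t v → (X.P v).valuation L (aeval θ (X.B v (t v))) = 1) ∧
    (θ = t v → (X.P v).valuation L (aeval θ (X.B v (t v))) = (X.P v).valuation L (p : L)) := by
  have ho := X.isOver hp hpM hpv
  have htm := h.t_mem v e hv
  have ht := X.thue p v ho _ ((X.mem_Ω _).1 htm) (h.t_fix v e hv)
  obtain ⟨a, ha⟩ := h.exists_alpha hv
  have hab := ht.above a ha (X.P v) ho θ ((X.mem_Ω _).1 hθ) hm.symm
  refine ⟨fun hne => hab.1 ?_, fun heq => hab.2 ?_⟩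
  · have h1 := X.sep p v (X.P v) ho (t v) ((X.mem_Ω _).1 htm) θ ((X.mem_Ω _).1 hθ) hne.symm
    have h2 : algebraMap k L a - θ = (algebraMap k L a - t v) + (t v - θ) := by ring
    rw [h2, Valuation.map_add_eq_of_lt_right _ (by rw [h1]; exact ha), h1]
  · rw [heq]
    exact ha

theorem DatL.val_fac {p : ℕ} {v : Pr k} (hp : p.Prime) (hpM : ¬ p ∣ X.M)
    (hpv : (p : 𝓞 k) ∈ v.asIdeal) {θ : L} (hθ : θ ∈ X.Ω) {q : Pr k} {e : Fin n}
    (hq : (q, e) ∈ S) (hne : (v, e) ∈ S → θ ≠ t v) (hm : minpoly k (t q) = minpoly k θ) :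
    (X.P v).valuation L (aeval θ (X.B q (t q))) = 1 := by
  by_cases hqv : v = q
  · subst hqv
    exact (h.val_self hp hpM hpv hq hθ hm).1 (hne hq)
  · exact h.val_other hp hpM hpv hθ hq hqv hm

/-- the product of the Thue numbers is a unit at the roots other than `t v` -/
theorem DatL.val_Zl {p : ℕ} {v : Pr k} (hp : p.Prime) (hpM : ¬ p ∣ X.M)
    (hpv : (p : 𝓞 k) ∈ v.asIdeal) {θ : L} (hθ : θ ∈ X.Ω) (hne : ∀ e, (v, e) ∈ S → θ ≠ t v) :
    (X.P v).valuation L (Zl X S w t θ) = 1 := by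
  classical
  unfold Zl
  rw [map_prod]
  refine Finset.prod_eq_one fun q hq => ?_
  obtain ⟨hq, hm⟩ := Finset.mem_filter.1 hq
  rw [map_pow, h.val_fac hp hpM hpv hθ (q := q.1) (e := q.2) hq (fun h1 => hne _ h1) hm, one_pow]

/-- at `t v` its valuation is `w` -/
theorem DatL.val_Zl_root {p : ℕ} {v : Pr k} (hp : p.Prime) (hpM : ¬ p ∣ X.M)
    (hpv : (p : 𝓞 k) ∈ v.asIdeal) {e : Fin n} (hv : (v, e) ∈ S) :
    (X.P v).valuation L (Zl X S w t (t v)) = (X.P v).valuation L (p : L) ^ w (t v) e := by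
  classical
  have htm := h.t_mem v e hv
  unfold Zl
  rw [map_prod, ← (h.val_self hp hpM hpv hv htm rfl).2 rfl, ← map_pow]
  refine Finset.prod_eq_single_of_mem (v, e) (Finset.mem_filter.2 ⟨hv, rfl⟩) fun q hqf hne => ?_
  obtain ⟨hq, hm⟩ := Finset.mem_filter.1 hqf
  have hqv : v ≠ q.1 := by
    intro hvq
    refine hne (Prod.ext hvq.symm ?_)
    have h1 : (v, q.2) ∈ S := by rw [hvq]; exact hq
    exact h.uniq h1 hv
  rw [map_pow, h.val_other hp hpM hpv htm (q := q.1) (e := q.2) hq hqv hm, one_pow]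

theorem DatL.Zl_ne {θ : L} (hθ : θ ∈ X.Ω) : Zl X S w t θ ≠ 0 := by
  classical
  unfold Zl
  rw [Finset.prod_ne_zero_iff]
  intro q hq
  obtain ⟨hq, hm⟩ := Finset.mem_filter.1 hq
  obtain ⟨p, hp, hpM, hpv, ht⟩ := h.thue (q := q.1) (e := q.2) hq
  exact pow_ne_zero _ (ht.ne θ ((X.mem_Ω _).1 hθ) hm.symm)

omit h in
theorem Zl_conj (σ : L ≃ₐ[k] L) (θ : L) : σ (Zl X S w t θ) = Zl X S w t (σ θ) := by
  classical
  unfold Zl
  rw [map_prod]
  have h1 : ∀ q : Pr k × Fin n, minpoly k (t q.1) = minpoly k (σ θ) ↔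
      minpoly k (t q.1) = minpoly k θ := by
    intro q
    rw [minpoly.algEquiv_eq]
  simp only [h1]
  refine Finset.prod_congr rfl fun q _ => ?_
  rw [map_pow]
  congr 1
  exact (aeval_algHom_apply (σ : L →ₐ[k] L) θ _).symm

/-- the number whose valuations are divisible by `ℓ` -/
theorem DatL.vz_P {p : ℕ} {v : Pr k} (hp : p.Prime) (hpM : ¬ p ∣ X.M)
    (hpv : (p : 𝓞 k) ∈ v.asIdeal) {θ θ' : L} (hθ : θ ∈ X.Ω) (hθ' : θ' ∈ X.Ω) (hne : θ ≠ θ') :
    Vz (X.P v) p ℓ 0 (D θ θ' * (Zl X S w t θ)⁻¹ * Zl X S w t θ') := by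
  have hp0 : (p : L) ≠ 0 := by exact_mod_cast hp.ne_zero
  have hvp : (X.P v).valuation L (p : L) ≠ 0 := (Valuation.ne_zero_iff _).2 hp0
  by_cases hv : ∃ e, (v, e) ∈ S
  · obtain ⟨e, hv⟩ := hv
    by_cases h1 : θ = t v
    · -- `θ = t v`
      subst h1
      obtain ⟨⟨a, ha⟩, -⟩ := h.odd p v hp hpM hpv e hv θ' hθ' hne.symm
      refine ⟨a, ?_⟩
      rw [map_mul, map_mul, map_mul, map_inv₀, h.val_Zl_root hp hpM hpv hv,
        h.val_Zl hp hpM hpv hθ' (fun _ _ => hne.symm), mul_one, sub_zero]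
      rw [map_mul, zpow_sub₀ hp0, map_div₀, zpow_natCast, map_pow] at ha
      rw [← ha, div_eq_mul_inv]
      simp only [mul_comm, mul_left_comm]
    · by_cases h2 : θ' = t v
      · subst h2
        obtain ⟨-, ⟨a, ha⟩⟩ := h.odd p v hp hpM hpv e hv θ hθ h1
        refine ⟨a, ?_⟩
        rw [map_mul, map_mul, map_mul, map_inv₀, h.val_Zl_root hp hpM hpv hv,
          h.val_Zl hp hpM hpv hθ (fun _ _ => h1), inv_one, mul_one, sub_zero]
        rw [map_mul, sub_neg_eq_add, zpow_add₀ hp0, map_mul, zpow_natCast, map_pow] at ha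
        rw [← ha]
        simp only [mul_comm, mul_left_comm]
      · obtain ⟨a, ha⟩ := h.even p v hp hpM hpv e hv θ hθ θ' hθ' hne h1 h2
        refine ⟨a, ?_⟩
        rw [map_mul, map_mul, map_mul, map_inv₀, h.val_Zl hp hpM hpv hθ (fun _ _ => h1),
          h.val_Zl hp hpM hpv hθ' (fun _ _ => h2), inv_one, mul_one, mul_one, ← map_mul]
        exact ha
  · have hv' : ∀ e, (v, e) ∉ S := fun e he => hv ⟨e, he⟩
    obtain ⟨a, ha⟩ := h.good p v hp hpM hpv hv' θ hθ θ' hθ' hne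
    refine ⟨a, ?_⟩
    rw [map_mul, map_mul, map_mul, map_inv₀,
      h.val_Zl hp hpM hpv hθ (fun e he => absurd he (hv' e)),
      h.val_Zl hp hpM hpv hθ' (fun e he => absurd he (hv' e)), inv_one, mul_one, mul_one,
      ← map_mul]
    exact ha

theorem DatL.vz_z {θ θ' : L} (hθ : θ ∈ X.Ω) (hθ' : θ' ∈ X.Ω) (hne : θ ≠ θ') (p' : ℕ) (P' : Pr L)
    (hp' : p'.Prime) (hpM : ¬ p' ∣ X.M) (hP' : (p' : 𝓞 L) ∈ P'.asIdeal) :
    Vz P' p' ℓ 0 (D θ θ' * (Zl X S w t θ)⁻¹ * Zl X S w t θ') := by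
  obtain ⟨v', hco, hmem⟩ := exists_under (k := k) P' hp' hP'
  obtain ⟨σ, hσ⟩ := exists_conj' hco (X.comap v')
  refine Vz.of_conj hσ ?_
  rw [map_mul, map_mul, map_inv₀, Zl_conj, Zl_conj, h.equiv σ θ hθ θ' hθ' hne]
  exact h.vz_P hp' hpM hmem (X.conj_mem hθ σ) (X.conj_mem hθ' σ) (fun h' => hne (σ.injective h'))

theorem DatL.z_ne {θ θ' : L} (hθ : θ ∈ X.Ω) (hθ' : θ' ∈ X.Ω) (hne : θ ≠ θ') :
    D θ θ' * (Zl X S w t θ)⁻¹ * Zl X S w t θ' ≠ 0 :=
  mul_ne_zero (mul_ne_zero (h.ne _ hθ _ hθ' hne) (inv_ne_zero (h.Zl_ne hθ))) (h.Zl_ne hθ')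

theorem DatL.D_fixed {θ θ' : L} (hθ : θ ∈ X.Ω) (hθ' : θ' ∈ X.Ω) (hne : θ ≠ θ') {σ : L ≃ₐ[k] L}
    (hσ : σ θ = θ) (hσ' : σ θ' = θ') : σ (D θ θ') = D θ θ' := by
  rw [h.equiv σ θ hθ θ' hθ' hne, hσ, hσ']

theorem DatL.z_mem {θ θ' : L} (hθ : θ ∈ X.Ω) (hθ' : θ' ∈ X.Ω) (hne : θ ≠ θ') :
    D θ θ' * (Zl X S w t θ)⁻¹ * Zl X S w t θ' ∈ k⟮θ, θ'⟯ := by
  refine mem_adjoin_of_fixed fun σ hσ hσ' => ?_
  rw [map_mul, map_mul, map_inv₀, h.D_fixed hθ hθ' hne hσ hσ', Zl_conj, Zl_conj, hσ, hσ']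

end dat

end Pool.Agent.ML
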