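import Pool.Agent.Helper45.ML.DefsR
import Pool.Agent.Helper13.ML.Fin1
import Pool.Agent.Helper13.MP.GB

/-!
# Project ML, relative form: geometric branch points, transport; `HL` on the splitting field
-/

set_option autoImplicit false
set_option linter.unusedSectionVars false

namespace Pool.Agent.ML

open VC IntermediateField NumberField IsDedekindDomain Pool.Agent.SC
open Pool.Agent.L (Inert L0 MM SamePlace OverV tA tB tO tA_apply tB_apply)
open Pool.Agent.LN (Geo Act HasSec GoodCurve IsRam DecPt)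
open Pool.Agent.M (UR NN Moves OverPl inL0 lt_iff13 eq_iff13 eq_iffk13 exists_res13 exists_lift13)
open Pool.Agent.HG (Pr nm Ctx Gd)

noncomputable section

section tr

variable {k K0 E E' : Type} [Field k] [NumberField k] [Field K0] [Field E] [Field E']
  [Algebra k K0] [Algebra k E] [Algebra k E'] {n : ℕ} {h : K0}

/-- transport -/
def tr (e : E ≃ₐ[k] E') (b : GBr k E n h) : GBr k E' n h where
  P := b.P
  φ := (e : E →+* E').comp b.φ
  const := b.const
  ram := b.ram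
  emb := fun a x hx => by
    change e (b.φ x) = _
    rw [b.emb a x hx, e.commutes]

/-- transport as an equivalence -/
def trE (e : E ≃ₐ[k] E') : GBr k E n h ≃ GBr k E' n h where
  toFun := tr e
  invFun := tr e.symm
  left_inv b := by
    obtain ⟨P, φ, h1, h2, h3⟩ := b
    have h4 : ((e.symm : E' →+* E).comp ((e : E →+* E').comp φ)) = φ :=
      RingHom.ext fun x => e.symm_apply_apply (φ x)
    change (⟨P, (e.symm : E' →+* E).comp ((e : E →+* E').comp φ), _, _, _⟩ : GBr k E n h) = _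
    congr 1
  right_inv b := by
    obtain ⟨P, φ, h1, h2, h3⟩ := b
    have h4 : ((e : E →+* E').comp ((e.symm : E' →+* E).comp φ)) = φ :=
      RingHom.ext fun x => e.apply_symm_apply (φ x)
    change (⟨P, (e : E →+* E').comp ((e.symm : E' →+* E).comp φ), _, _, _⟩ : GBr k E' n h) = _
    congr 1

theorem trE_map (e : E ≃ₐ[k] E') (b : GBr k E n h) (g : E ≃ₐ[k] E) :
    trE e (b.map g) = (trE e b).map (tA e g) := by
  obtain ⟨P, φ, h1, h2, h3⟩ := b
  have h4 : ((e : E →+* E').comp ((g : E →+* E).comp φ)) =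
      ((tA e g : E' ≃ₐ[k] E') : E' →+* E').comp ((e : E →+* E').comp φ) := by
    refine RingHom.ext fun x => ?_
    change e (g (φ x)) = tA e g (e (φ x))
    rw [tA_apply, AlgEquiv.symm_apply_apply]
  change (⟨P, (e : E →+* E').comp ((g : E →+* E).comp φ), _, _, _⟩ : GBr k E' n h) =
    ⟨P, ((tA e g : E' ≃ₐ[k] E') : E' →+* E').comp ((e : E →+* E').comp φ), _, _, _⟩
  congr 1

end tr

/-- `HL` over `E` -/
def HLE (k : Type) {K0 : Type} (E : Type) [Field k] [Field K0] [Field E] [Algebra k K0]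
    [Algebra k E] (ℓ : ℕ) (h : K0) : Prop :=
  Nonempty (GBr k E ℓ h) ∧
  ∀ J : Finset (GBr k E ℓ h), (∀ g, ∀ b ∈ J, b.map g ∈ J) → ℓ ^ J.card ≤ J.card * ℓ ^ 2 →
    ∃ σ : E ≃ₐ[k] E, (∃ b : GBr k E ℓ h, b.map σ = b) ∧ ∀ b ∈ J, b.map σ ≠ b

theorem hl_E {k K0 E : Type} [Field k] [NumberField k] [Field K0] [Field E] [Algebra k K0]
    [Algebra k E] {ℓ : ℕ} {h : K0} (e : E ≃ₐ[k] AlgebraicClosure k) (H : HL k ℓ h) :
    HLE k E ℓ h := by
  classical
  refine ⟨(trE e).nonempty_congr.2 H.1, fun J hJ hc => ?_⟩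
  have hinj : Function.Injective (trE (n := ℓ) (h := h) e) := (trE e).injective
  obtain ⟨σ, ⟨b, hb⟩, hσ⟩ := H.2 (J.image (trE e)) (by
    intro g b' hb'
    obtain ⟨b, hb, rfl⟩ := Finset.mem_image.1 hb'
    refine Finset.mem_image.2 ⟨b.map (tB e g), hJ _ b hb, ?_⟩
    rw [trE_map, MP.tA_tB]) (by
    rw [Finset.card_image_of_injective _ hinj]
    exact hc)
  refine ⟨tB e σ, ⟨(trE e).symm b, ?_⟩, fun b hb hbb => ?_⟩
  · apply hinj
    rw [trE_map, MP.tA_tB, Equiv.apply_symm_apply, hb]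
  · apply hσ _ (Finset.mem_image.2 ⟨b, hb, rfl⟩)
    rw [← MP.tA_tB e σ, ← trE_map, hbb]

/-- `HL` excludes rational branch points -/
theorem noTot_of_HL {k K0 : Type} [Field k] [Field K0] [Algebra k K0] {ℓ : ℕ} (hℓ : ℓ.Prime)
    {h : K0} (H : HL k ℓ h) : ¬ RatTot k ℓ h := by
  classical
  rintro ⟨P, hk, hres, htot⟩
  have hram := htot ℓ dvd_rfl hℓ.one_lt
  -- the residue field of `P` is `k`
  let R := IsLocalRing.ResidueField P
  let ι : k →+* P :=
    { toFun := fun a => ⟨algebraMap k K0 a, hk a⟩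
      map_one' := Subtype.ext (_root_.map_one _)
      map_mul' := fun a b => Subtype.ext (map_mul _ _ _)
      map_zero' := Subtype.ext (map_zero _)
      map_add' := fun a b => Subtype.ext (map_add _ _ _) }
  let j : k →+* R := (IsLocalRing.residue P).comp ι
  have hj : Function.Bijective j := by
    refine ⟨j.injective, fun y => ?_⟩
    obtain ⟨x, rfl⟩ := IsLocalRing.residue_surjective y
    obtain ⟨a, ha⟩ := hres x x.2
    refine ⟨a, ?_⟩
    have h1 : (x - ι a : P) ∈ IsLocalRing.maximalIdeal P := by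
      rw [← ValuationSubring.coe_mem_nonunits_iff]
      exact ha
    have h2 : IsLocalRing.residue P (x - ι a) = 0 := by
      rw [IsLocalRing.residue_eq_zero_iff]
      exact h1
    rw [map_sub, sub_eq_zero] at h2
    exact h2.symm
  let ej : k ≃+* R := RingEquiv.ofBijective j hj
  let b : GBr k (AlgebraicClosure k) ℓ h :=
    { P := P
      φ := ((algebraMap k (AlgebraicClosure k)).comp (ej.symm : R →+* k)).comp
        (IsLocalRing.residue P)
      const := hk
      ram := hram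
      emb := fun a x hx => by
        have h1 : x = ι a := Subtype.ext hx
        have h2 : ej a = IsLocalRing.residue P x := by rw [h1]; rfl
        change algebraMap k (AlgebraicClosure k) (ej.symm (IsLocalRing.residue P x)) = _
        rw [← h2, RingEquiv.symm_apply_apply] }
  have hfix : ∀ g : AlgebraicClosure k ≃ₐ[k] AlgebraicClosure k, b.map g = b := by
    intro g
    have h4 : ((g : AlgebraicClosure k →+* AlgebraicClosure k).comp b.φ) = b.φ := by
      refine RingHom.ext fun x => ?_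
      exact g.commutes _
    change (⟨P, (g : AlgebraicClosure k →+* AlgebraicClosure k).comp b.φ, _, _, _⟩ :
      GBr k (AlgebraicClosure k) ℓ h) = ⟨P, b.φ, _, _, _⟩
    congr 1
  obtain ⟨σ, _, hσ⟩ := H.2 {b} (by
    intro g b' hb'
    rw [Finset.mem_singleton] at hb'
    rw [hb', hfix]
    exact Finset.mem_singleton_self b) (by
    rw [Finset.card_singleton, pow_one, one_mul]
    exact Nat.le_self_pow two_ne_zero ℓ)
  exact hσ b (Finset.mem_singleton_self b) (hfix σ)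

section roots

variable {k K0 E U : Type} [Field k] [NumberField k] [Field K0] [Field E] [IsAlgClosed E]
  [Field U] [Algebra k K0] [Algebra k E] [Algebra.IsAlgebraic k E] [Algebra E U] [Algebra K0 U]
  [Algebra k U]

/-- the branch points among the points at which `h` is not a unit -/
theorem exists_gbr {ℓ : ℕ} (hℓ : ℓ.Prime) {h : K0} {Φ : (E ≃ₐ[k] E) →* (U ≃+* U)}
    (β : {b : Place E (L0 E K0 (U := U)) // ord b.ring (inL0 h) ≠ 0} ≃ GPt k E h)
    (hβ : ∀ (g : E ≃ₐ[k] E) (b b' : {b : Place E (L0 E K0 (U := U)) // ord b.ring (inL0 h) ≠ 0}),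
        Moves (Φ g) _ b.1 b'.1 ↔ (β b).map g = β b')
    (hβ' : ∀ (b : {b : Place E (L0 E K0 (U := U)) // ord b.ring (inL0 h) ≠ 0}) (d : ℕ), 0 < d →
        ((d : ℤ) ∣ ord b.1.ring (inL0 h) ↔
          ∃ z : K0, (β b).P.valuation h = (β b).P.valuation z ^ d)) :
    ∃ γ : {b : Place E (L0 E K0 (U := U)) // BPl ℓ h b} ≃ GBr k E ℓ h,
      ∀ (g : E ≃ₐ[k] E) (b b' : {b : Place E (L0 E K0 (U := U)) // BPl ℓ h b}),
        Moves (Φ g) _ b.1 b'.1 ↔ (γ b).map g = γ b' := by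
  have hne : ∀ b : {b : Place E (L0 E K0 (U := U)) // BPl ℓ h b},
      ord b.1.ring (inL0 h) ≠ 0 := by
    rintro ⟨b, hb⟩ h0
    refine hb ?_
    change (ℓ : ℤ) ∣ ord b.ring (inL0 h)
    have h1 : ord b.ring (inL0 h) = 0 := h0
    rw [h1]
    exact dvd_zero _
  let toG : {b : Place E (L0 E K0 (U := U)) // BPl ℓ h b} → GBr k E ℓ h := fun b =>
    { P := (β ⟨b.1, hne b⟩).P
      φ := (β ⟨b.1, hne b⟩).φ
      const := (β ⟨b.1, hne b⟩).const
      ram := fun z hz => b.2 ((hβ' ⟨b.1, hne b⟩ ℓ hℓ.pos).2 ⟨z, hz⟩)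
      emb := (β ⟨b.1, hne b⟩).emb }
  let pt : GBr k E ℓ h → GPt k E h := fun b =>
    { P := b.P
      φ := b.φ
      const := b.const
      nt := fun h1 => b.ram 1 (by rw [h1, _root_.map_one, one_pow])
      emb := b.emb }
  have hpt : ∀ b, pt (toG b) = β ⟨b.1, hne b⟩ := fun b => rfl
  have hptinj : Function.Injective pt := by
    rintro ⟨P, φ, h1, h2, h3⟩ ⟨P', φ', h1', h2', h3'⟩ hpp
    have h4 : P = P' := congrArg GPt.P hpp
    subst h4
    have h6 : (⟨P, φ, h1, (pt ⟨P, φ, h1, h2, h3⟩).nt, h3⟩ : GPt k E h) =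
        ⟨P, φ', h1', (pt ⟨P, φ', h1', h2', h3'⟩).nt, h3'⟩ := hpp
    rw [GPt.mk.injEq] at h6
    have h5 : φ = φ' := eq_of_heq h6.2
    subst h5
    rfl
  have hbij : Function.Bijective toG := by
    constructor
    · intro b b' hbb
      have h1 : β ⟨b.1, hne b⟩ = β ⟨b'.1, hne b'⟩ := congrArg pt hbb
      have h2 := β.injective h1
      exact Subtype.ext (Subtype.mk.inj h2)
    · intro b
      have h1 : ¬ (ℓ : ℤ) ∣ ord (β.symm (pt b)).1.ring (inL0 h) := by
        intro h1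
        obtain ⟨z, hz⟩ := (hβ' _ ℓ hℓ.pos).1 h1
        rw [Equiv.apply_symm_apply] at hz
        exact b.ram z hz
      refine ⟨⟨(β.symm (pt b)).1, h1⟩, hptinj ?_⟩
      rw [hpt]
      exact β.apply_symm_apply _
  refine ⟨Equiv.ofBijective toG hbij, fun g b b' => ?_⟩
  rw [hβ g ⟨b.1, hne b⟩ ⟨b'.1, hne b'⟩]
  change _ ↔ (toG b).map g = toG b'
  constructor
  · intro h1
    apply hptinj
    rw [hpt, ← h1]
    rfl
  · intro h1
    have h2 := congrArg pt h1
    rw [hpt] at h2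
    exact h2

/-- `HL` for the roots in the splitting field -/
theorem hl_roots {ℓ : ℕ} {h : K0} {r : U} {f : Polynomial k}
    {θ : Place E (L0 E K0 (U := U)) → E}
    (Gl : GlE ℓ ℓ h r f θ) {c : k} {Φ : (E ≃ₐ[k] E) →* (U ≃+* U)} (hc : c ≠ 0)
    (hA : Act (K0 := K0) ℓ r c Φ) {L : Type} [Field L] [NumberField L] [Algebra k L] [IsGalois k L]
    (ι : L →ₐ[k] E) (hs : (f.map (algebraMap k L)).Splits)
    (γ : {b : Place E (L0 E K0 (U := U)) // BPl ℓ h b} ≃ GBr k E ℓ h)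
    (hγ : ∀ (g : E ≃ₐ[k] E) (b b' : {b : Place E (L0 E K0 (U := U)) // BPl ℓ h b}),
      Moves (Φ g) _ b.1 b'.1 ↔ (γ b).map g = γ b')
    (H : HLE k E ℓ h) :
    (∀ J : Finset L, (∀ σ : L ≃ₐ[k] L, ∀ θ ∈ J, σ θ ∈ J) → (J : Set L) ⊆ f.rootSet L →
      ℓ ^ J.card ≤ J.card * ℓ ^ 2 →
      ∃ σ : L ≃ₐ[k] L, (∃ θ ∈ f.rootSet L, σ θ = θ) ∧ ∀ θ ∈ J, σ θ ≠ θ) ∧
    2 ≤ f.natDegree := by
  classical
  obtain ⟨hne, H⟩ := H
  -- the branch point of a root
  have hch : ∀ x : L, ∃ b : {b : Place E (L0 E K0 (U := U)) // BPl ℓ h b},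
      x ∈ f.rootSet L → θ b.1 = ι x := by
    intro x
    by_cases hx : x ∈ f.rootSet L
    · obtain ⟨b, hb, hbx⟩ := exists_place Gl ι hx
      exact ⟨⟨b, hb⟩, fun _ => hbx⟩
    · obtain ⟨b⟩ := hne
      exact ⟨γ.symm b, fun h1 => absurd h1 hx⟩
  choose B hB using hch
  have hBinj : ∀ x ∈ f.rootSet L, ∀ y ∈ f.rootSet L, γ (B x) = γ (B y) → x = y := by
    intro x hx y hy hxy
    have h1 := γ.injective hxy
    refine ι.injective (?_ : ι x = ι y)
    rw [← hB x hx, ← hB y hy, h1]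
  have hmov : ∀ (g : E ≃ₐ[k] E) (τ : L ≃ₐ[k] L), (∀ x, g (ι x) = ι (τ x)) →
      ∀ x ∈ f.rootSet L, ∀ y ∈ f.rootSet L, ((γ (B x)).map g = γ (B y) ↔ τ x = y) := by
    intro g τ hτ x hx y hy
    rw [← hγ, Gl.act c Φ hc hA g _ _ (B x).2 (B y).2, hB x hx, hB y hy, hτ]
    exact ι.injective.eq_iff
  have key : ∀ J : Finset L, (∀ σ : L ≃ₐ[k] L, ∀ θ ∈ J, σ θ ∈ J) → (J : Set L) ⊆ f.rootSet L →
      ℓ ^ J.card ≤ J.card * ℓ ^ 2 →
      ∃ σ : L ≃ₐ[k] L, (∃ θ ∈ f.rootSet L, σ θ = θ) ∧ ∀ θ ∈ J, σ θ ≠ θ := by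
    intro J hJ hsub hcard
    obtain ⟨σ, ⟨b, hb⟩, hσ⟩ := H (J.image fun x => γ (B x)) (by
      intro g b' hb'
      obtain ⟨x, hx, rfl⟩ := Finset.mem_image.1 hb'
      obtain ⟨τ, hτ⟩ := exists_res13 ι g
      refine Finset.mem_image.2 ⟨τ x, hJ τ x hx, ?_⟩
      exact ((hmov g τ hτ x (hsub hx) (τ x) (hsub (hJ τ x hx))).2 rfl).symm) (by
      rw [Finset.card_image_of_injOn fun x hx y hy hxy =>
        hBinj x (hsub hx) y (hsub hy) hxy]
      exact hcard)
    obtain ⟨τ, hτ⟩ := exists_res13 ι σ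
    refine ⟨τ, ?_, ?_⟩
    · obtain ⟨x, hx, hxb⟩ := exists_root Gl ι hs (γ.symm b).2
      have h1 : B x = γ.symm b := Subtype.ext (Gl.inj _ _ (B x).2 (γ.symm b).2 (by
        rw [hB x hx, hxb]))
      refine ⟨x, hx, (hmov σ τ hτ x hx x hx).1 ?_⟩
      rw [h1, Equiv.apply_symm_apply, hb]
    · intro x hx hxx
      exact hσ _ (Finset.mem_image.2 ⟨x, hx, rfl⟩)
        ((hmov σ τ hτ x (hsub hx) x (hsub hx)).2 hxx)
  refine ⟨key, ?_⟩
  -- the degree
  obtain ⟨b⟩ := hne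
  obtain ⟨x, hx, -⟩ := exists_root Gl ι hs (γ.symm b).2
  by_contra hcon
  have hJ := key (f.rootSet_finite L).toFinset (by
    intro σ y hy
    rw [Set.Finite.mem_toFinset] at hy ⊢
    rw [Polynomial.mem_rootSet] at hy ⊢
    refine ⟨hy.1, ?_⟩
    have h1 : Polynomial.aeval (σ y) f = σ (Polynomial.aeval y f) :=
      Polynomial.aeval_algHom_apply (σ : L →ₐ[k] L) y f
    rw [h1, hy.2, map_zero]) (by
    intro y hy
    exact (Set.Finite.mem_toFinset _).1 hy) (by
    have h1 : (f.rootSet_finite L).toFinset.card ≤ f.natDegree := by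
      have h2 : (f.rootSet_finite L).toFinset.card = (f.rootSet L).ncard :=
        (Set.ncard_eq_toFinset_card _ _).symm
      rw [h2]
      exact Polynomial.ncard_rootSet_le f L
    have h2 : 0 < (f.rootSet_finite L).toFinset.card :=
      Finset.card_pos.2 ⟨x, (Set.Finite.mem_toFinset _).2 hx⟩
    have h3 : (f.rootSet_finite L).toFinset.card = 1 := by omega
    rw [h3, pow_one, one_mul]
    exact Nat.le_self_pow two_ne_zero ℓ)
  obtain ⟨σ, ⟨y, hy, hyy⟩, hσ⟩ := hJ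
  exact hσ y ((Set.Finite.mem_toFinset _).2 hy) hyy

end roots

end

end Pool.Agent.ML
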